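import Pool.Agent.Work.MP_ed0a9a_lc.V.GoodU

/-!
# Module `GoodUQ`: the structures `U P J` satisfy `GQ`, `GR`, hence `Good`
-/

namespace Pool.Agent.Work.MP_ed0a9a_lc.V

theorem d_inj {P : Par} {J : Type} : Function.Injective (U.d : Pt J → U P J) := by
  intro a b h
  injection h

theorem LGH_map_d (P : Par) (J : Type) (l : List (Pt J)) (c : ℕ) :
    LGH (relM P J) (l.map U.d) c ↔ LG l c := by
  unfold LGH LG
  rw [List.nodup_map_iff d_inj]
  refine and_congr Iff.rfl ?_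
  rw [List.forall_mem_map]
  constructor
  · intro h p hp m hm
    by_contra hlt
    exact h p hp m (not_le.1 hlt) hm
  · intro h p hp m hm hc
    have := h p hp m hc
    omega

theorem lvH_map_d (P : Par) (J : Type) (l : List (Pt J)) :
    lvH (relM P J) (l.map U.d) = lvl l := by
  unfold lvH lvl
  exact lv_congr (fun c => LGH_map_d P J l c)

theorem nmH_iff (P : Par) (J : Type) (K k a : ℕ) (x : Fin (K + 1) → Pt J) (z : Pt J) :
    nmH (relM P J) k (fun j => (.d (x j) : U P J)) a (.d z) ↔ z = nm k x a := by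
  unfold nmH nm
  by_cases h : a < k ∧ a < K + 1
  · rw [dif_pos h, dif_pos h]
    constructor
    · intro h1
      exact (d_inj h1).symm
    · intro h1
      rw [h1]
  · rw [dif_neg h, dif_neg h]
    exact Iff.rfl

theorem missH_iff (P : Par) (J : Type) (κ n : ℕ) (x : Fin (P.K + 1) → Pt J) (z : Pt J × Pt J) :
    missH (relM P J) P κ n (fun j => .d (x j)) (.d z.1) (.d z.2) ↔ miss P κ x z n := by
  unfold missH miss
  have e : (List.ofFn (fun j => U.d (x j)) : List (U P J)) = (List.ofFn x).map U.d := by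
    rw [List.map_ofFn]
    rfl
  rw [e, ← List.map_take, lvH_map_d]
  refine and_congr ?_ Iff.rfl
  unfold pos
  by_cases h : κ % 2 = 1
  · rw [if_pos h, if_pos h, nmH_iff]
    constructor
    · rintro ⟨h1, h2⟩
      exact Prod.ext h1 h2
    · intro h1
      rw [h1]
      exact ⟨rfl, rfl⟩
  · rw [if_neg h, if_neg h, nmH_iff, nmH_iff]
    constructor
    · rintro ⟨h1, h2⟩
      exact Prod.ext h1 h2
    · intro h1
      rw [h1]
      exact ⟨rfl, rfl⟩

private theorem goodUQ_P {P : Par} {J : Type} {j k : ℕ} {hk : k ∈ P.F}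
    {x : Fin (P.K + 1) → Pt J} {z : Pt J × Pt J} {hz : okZ k z} {y : U P J}
    (h : relM P J (.P j) [.t k hk x z hz, y]) :
      ∃ hj : j < P.K + 1, y = .d (x ⟨j, hj⟩) := by
  cases y <;> first | exact h.elim | skip
  rename_i p
  have h' : ∃ hj : j < P.K + 1, x ⟨j, hj⟩ = p := h
  obtain ⟨hj, e⟩ := h'
  exact ⟨hj, by rw [e]⟩

theorem exists_map_d {P : Par} {J : Type} (l : List (U P J))
    (h : ∀ x ∈ l, relM P J .SD [x]) : ∃ l' : List (Pt J), l = l'.map U.d := by
  induction l with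
  | nil => exact ⟨[], rfl⟩
  | cons a l ih =>
    obtain ⟨l', e⟩ := ih (fun x hx => h x (List.mem_cons_of_mem _ hx))
    obtain ⟨p, e'⟩ := inv_SD (h a List.mem_cons_self)
    exact ⟨p :: l', by rw [List.map_cons, e, e']⟩

theorem goodU_q (P : Par) (J : Type) : GQ (relM P J) P := by
  intro n τ τ'
  constructor
  · intro h
    cases τ <;> cases τ' <;> first | exact h.elim | skip
    rename_i k hk x z hz k' hk' x' z' hz'
    have h' : k = k' ∧ z = z' ∧ (∀ j : Fin (P.K + 1), j.1 < P.K → x' j = x j) ∧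
        x (Fin.last P.K) = Sum.inl 0 ∧ x' (Fin.last P.K) = Sum.inl (n + 1) ∧
        ¬ miss P k x z n := h
    obtain ⟨rfl, rfl, h1, h2, h2', h3⟩ := h'
    refine ⟨k, hk, fun j => .d (x j), .d (x' (Fin.last P.K)), .d z.1, .d z.2, rfl, rfl,
      fun j => ⟨j.2, rfl⟩, fun j hj => ⟨j.2, h1 j hj⟩, ⟨Nat.lt_succ_self _, rfl⟩, h2, h2',
      (hz_iff P J k hk x z hz _ _).2 ⟨rfl, rfl⟩, (hz_iff P J k hk' x' z hz' _ _).2 ⟨rfl, rfl⟩, ?_⟩
    rw [missH_iff]
    exact h3
  · rintro ⟨k, hk, x, d', z₁, z₂, h1, h2, h3, h4, h5, h6, h7, h8, h9, h10⟩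
    obtain ⟨hk1, x1, z1, hz1, rfl⟩ := inv_ST h1
    obtain ⟨hk2, x2, z2, hz2, rfl⟩ := inv_ST h2
    rw [hz_iff] at h8 h9
    obtain ⟨rfl, rfl⟩ := h8
    have hz : z1 = z2 := Prod.ext (d_inj h9.1) (d_inj h9.2)
    subst hz
    have hx : x = fun j => .d (x1 j) := by
      funext j
      obtain ⟨_, e⟩ := goodUQ_P (h3 j)
      exact e
    subst hx
    rw [missH_iff] at h10
    obtain ⟨hj, rfl⟩ := goodUQ_P h5
    have h6' : x1 (Fin.last P.K) = Sum.inl 0 := h6
    have h7' : x2 ⟨P.K, hj⟩ = Sum.inl (n + 1) := h7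
    refine ⟨rfl, rfl, ?_, h6', h7', h10⟩
    intro j hjK
    obtain ⟨_, e⟩ := goodUQ_P (h4 j hjK)
    exact (d_inj e).symm

theorem goodU_r (P : Par) (J : Type) : GR (relM P J) P := by
  intro e j l hl
  constructor
  · intro h
    have h' : l.length = P.ar e ∧ ∃ l' : List (Pt J), l = l'.map U.d ∧
      ∃ t, P.kb e j t = true ∧ (t : ℕ∞) ≤ lvl l' := h
    obtain ⟨_, l', rfl, t, ht, ht'⟩ := h'
    refine ⟨?_, t, ht, ?_⟩
    · intro x hx
      rw [List.mem_map] at hx
      obtain ⟨p, _, rfl⟩ := hx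
      trivial
    · rw [lvH_map_d P J l']
      exact ht'
  · rintro ⟨h1, t, ht, ht'⟩
    obtain ⟨l', rfl⟩ := exists_map_d l h1
    rw [lvH_map_d P J l'] at ht'
    exact ⟨hl, l', rfl, t, ht, ht'⟩

theorem goodU (P : Par) (J : Type) : Good (relM P J) P :=
  ⟨goodU_sort P J, goodU_c P J, goodU_pw P J, goodU_t P J, goodU_q P J, goodU_r P J⟩

end Pool.Agent.Work.MP_ed0a9a_lc.V
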