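import Pool.Agent.Work.MP_ed0a9a_lc.V.Cat
import Pool.Agent.Work.MP_ed0a9a_lc.V.GoodUQ
import Pool.Agent.Work.MP_ed0a9a_lc.V.Form

/-!
# Module `Elem`: standard embeddings are elementary
-/

namespace Pool.Agent.Work.MP_ed0a9a_lc.V

open FirstOrder FirstOrder.Language Cardinal

theorem emb_std (P : Par) {I J : Type} (F : U P I ↪ₑ[sig (ari P.ar)] U P J) :
    ∃ (f : I → J) (hf : Function.Injective f), ∀ x, F x = uMap P f hf x := by
  classical
  have hR : ∀ s l, relM P J s (l.map F) ↔ relM P I s l := by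
    intro s l
    have := rel_of_embedding F.toEmbedding s l
    rw [HN_strU, HN_strU] at this
    exact this
  have hd : ∀ p, ∃ p', F (.d p) = .d p' := by
    intro p
    have h1 := (hR .SD [.d p]).2 (by simp [relM])
    rw [List.map_singleton] at h1
    exact inv_SD h1
  choose φ hφ using hd
  have hC : ∀ p m, φ p = Sum.inl m ↔ p = Sum.inl m := by
    intro p m
    have h1 : relM P J (.C m) [F (.d p)] ↔ relM P I (.C m) [.d p] := hR (.C m) [.d p]
    rw [hφ] at h1
    exact h1
  have hsome : ∀ i : I, ∃ j : J, φ (Sum.inr i) = Sum.inr j := by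
    intro i
    rcases h1 : φ (Sum.inr i) with m | j
    · have h2 := (hC _ _).1 h1
      cases h2
    · exact ⟨j, rfl⟩
  choose f hf0 using hsome
  have hφf : ∀ p, φ p = pm f p := by
    intro p
    cases p with
    | inl m => exact (hC _ _).2 rfl
    | inr i => exact hf0 i
  have hf : Function.Injective f := by
    intro i i' h
    have h2 : F (.d (Sum.inr i)) = F (.d (Sum.inr i')) := by
      rw [hφ, hφ, hf0, hf0, h]
    have h3 := F.injective h2
    injection h3 with h3
    injection h3 with h3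
  refine ⟨f, hf, ?_⟩
  -- the sorts `T k`
  have ht : ∀ k hk x z hz, F (.t k hk x z hz) =
      .t k hk (pm f ∘ x) (pm2 f z) (pm2_okZ f hz) := by
    intro k hk x z hz
    have h1 := (hR (.ST k) [.t k hk x z hz]).2 (by simp [relM])
    rw [List.map_singleton] at h1
    obtain ⟨hk', x', z', hz', hF⟩ := inv_ST h1
    have hx : x' = pm f ∘ x := by
      funext j
      have h2 := (hR (.P j.1) [.t k hk x z hz, .d (x j)]).2 (by
        simp only [relM]
        exact ⟨j.2, trivial⟩)
      rw [List.map_cons, List.map_singleton, hF, hφ, hφf] at h2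
      simp only [relM] at h2
      obtain ⟨_, h2⟩ := h2
      exact h2
    have hzz : pm2 f z = z' := by
      have h3 : ¬ (exv 3 (rl .Wt [3, 0] ⊓ (rl (.Wz false) [3, 1] ⊓ rl (.Wz true) [3, 2])) :
          Fo P.ar).Realize
          (fun n => if n = 0 then (U.t k hk x z hz : U P I) else
            if n = 1 then .d z.1 else .d z.2) := by
        rw [realize_exv]
        rintro ⟨w, hw⟩
        rw [Formula.realize_inf, Formula.realize_inf, realize_rl, realize_rl, realize_rl,
          HN_strU] at hw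
        obtain ⟨hw1, hw2, hw3⟩ := hw
        simp at hw1 hw2 hw3
        have h4 := (hz_iff P I k hk x z hz (.d z.1) (.d z.2)).2 ⟨rfl, rfl⟩
        exact h4.2.2.2 ⟨w, hw1, hw2, hw3⟩
      rw [← F.map_formula, realize_exv] at h3
      have h5 : V.hz (relM P J) k (.t k hk' x' z' hz') (.d (pm f z.1)) (.d (pm f z.2)) := by
        refine ⟨by simp [relM], by simp [relM], ?_, ?_⟩
        · intro ho
          show pm f z.1 = Sum.inl 0
          rw [hz ho]
          rfl
        · rintro ⟨w, hw1, hw2, hw3⟩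
          apply h3
          refine ⟨w, ?_⟩
          rw [Formula.realize_inf, Formula.realize_inf, realize_rl, realize_rl, realize_rl,
            HN_strU]
          refine ⟨?_, ?_, ?_⟩
          · simpa [hF] using hw1
          · simpa [hφ, hφf] using hw2
          · simpa [hφ, hφf] using hw3
      have h6 := (hz_iff P J k hk' x' z' hz' _ _).1 h5
      exact Prod.ext (d_inj h6.1) (d_inj h6.2)
    rw [hF]
    subst hx hzz
    rfl
  intro u
  rcases u with p | ⟨k, hk, x, z, hz⟩ | ⟨k, hk, x, z, z', hz, hz', hne⟩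
  · rw [hφ, hφf]
    rfl
  · rw [ht]
    rfl
  · have h1 := (hR .SW [.w k hk x z z' hz hz' hne]).2 (by simp [relM])
    rw [List.map_singleton] at h1
    obtain ⟨k2, hk2, x2, z2, z2', hz2, hz2', hne2, hF⟩ := inv_SW h1
    have h2 := (hR .Wt [.w k hk x z z' hz hz' hne, .t k hk x z hz]).2 (by simp [relM])
    rw [List.map_cons, List.map_singleton, hF, ht] at h2
    have h3 := (hR (.Wz false) [.w k hk x z z' hz hz' hne, .d z'.1]).2 (by simp [relM])
    rw [List.map_cons, List.map_singleton, hF, hφ, hφf] at h3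
    have h4 := (hR (.Wz true) [.w k hk x z z' hz hz' hne, .d z'.2]).2 (by simp [relM])
    rw [List.map_cons, List.map_singleton, hF, hφ, hφf] at h4
    simp only [relM] at h2 h3 h4
    obtain ⟨rfl, rfl, rfl⟩ := h2
    have h5 : z2' = pm2 f z' := Prod.ext h3 h4
    subst h5
    rw [hF]
    rfl

/-- Bijective maps preserve formulas. -/
private theorem realize_uMap (P : Par) {I J : Type} (f : I → J) (hf : Function.Injective f)
    (hs : Function.Surjective f) {β : Type} (ψ : (sig (ari P.ar)).Formula β) (v : β → U P I) :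
    ψ.Realize (uMap P f hf ∘ v) ↔ ψ.Realize v := by
  obtain ⟨F, hF⟩ := uEquiv P f hf hs
  have : uMap P f hf ∘ v = F ∘ v := by
    funext x
    exact (hF (v x)).symm
  rw [this]
  exact StrongHomClass.realize_formula F ψ

private theorem big (P : Par) (T : (sig (ari P.ar)).Theory)
    (hT : ∀ (N : Type) [Nonempty N] [S : (sig (ari P.ar)).Structure N], N ⊨ T →
      ∃ J : Type, Nonempty (U P J ≃[sig (ari P.ar)] N))
    (hU : ∀ J : Type, U P J ⊨ T) (I : Type) [Countable I] :
    ∃ J : Type, Cardinal.mk J = Cardinal.aleph 1 ∧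
      Nonempty (U P I ↪ₑ[sig (ari P.ar)] U P J) := by
  have h0 : ℵ₀ ≤ Cardinal.aleph 1 := Cardinal.aleph0_le_aleph 1
  obtain ⟨N, ⟨F⟩, hN⟩ := exists_elementaryEmbedding_card_eq_of_ge (sig (ari P.ar)) (U P I)
    (Cardinal.aleph 1 : Cardinal.{0})
    (by
      rw [Cardinal.lift_id, Cardinal.lift_id]
      exact (card_sig _).trans h0)
    (by
      rw [Cardinal.lift_id, Cardinal.lift_id]
      exact (Cardinal.mk_le_aleph0_iff.2 inferInstance).trans h0)
  have hNT : N ⊨ T := (F.elementarilyEquivalent.theory_model_iff).1 (hU I)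
  have : Nonempty N := ⟨F (.d (Sum.inl 0))⟩
  obtain ⟨J, ⟨G⟩⟩ := hT N hNT
  have hUJ : Cardinal.mk (U P J) = Cardinal.aleph 1 := by
    rw [← hN]
    exact Cardinal.mk_congr G.toEquiv
  have hJinf : Infinite J := by
    by_contra hfin
    rw [not_infinite_iff_finite] at hfin
    have h1 : Cardinal.mk (U P J) ≤ ℵ₀ := Cardinal.mk_le_aleph0_iff.2 inferInstance
    rw [hUJ] at h1
    exact absurd h1 (not_le.2 Cardinal.aleph0_lt_aleph_one)
  refine ⟨J, ?_, ⟨G.symm.toElementaryEmbedding.comp F⟩⟩
  rw [← card_U P J, hUJ]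

/-- Two injections of a countable type into an uncountable one differ by a permutation. -/
private theorem exists_perm {I J : Type} [Countable I] (hJ : Cardinal.mk J = Cardinal.aleph 1)
    (f g : I → J) (hf : Function.Injective f) (hg : Function.Injective g) :
    ∃ σ : J ≃ J, ∀ i, σ (f i) = g i := by
  classical
  have hinf : Infinite J := by
    rw [Cardinal.infinite_iff, hJ]
    exact Cardinal.aleph0_le_aleph 1
  have hlt : ∀ h : I → J, Cardinal.mk (Set.range h) < Cardinal.mk J := by
    intro h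
    rw [hJ]
    refine lt_of_le_of_lt ?_ Cardinal.aleph0_lt_aleph_one
    exact Cardinal.mk_le_aleph0_iff.2 (Set.countable_range h).to_subtype
  have hc : Cardinal.mk ((Set.range f)ᶜ : Set J) = Cardinal.mk ((Set.range g)ᶜ : Set J) := by
    rw [Cardinal.mk_compl_of_infinite _ (hlt f), Cardinal.mk_compl_of_infinite _ (hlt g)]
  obtain ⟨e2⟩ := Cardinal.eq.1 hc
  let e1 : Set.range f ≃ Set.range g := (Equiv.ofInjective f hf).symm.trans (Equiv.ofInjective g hg)
  refine ⟨(Equiv.Set.sumCompl (Set.range f)).symm.trans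
    ((Equiv.sumCongr e1 e2).trans (Equiv.Set.sumCompl (Set.range g))), fun i => ?_⟩
  have hmem : f i ∈ Set.range f := ⟨i, rfl⟩
  rw [Equiv.trans_apply, Equiv.Set.sumCompl_symm_apply_of_mem hmem, Equiv.trans_apply,
    Equiv.sumCongr_apply, Sum.map_inl, Equiv.Set.sumCompl_apply_inl]
  simp only [e1, Equiv.trans_apply]
  rw [Equiv.ofInjective_symm_apply]
  rfl

theorem std_elem (P : Par) (T : (sig (ari P.ar)).Theory)
    (hT : ∀ (N : Type) [Nonempty N] [S : (sig (ari P.ar)).Structure N], N ⊨ T →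
      ∃ J : Type, Nonempty (U P J ≃[sig (ari P.ar)] N))
    (hU : ∀ J : Type, U P J ⊨ T) {I J : Type} [Countable J] (f : I → J)
    (hf : Function.Injective f) : Nonempty (U P I ↪ₑ[sig (ari P.ar)] U P J) := by
  have : Countable I := hf.countable
  obtain ⟨J1, hJ1, ⟨F1⟩⟩ := big P T hT hU J
  obtain ⟨J2, hJ2, ⟨F2⟩⟩ := big P T hT hU I
  obtain ⟨e⟩ := Cardinal.eq.1 (hJ2.trans hJ1.symm)
  obtain ⟨E⟩ := std_equiv P e
  obtain ⟨h, hh, hF1⟩ := emb_std P F1
  obtain ⟨f', hf', hF2⟩ := emb_std P (E.toElementaryEmbedding.comp F2)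
  obtain ⟨σ, hσ⟩ := exists_perm hJ1 f' (h ∘ f) hf' (hh.comp hf)
  have H1 : ∀ (n : ℕ) (ψ : (sig (ari P.ar)).Formula (Fin n)) (y : Fin n → U P J),
      ψ.Realize (uMap P h hh ∘ y) ↔ ψ.Realize y := by
    intro n ψ y
    rw [← F1.map_formula ψ y]
    have : F1 ∘ y = uMap P h hh ∘ y := by
      funext t
      exact hF1 _
    rw [this]
  have H2 : ∀ (n : ℕ) (ψ : (sig (ari P.ar)).Formula (Fin n)) (y : Fin n → U P I),
      ψ.Realize (uMap P f' hf' ∘ y) ↔ ψ.Realize y := by
    intro n ψ y
    rw [← (E.toElementaryEmbedding.comp F2).map_formula ψ y]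
    have : (E.toElementaryEmbedding.comp F2) ∘ y = uMap P f' hf' ∘ y := by
      funext t
      exact hF2 _
    rw [this]
  have hcomp : ∀ x, uMap P σ σ.injective (uMap P f' hf' x) = uMap P h hh (uMap P f hf x) := by
    intro x
    have h1 : (σ ∘ f' : I → J1) = h ∘ f := by
      funext i
      exact hσ i
    have a1 := uMap_comp P f' σ hf' σ.injective x
    have a2 := uMap_comp P f h hf hh x
    rw [← a1, ← a2]
    congr 1
  refine ⟨⟨uMap P f hf, ?_⟩⟩
  intro n ψ x
  have a := H1 n ψ (uMap P f hf ∘ x)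
  have b := realize_uMap P σ σ.injective σ.surjective ψ (uMap P f' hf' ∘ x)
  have : uMap P h hh ∘ uMap P f hf ∘ x = uMap P σ σ.injective ∘ (uMap P f' hf' ∘ x) := by
    funext t
    exact (hcomp _).symm
  rw [this] at a
  exact a.symm.trans (b.trans (H2 n ψ x))

/-- Elementary embeddability between the countable models. -/
theorem elem_iff (P : Par) (T : (sig (ari P.ar)).Theory)
    (hT : ∀ (N : Type) [Nonempty N] [S : (sig (ari P.ar)).Structure N], N ⊨ T →
      ∃ J : Type, Nonempty (U P J ≃[sig (ari P.ar)] N))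
    (hU : ∀ J : Type, U P J ⊨ T) (i j : ℕ∞) :
    Nonempty (U P (Jt i) ↪ₑ[sig (ari P.ar)] U P (Jt j)) ↔ i ≤ j := by
  constructor
  · rintro ⟨F⟩
    obtain ⟨f, hf, -⟩ := emb_std P F
    by_contra hij
    have hji : j < i := not_le.1 hij
    obtain ⟨m, rfl⟩ := ENat.ne_top_iff_exists.1 (ne_top_of_lt hji)
    have hlt : ∀ r : Fin (m + 1), ((r.1 : ℕ) : ℕ∞) < i := by
      intro r
      refine lt_of_le_of_lt ?_ hji
      exact_mod_cast Nat.lt_succ_iff.1 r.2
    have h1 : Function.Injective (fun r : Fin (m + 1) =>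
        (⟨(f ⟨r.1, hlt r⟩).1, by exact_mod_cast (f ⟨r.1, hlt r⟩).2⟩ : Fin m)) := by
      intro r r' h
      have h2 := congrArg Fin.val h
      simp only at h2
      have h3 := hf (Subtype.ext h2)
      exact Fin.ext (congrArg Subtype.val h3)
    have := Fintype.card_le_of_injective _ h1
    simp at this
  · intro hij
    refine std_elem P T hT hU (fun r : Jt i => (⟨r.1, lt_of_lt_of_le r.2 hij⟩ : Jt j)) ?_
    intro r r' h
    have h1 := congrArg Subtype.val h
    exact Subtype.ext h1

/-- Every countable type is in bijection with some `Jt i`. -/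
theorem exists_Jt (J : Type) [Countable J] : ∃ i : ℕ∞, Nonempty (J ≃ Jt i) := by
  rcases finite_or_infinite J with hfin | hinf
  · obtain ⟨n, ⟨e⟩⟩ := Finite.exists_equiv_fin J
    refine ⟨n, ⟨e.trans ?_⟩⟩
    exact {
      toFun := fun r => ⟨r.1, by exact_mod_cast r.2⟩
      invFun := fun r => ⟨r.1, by exact_mod_cast r.2⟩
      left_inv := fun r => rfl
      right_inv := fun r => rfl }
  · obtain ⟨d⟩ := nonempty_denumerable J
    refine ⟨⊤, ⟨(Denumerable.eqv J).trans ?_⟩⟩
    exact {
      toFun := fun r => ⟨r, ENat.natCast_lt_top r⟩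
      invFun := fun r => r.1
      left_inv := fun r => rfl
      right_inv := fun r => rfl }

end Pool.Agent.Work.MP_ed0a9a_lc.V
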