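import Pool.Agent.Work.MP_ed0a9a_lc.V.AxKit

/-!
# Module `AxC`: the axioms `GC` are first order
-/

namespace Pool.Agent.Work.MP_ed0a9a_lc.V

open FirstOrder FirstOrder.Language

theorem axb_c (ar : ℕ → ℕ) : Axb ar (fun N H => GC H) := by
  have h1 : Axb ar (fun N H => ∀ m, ∀ x : N, H (.C m) [x] → H .SD [x]) :=
    Axb.all fun m => Axb.of1 ((Dfb.rel1 (.C m) 0).imp (Dfb.rel1 .SD 0))
  have h2 : Axb ar (fun N H => ∀ m, ∃ x : N, H (.C m) [x]) :=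
    Axb.all fun m => Axb.of0 (Dfb.ex' 0 (Dfb.rel1 (.C m) 0) fun _ _ _ => Iff.rfl)
  have h3 : Axb ar (fun N H => ∀ m, ∀ x y : N, H (.C m) [x] → H (.C m) [y] → x = y) :=
    Axb.all fun m => Axb.of2 ((Dfb.rel1 (.C m) 0).imp ((Dfb.rel1 (.C m) 1).imp (Dfb.eq 0 1)))
  have h4 : Axb ar (fun N H => ∀ m m', m ≠ m' → ∀ x : N, H (.C m) [x] → ¬ H (.C m') [x]) :=
    Axb.all fun m => Axb.all fun m' => Axb.allProp fun _ =>
      Axb.of1 ((Dfb.rel1 (.C m) 0).imp (Dfb.rel1 (.C m') 0).not)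
  refine (h1.and (h2.and (h3.and h4))).congr fun N _ S => ?_
  constructor
  · rintro ⟨a1, a2, a3, a4⟩
    exact ⟨a1, a2, a3, a4⟩
  · rintro ⟨a1, a2, a3, a4⟩
    exact ⟨a1, a2, a3, a4⟩

end Pool.Agent.Work.MP_ed0a9a_lc.V
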