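import Pool.Agent.Work.MP_ed0a9a_lc.V.AxKit

/-!
# Module `AxPW`: the axioms `GPW` are first order
-/

namespace Pool.Agent.Work.MP_ed0a9a_lc.V

open FirstOrder FirstOrder.Language

private theorem axPW_T (P : Par) (x : ℕ) :
    Dfb P.ar (fun N H v => ∃ k ∈ P.F, H (.ST k) [v x]) := Dfb.exF fun k => Dfb.rel1 (.ST k) x

/-- quantification over five elements -/
private theorem axPW_of5 {ar : ℕ → ℕ} {C : ∀ N : Type, (Sym → List N → Prop) → N → N → N → N → N → Prop}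
    (h : Dfb ar (fun N H v => C N H (v 0) (v 1) (v 2) (v 3) (v 4))) :
    Axb ar (fun N H => ∀ x y z w u, C N H x y z w u) :=
  h.axb.congr fun N _ S => ⟨fun h x y z w u => h (fun n => if n = 0 then x else if n = 1 then y else
    if n = 2 then z else if n = 3 then w else u), fun h v => h (v 0) (v 1) (v 2) (v 3) (v 4)⟩

theorem axb_pw (P : Par) : Axb P.ar (fun N H => GPW H P) := by
  have h1 : Axb P.ar (fun N H => ∀ j, ∀ τ x : N, H (.P j) [τ, x] →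
      (∃ k ∈ P.F, H (.ST k) [τ]) ∧ H .SD [x]) :=
    Axb.all fun j => Axb.of2 ((Dfb.rel2 (.P j) 0 1).imp ((axPW_T P 0).and (Dfb.rel1 .SD 1)))
  have h2 : Axb P.ar (fun N H => ∀ j, P.K < j → ∀ τ x : N, ¬ H (.P j) [τ, x]) :=
    Axb.all fun j => Axb.allProp fun _ => Axb.of2 (Dfb.rel2 (.P j) 0 1).not
  have h3 : Axb P.ar (fun N H => ∀ j, j ≤ P.K → ∀ τ : N, (∃ k ∈ P.F, H (.ST k) [τ]) →
      ∃ x, H (.P j) [τ, x]) :=
    Axb.all fun j => Axb.allProp fun _ => Axb.of1 ((axPW_T P 0).imp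
      (Dfb.ex' 1 (Dfb.rel2 (.P j) 0 1) fun _ _ _ => Iff.rfl))
  have h4 : Axb P.ar (fun N H => ∀ j, ∀ τ x x' : N, H (.P j) [τ, x] → H (.P j) [τ, x'] → x = x') :=
    Axb.all fun j => Axb.of3 ((Dfb.rel2 (.P j) 0 1).imp ((Dfb.rel2 (.P j) 0 2).imp (Dfb.eq 1 2)))
  have h5 : Axb P.ar (fun N H => ∀ w τ : N, H .Wt [w, τ] → H .SW [w] ∧ ∃ k ∈ P.F, H (.ST k) [τ]) :=
    Axb.of2 ((Dfb.rel2 .Wt 0 1).imp ((Dfb.rel1 .SW 0).and (axPW_T P 1)))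
  have h6 : Axb P.ar (fun N H => ∀ w : N, H .SW [w] → ∃ τ, H .Wt [w, τ]) :=
    Axb.of1 ((Dfb.rel1 .SW 0).imp (Dfb.ex' 1 (Dfb.rel2 .Wt 0 1) fun _ _ _ => Iff.rfl))
  have h7 : Axb P.ar (fun N H => ∀ w τ τ' : N, H .Wt [w, τ] → H .Wt [w, τ'] → τ = τ') :=
    Axb.of3 ((Dfb.rel2 .Wt 0 1).imp ((Dfb.rel2 .Wt 0 2).imp (Dfb.eq 1 2)))
  have h8 : Axb P.ar (fun N H => ∀ b : Bool, ∀ w z : N, H (.Wz b) [w, z] → H .SW [w] ∧ H .SD [z]) :=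
    Axb.all fun b => Axb.of2 ((Dfb.rel2 (.Wz b) 0 1).imp ((Dfb.rel1 .SW 0).and (Dfb.rel1 .SD 1)))
  have h9 : Axb P.ar (fun N H => ∀ b : Bool, ∀ w : N, H .SW [w] → ∃ z, H (.Wz b) [w, z]) :=
    Axb.all fun b => Axb.of1 ((Dfb.rel1 .SW 0).imp
      (Dfb.ex' 1 (Dfb.rel2 (.Wz b) 0 1) fun _ _ _ => Iff.rfl))
  have h10 : Axb P.ar (fun N H => ∀ b : Bool, ∀ w z z' : N, H (.Wz b) [w, z] → H (.Wz b) [w, z'] →
      z = z') :=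
    Axb.all fun b => Axb.of3 ((Dfb.rel2 (.Wz b) 0 1).imp ((Dfb.rel2 (.Wz b) 0 2).imp (Dfb.eq 1 2)))
  have h11 : Axb P.ar (fun N H => ∀ κ, κ ∈ P.F → κ % 2 = 1 → ∀ w τ z : N, H (.ST κ) [τ] →
      H .Wt [w, τ] → H (.Wz false) [w, z] → H (.C 0) [z]) :=
    Axb.all fun κ => Axb.allProp fun _ => Axb.allProp fun _ => Axb.of3 ((Dfb.rel1 (.ST κ) 1).imp
      ((Dfb.rel2 .Wt 0 1).imp ((Dfb.rel2 (.Wz false) 0 2).imp (Dfb.rel1 (.C 0) 2))))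
  have h12 : Axb P.ar (fun N H => ∀ w w' τ z₁ z₂ : N, H .Wt [w, τ] → H (.Wz false) [w, z₁] →
      H (.Wz true) [w, z₂] → H .Wt [w', τ] → H (.Wz false) [w', z₁] → H (.Wz true) [w', z₂] →
      w = w') :=
    axPW_of5 ((Dfb.rel2 .Wt 0 2).imp ((Dfb.rel2 (.Wz false) 0 3).imp ((Dfb.rel2 (.Wz true) 0 4).imp
      ((Dfb.rel2 .Wt 1 2).imp ((Dfb.rel2 (.Wz false) 1 3).imp ((Dfb.rel2 (.Wz true) 1 4).imp
        (Dfb.eq 0 1)))))))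
  refine (h1.and (h2.and (h3.and (h4.and (h5.and (h6.and (h7.and (h8.and (h9.and
    (h10.and (h11.and h12))))))))))).congr fun N _ S => ?_
  constructor
  · rintro ⟨a1, a2, a3, a4, a5, a6, a7, a8, a9, a10, a11, a12⟩
    exact ⟨a1, a2, a3, a4, a5, a6, a7, a8, a9, a10, a11, a12⟩
  · rintro ⟨a1, a2, a3, a4, a5, a6, a7, a8, a9, a10, a11, a12⟩
    exact ⟨a1, a2, a3, a4, a5, a6, a7, a8, a9, a10, a11, a12⟩

end Pool.Agent.Work.MP_ed0a9a_lc.V
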