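import Pool.Agent.Work.MP_ed0a9a_lc.V.Defs
import Pool.Agent.Work.MP_ed0a9a_lc.Lvl

/-!
# Module `Lvl`: the level `lvl`, `lvH`

`le_lv_iff`, `lv_congr` are in the old `Lvl`.
-/

namespace Pool.Agent.Work.MP_ed0a9a_lc.V

theorem LG_zero {J : Type} (l : List (Pt J)) : LG l 0 :=
  ⟨fun h => absurd h (lt_irrefl 0), fun _ _ _ _ => Nat.zero_le _⟩

theorem LG_anti {J : Type} (l : List (Pt J)) (c d : ℕ) (h : c ≤ d) (hd : LG l d) : LG l c :=
  ⟨fun h' => hd.1 (lt_of_lt_of_le h' h), fun p hp m hm => h.trans (hd.2 p hp m hm)⟩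

theorem le_lvl_iff {J : Type} (l : List (Pt J)) (c : ℕ) : (c : ℕ∞) ≤ lvl l ↔ LG l c :=
  le_lv_iff _ (LG_zero l) (LG_anti l) c

theorem le_lvH_iff {N : Type} (H : Sym → List N → Prop) (l : List N) (c : ℕ) :
    (c : ℕ∞) ≤ lvH H l ↔ LGH H l c := by
  unfold lvH
  apply le_lv_iff
  · exact ⟨fun h => absurd h (lt_irrefl 0), fun _ _ m hm => absurd hm (Nat.not_lt_zero m)⟩
  · intro c d hcd h
    exact ⟨fun h' => h.1 (lt_of_lt_of_le h' hcd), fun x hx m hm => h.2 x hx m (by omega)⟩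

theorem lvl_eq_top_iff {J : Type} (l : List (Pt J)) :
    lvl l = ⊤ ↔ l.Nodup ∧ ∀ p ∈ l, ∀ m, p ≠ Sum.inl m := by
  constructor
  · intro h
    have h1 : ∀ c, LG l c := fun c => (le_lvl_iff l c).1 (by rw [h]; exact le_top)
    refine ⟨(h1 1).1 one_pos, fun p hp m hm => ?_⟩
    have := (h1 (m + 1)).2 p hp m hm
    omega
  · rintro ⟨h1, h2⟩
    rw [ENat.eq_top_iff_forall_ge]
    intro c
    rw [le_lvl_iff]
    exact ⟨fun _ => h1, fun p hp m hm => absurd hm (h2 p hp m)⟩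

theorem lvl_map {I J : Type} (φ : Pt I → Pt J) (hφ : Function.Injective φ)
    (h : ∀ p m, φ p = Sum.inl m ↔ p = Sum.inl m) (l : List (Pt I)) :
    lvl (l.map φ) = lvl l := by
  unfold lvl
  apply lv_congr
  intro c
  unfold LG
  rw [List.nodup_map_iff hφ]
  refine and_congr Iff.rfl ?_
  constructor
  · intro h1 p hp m hm
    exact h1 (φ p) (List.mem_map_of_mem hp) m ((h p m).2 hm)
  · intro h1 p hp m hm
    rw [List.mem_map] at hp
    obtain ⟨p', hp', rfl⟩ := hp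
    exact h1 p' hp' m ((h p' m).1 hm)

theorem Par.mskI_top (P : Par) (q : ℕ) : P.mskI q ⊤ = P.lim q := by
  unfold Par.mskI
  rw [if_pos rfl]

theorem Par.mskI_coe (P : Par) (q t : ℕ) : P.mskI q (t : ℕ∞) = P.msk q t := by
  unfold Par.mskI
  rw [if_neg (ENat.natCast_ne_top t), ENat.toNat_natCast]

/-- The limit is attained from some time on. -/
theorem Par.lim_spec (P : Par) (q : ℕ) : ∃ t₀, ∀ t, t₀ ≤ t → P.msk q t = P.lim q :=
  ⟨Classical.choose (P.msk_lim q), fun t ht => Classical.choose_spec (P.msk_lim q) t ht⟩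

theorem Par.mskI_bit (P : Par) (q : ℕ) (N : ℕ∞) (n : ℕ)
    (h : (P.mskI q N).testBit n = true) : (Nat.unpair n).2 = q := by
  unfold Par.mskI at h
  split_ifs at h
  · exact P.msk_bit _ _ _ h
  · exact P.msk_bit _ _ _ h

theorem missP_ev (P : Par) (n : ℕ) :
    ∃ c : ℕ, ∀ N : ℕ∞, (c : ℕ∞) ≤ N → (missP P n N ↔ missP P n ⊤) := by
  obtain ⟨c, hc⟩ := P.lim_spec (Nat.unpair n).2
  refine ⟨c, fun N hN => ?_⟩
  unfold missP
  rw [P.mskI_top]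
  induction N using ENat.recTopCoe with
  | top => rw [P.mskI_top]
  | coe t =>
    rw [P.mskI_coe, hc t (by exact_mod_cast hN)]

theorem kb_ev (P : Par) (e j : ℕ) :
    ∃ c : ℕ, ∀ N : ℕ∞, (c : ℕ∞) ≤ N →
      ((∃ t : ℕ, P.kb e j t = true ∧ (t : ℕ∞) ≤ N) ↔
        (∃ t : ℕ, P.kb e j t = true ∧ (t : ℕ∞) ≤ (⊤ : ℕ∞))) := by
  by_cases h : ∃ t, P.kb e j t = true
  · obtain ⟨t, ht⟩ := h
    refine ⟨t, fun N hN => ⟨fun _ => ⟨t, ht, le_top⟩, fun _ => ⟨t, ht, hN⟩⟩⟩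
  · refine ⟨0, fun N _ => ⟨?_, ?_⟩⟩
    · rintro ⟨t, ht, _⟩
      exact absurd ⟨t, ht⟩ h
    · rintro ⟨t, ht, _⟩
      exact absurd ⟨t, ht⟩ h

end Pool.Agent.Work.MP_ed0a9a_lc.V
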