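import Pool.Agent.Work.MP_ed0a9a_lc.V.AxKit
import Pool.Agent.Work.MP_ed0a9a_lc.V.Lvl

/-!
# Module `AxLvl`: formulas for the level
-/

namespace Pool.Agent.Work.MP_ed0a9a_lc.V

open FirstOrder FirstOrder.Language

variable {ar : ℕ → ℕ}

private theorem axLvl_nodup (l : List ℕ) : Dfb ar (fun N H v => (l.map v).Nodup) := by
  induction l with
  | nil => exact Dfb.tru.congr fun N S v => ⟨fun _ => List.nodup_nil, fun _ => trivial⟩
  | cons a l ih =>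
    have h1 : Dfb ar (fun N H v => ∀ b : {b // b ∈ l}, ¬ v a = v b.1) :=
      Dfb.fin fun b => (Dfb.eq a b.1).not
    refine (h1.and ih).congr fun N S v => ?_
    rw [List.map_cons, List.nodup_cons]
    refine and_congr ?_ Iff.rfl
    rw [List.mem_map]
    constructor
    · rintro h ⟨b, hb, he⟩
      exact h ⟨b, hb⟩ he.symm
    · intro h b hb
      exact h ⟨b.1, b.2, hb.symm⟩

private theorem axLvl_LGH (l : List ℕ) (c : ℕ) : Dfb ar (fun N H v => LGH H (l.map v) c) := by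
  have h1 : Dfb ar (fun N H v => ∀ b : {b // b ∈ l}, ∀ m : Fin c, ¬ H (.C m) [v b.1]) :=
    Dfb.fin fun b => Dfb.fin fun m => (Dfb.rel1 (.C m) b.1).not
  refine (((Dfb.prp (0 < c)).imp (axLvl_nodup l)).and h1).congr fun N S v => ?_
  unfold LGH
  refine and_congr Iff.rfl ?_
  rw [List.forall_mem_map]
  constructor
  · intro h b hb m hm
    exact h ⟨b, hb⟩ ⟨m, hm⟩
  · intro h b m
    exact h b.1 b.2 m.1 m.2

private theorem axLvl_cases (A : ℕ∞ → Prop) {c : ℕ} (hc : ∀ N : ℕ∞, (c : ℕ∞) ≤ N → (A N ↔ A ⊤))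
    (L : ℕ∞) : ((c : ℕ∞) ≤ L ∧ A ⊤) ∨ (∃ m : Fin c, A ((m.1 : ℕ) : ℕ∞) ∧ ((m.1 : ℕ) : ℕ∞) ≤ L ∧
      ¬ ((m.1 + 1 : ℕ) : ℕ∞) ≤ L) ↔ A L := by
  constructor
  · rintro (⟨h1, h2⟩ | ⟨m, h1, h2, h3⟩)
    · exact (hc L h1).2 h2
    · have h4 : L ≠ ⊤ := by
        rintro rfl
        exact h3 le_top
      lift L to ℕ using h4
      have h5 : m.1 ≤ L := by exact_mod_cast h2
      have h6 : ¬ m.1 + 1 ≤ L := by exact_mod_cast h3
      have h7 : m.1 = L := by omega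
      rwa [h7] at h1
  · intro h
    by_cases h1 : (c : ℕ∞) ≤ L
    · exact Or.inl ⟨h1, (hc L h1).1 h⟩
    · right
      have h4 : L ≠ ⊤ := by
        rintro rfl
        exact h1 le_top
      lift L to ℕ using h4
      have h5 : ¬ c ≤ L := by exact_mod_cast h1
      refine ⟨⟨L, by omega⟩, h, le_rfl, ?_⟩
      have : ¬ L + 1 ≤ L := by omega
      exact_mod_cast this

theorem dfb_lvl (l : List ℕ) (A : ℕ∞ → Prop)
    (hA : ∃ c : ℕ, ∀ N : ℕ∞, (c : ℕ∞) ≤ N → (A N ↔ A ⊤)) :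
    Dfb ar (fun N H v => A (lvH H (l.map v))) := by
  obtain ⟨c, hc⟩ := hA
  refine (((axLvl_LGH l c).and (Dfb.prp (A ⊤))).or (Dfb.exf fun m : Fin c =>
    (Dfb.prp (A ((m.1 : ℕ) : ℕ∞))).and ((axLvl_LGH l m.1).and (axLvl_LGH l (m.1 + 1)).not))).congr
    fun N S v => ?_
  simp only [← le_lvH_iff]
  exact axLvl_cases A hc _

end Pool.Agent.Work.MP_ed0a9a_lc.V
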