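import Pool.Agent.Work.MP_ed0a9a_lc.V.AxT
import Pool.Agent.Work.MP_ed0a9a_lc.V.AxLvl

/-!
# Module `AxQ`: the axioms `GQ` are first order

For fixed `n` a single formula with variables `0 = τ`, `1 = τ'`, `2 = z₁`, `3 = z₂`, `4 = d'`,
`5 + j = x_j`.
-/

namespace Pool.Agent.Work.MP_ed0a9a_lc.V

open FirstOrder FirstOrder.Language

variable {ar : ℕ → ℕ}

private theorem axQ_nm (K k a z : ℕ) :
    Dfb ar (fun N H v => nmH H (K := K) k (fun j => v (j.1 + 5)) a (v z)) := by
  unfold nmH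
  by_cases h : a < k ∧ a < K + 1
  · refine (Dfb.eq (a + 5) z).congr fun N S v => ?_
    rw [dif_pos h]
  · refine (Dfb.rel1 (.C (a - k)) z).congr fun N S v => ?_
    rw [dif_neg h]

private theorem axQ_miss (P : Par) (κ n : ℕ) :
    Dfb P.ar (fun N H v => missH H P κ n (fun j => v (j.1 + 5)) (v 2) (v 3)) := by
  have h1 : Dfb P.ar (fun N H v => missP P n (lvH H
      (((List.ofFn fun j : Fin (P.K + 1) => j.1 + 5).take (κ / 2)).map v))) :=
    dfb_lvl _ (missP P n) (missP_ev P n)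
  have h2 : Dfb P.ar (fun N H v => if κ % 2 = 1 then
      H (.C 0) [v 2] ∧ nmH H (K := P.K) (κ / 2) (fun j => v (j.1 + 5)) (Nat.unpair n).2 (v 3)
    else nmH H (K := P.K) (κ / 2) (fun j => v (j.1 + 5)) (Nat.unpair (Nat.unpair n).2).1 (v 2) ∧
      nmH H (K := P.K) (κ / 2) (fun j => v (j.1 + 5)) (Nat.unpair (Nat.unpair n).2).2 (v 3)) := by
    by_cases h : κ % 2 = 1
    · simp only [h, if_true]
      exact (Dfb.rel1 (.C 0) 2).and (axQ_nm _ _ _ _)
    · simp only [h, if_false]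
      exact (axQ_nm _ _ _ _).and (axQ_nm _ _ _ _)
  refine (h2.and h1).congr fun N S v => ?_
  unfold missH
  have h3 : List.ofFn (fun j : Fin (P.K + 1) => v (j.1 + 5)) =
      (List.ofFn fun j : Fin (P.K + 1) => j.1 + 5).map v := by
    rw [List.map_ofFn]
    rfl
  rw [h3, ← List.map_take]

private theorem axQ_core (P : Par) (κ n : ℕ) : Dfb P.ar (fun N H v =>
    ∃ (x : Fin (P.K + 1) → N) (d' z₁ z₂ : N),
    H (.ST κ) [v 0] ∧ H (.ST κ) [v 1] ∧ (∀ j : Fin (P.K + 1), H (.P j) [v 0, x j]) ∧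
    (∀ j : Fin (P.K + 1), j.1 < P.K → H (.P j) [v 1, x j]) ∧ H (.P P.K) [v 1, d'] ∧
    H (.C 0) [x (Fin.last P.K)] ∧ H (.C (n + 1)) [d'] ∧ hz H κ (v 0) z₁ z₂ ∧ hz H κ (v 1) z₁ z₂ ∧
    ¬ missH H P κ n x z₁ z₂) := by
  have h0 : Dfb P.ar (fun N H v =>
      H (.ST κ) [v 0] ∧ H (.ST κ) [v 1] ∧ (∀ j : Fin (P.K + 1), H (.P j) [v 0, v (j.1 + 5)]) ∧
      (∀ j : Fin (P.K + 1), j.1 < P.K → H (.P j) [v 1, v (j.1 + 5)]) ∧ H (.P P.K) [v 1, v 4] ∧
      H (.C 0) [v ((Fin.last P.K).1 + 5)] ∧ H (.C (n + 1)) [v 4] ∧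
      hz H κ (v 0) (v 2) (v 3) ∧ hz H κ (v 1) (v 2) (v 3) ∧
      ¬ missH H P κ n (fun j => v (j.1 + 5)) (v 2) (v 3)) := by
    refine (Dfb.rel1 _ 0).and ((Dfb.rel1 _ 1).and ((Dfb.fin fun j => Dfb.rel2 _ 0 _).and
      ((Dfb.fin fun j => (Dfb.prp _).imp (Dfb.rel2 _ 1 _)).and ((Dfb.rel2 _ 1 4).and
      ((Dfb.rel1 _ _).and ((Dfb.rel1 _ 4).and
      ((dfb_hz κ 0 2 3 4 (by decide) (by decide) (by decide)).and
      ((dfb_hz κ 1 2 3 4 (by decide) (by decide) (by decide)).and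
      (axQ_miss P κ n).not))))))))
  have h1 := Dfb.exT (P.K + 1) 5 (Dfb.ex 4 (Dfb.ex 2 (Dfb.ex 3 h0)))
  refine h1.congr fun N S v => ?_
  refine exists_congr fun x => exists_congr fun d' => exists_congr fun z => exists_congr fun o => ?_
  have hx : ∀ j : Fin (P.K + 1), (Function.update (Function.update (Function.update
      (fun i => if hi : 5 ≤ i ∧ i - 5 < P.K + 1 then x ⟨i - 5, hi.2⟩ else v i) 4 d') 2 z) 3 o)
      (j.1 + 5) = x j := by
    intro j
    rw [Function.update_of_ne (by omega), Function.update_of_ne (by omega),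
      Function.update_of_ne (by omega)]
    have hj : 5 ≤ j.1 + 5 ∧ j.1 + 5 - 5 < P.K + 1 := ⟨by omega, by have := j.2; omega⟩
    refine (dif_pos hj).trans (congrArg x (Fin.ext ?_))
    show j.1 + 5 - 5 = j.1
    omega
  have e0 : (Function.update (Function.update (Function.update
      (fun i => if hi : 5 ≤ i ∧ i - 5 < P.K + 1 then x ⟨i - 5, hi.2⟩ else v i) 4 d') 2 z) 3 o) 0 =
      v 0 := by
    rw [Function.update_of_ne (by omega), Function.update_of_ne (by omega),
      Function.update_of_ne (by omega), dif_neg (by omega)]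
  have e1 : (Function.update (Function.update (Function.update
      (fun i => if hi : 5 ≤ i ∧ i - 5 < P.K + 1 then x ⟨i - 5, hi.2⟩ else v i) 4 d') 2 z) 3 o) 1 =
      v 1 := by
    rw [Function.update_of_ne (by omega), Function.update_of_ne (by omega),
      Function.update_of_ne (by omega), dif_neg (by omega)]
  have e2 : (Function.update (Function.update (Function.update
      (fun i => if hi : 5 ≤ i ∧ i - 5 < P.K + 1 then x ⟨i - 5, hi.2⟩ else v i) 4 d') 2 z) 3 o) 2 =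
      z := by
    rw [Function.update_of_ne (by omega), Function.update_self]
  have e3 : (Function.update (Function.update (Function.update
      (fun i => if hi : 5 ≤ i ∧ i - 5 < P.K + 1 then x ⟨i - 5, hi.2⟩ else v i) 4 d') 2 z) 3 o) 3 =
      o := by
    rw [Function.update_self]
  have e4 : (Function.update (Function.update (Function.update
      (fun i => if hi : 5 ≤ i ∧ i - 5 < P.K + 1 then x ⟨i - 5, hi.2⟩ else v i) 4 d') 2 z) 3 o) 4 =
      d' := by
    rw [Function.update_of_ne (by omega), Function.update_of_ne (by omega), Function.update_self]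
  simp only [hx, e0, e1, e2, e3, e4]

theorem axb_q (P : Par) : Axb P.ar (fun N H => GQ H P) :=
  Axb.all fun n => Axb.of2 ((Dfb.rel2 (.Q n) 0 1).iff (Dfb.exF fun κ => axQ_core P κ n))

end Pool.Agent.Work.MP_ed0a9a_lc.V
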