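import Pool.Agent.Work.MP_ed0a9a_lc.V.AxLvl

/-!
# Module `AxR`: the axioms `GR` are first order
-/

namespace Pool.Agent.Work.MP_ed0a9a_lc.V

open FirstOrder FirstOrder.Language

private theorem axR_surj {N : Type} [Nonempty N] (n : ℕ) (l : List N) (hl : l.length = n) :
    (List.range n).map (fun m => l.getD m (Classical.arbitrary N)) = l := by
  apply List.ext_getElem
  · rw [List.length_map, List.length_range, hl]
  · intro i h1 h2
    rw [List.getElem_map, List.getElem_range, List.getD_eq_getElem _ _ h2]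

theorem axb_r (P : Par) : Axb P.ar (fun N H => GR H P) := by
  have key : ∀ e j, Axb P.ar (fun N H => ∀ l : List N, l.length = P.ar e →
      (H (.R e j) l ↔ (∀ x ∈ l, H .SD [x]) ∧
        ∃ t, P.kb e j t = true ∧ (t : ℕ∞) ≤ lvH H l)) := by
    intro e j
    have hlv : Dfb P.ar (fun N H v => ∃ t : ℕ, P.kb e j t = true ∧
        (t : ℕ∞) ≤ lvH H ((List.range (P.ar e)).map v)) :=
      dfb_lvl (List.range (P.ar e)) (fun L => ∃ t : ℕ, P.kb e j t = true ∧ (t : ℕ∞) ≤ L)
        (kb_ev P e j)
    have h2 : Dfb P.ar (fun N H v => ∀ a : {a // a ∈ List.range (P.ar e)}, H .SD [v a.1]) :=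
      Dfb.fin fun a => Dfb.rel1 .SD a.1
    refine ((Dfb.rel (.R e j) (List.range (P.ar e))).iff (h2.and hlv)).axb.congr fun N _ S => ?_
    have e1 : ∀ v : ℕ → N, (∀ a : {a // a ∈ List.range (P.ar e)}, HN S .SD [v a.1]) ↔
        ∀ x ∈ (List.range (P.ar e)).map v, HN S .SD [x] := by
      intro v
      rw [List.forall_mem_map]
      exact ⟨fun h a ha => h ⟨a, ha⟩, fun h a => h a.1 a.2⟩
    constructor
    · intro h l hl
      have h3 := (h (fun m => l.getD m (Classical.arbitrary N))).trans
        (and_congr (e1 (fun m => l.getD m (Classical.arbitrary N))) Iff.rfl)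
      rw [axR_surj _ l hl] at h3
      exact h3
    · intro h v
      refine (h _ ?_).trans (and_congr (e1 v).symm Iff.rfl)
      rw [List.length_map, List.length_range]
  exact Axb.all fun e => Axb.all fun j => key e j

end Pool.Agent.Work.MP_ed0a9a_lc.V
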