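import Pool.Agent.Work.MP_ed0a9a_lc.V.AxSort
import Pool.Agent.Work.MP_ed0a9a_lc.V.AxC
import Pool.Agent.Work.MP_ed0a9a_lc.V.AxPW
import Pool.Agent.Work.MP_ed0a9a_lc.V.AxQ
import Pool.Agent.Work.MP_ed0a9a_lc.V.AxR

/-!
# Module `AxAll`: the theory

`Good` is the conjunction of the six axiomatizable properties (`Axb.and`, `Axb.congr`).
`Dup`: for every `i` the sentence `∀ v, R_i(v 0, …, v (a-1)) ↔ R_{i'}(v 0, …, v (a-1))` with
`i' = (Sym.dec i).code`, `a = ari ar i = ari ar i'` (`ari`, `Sym.dec_code`).
(Lists of wrong length: both sides of `Dup` false.)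
-/

set_option linter.unusedVariables false

namespace Pool.Agent.Work.MP_ed0a9a_lc.V

open FirstOrder FirstOrder.Language

variable {ar : ℕ → ℕ}

/-- the atomic formula for the `i`-th symbol -/
private noncomputable def axAllRl (i : ℕ) (l : List ℕ) : Fo ar :=
  if h : l.length = ari ar i then
    Relations.formula (L := sig (ari ar)) (n := ari ar i) ⟨i, rfl⟩
      (fun t => Term.var (l.get (t.cast h.symm)))
  else ⊥

private theorem axAll_realize {N : Type} [S : (sig (ari ar)).Structure N] (i : ℕ) (l : List ℕ)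
    (v : ℕ → N) : (axAllRl i l : Fo ar).Realize v ↔ hd (ari ar) S i (l.map v) := by
  unfold axAllRl hd
  by_cases h : l.length = ari ar i
  · rw [dif_pos h]
    refine (Formula.realize_rel (L := sig (ari ar)) (k := ari ar i)).trans ?_
    have h' : (l.map v).length = ari ar i := by simpa using h
    constructor
    · intro hr
      refine ⟨h', ?_⟩
      convert hr using 2
      simp
    · rintro ⟨_, hr⟩
      convert hr using 2
      simp
  · rw [dif_neg h]
    constructor
    · intro hr; exact absurd hr (by simp [Formula.Realize])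
    · rintro ⟨h', _⟩; exact absurd (by simpa using h') h

private theorem axAll_surj {N : Type} [Nonempty N] (n : ℕ) (l : List N) (hl : l.length = n) :
    (List.range n).map (fun m => l.getD m (Classical.arbitrary N)) = l := by
  apply List.ext_getElem
  · rw [List.length_map, List.length_range, hl]
  · intro i h1 h2
    rw [List.getElem_map, List.getElem_range, List.getD_eq_getElem _ _ h2]

private theorem axAll_dup (i : ℕ) : ∃ σ : (sig (ari ar)).Sentence,
    ∀ (N : Type) [Nonempty N] [S : (sig (ari ar)).Structure N],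
      N ⊨ σ ↔ ∀ l, hd (ari ar) S i l ↔ hd (ari ar) S (Sym.dec i).code l := by
  obtain ⟨σ, hσ⟩ := exists_sentence ((axAllRl i (List.range (ari ar i)) : Fo ar).iff
    (axAllRl (Sym.dec i).code (List.range (ari ar i)) : Fo ar))
  refine ⟨σ, fun N _ S => ?_⟩
  rw [hσ]
  have h1 : ∀ v : ℕ → N, ((axAllRl i (List.range (ari ar i)) : Fo ar).iff
      (axAllRl (Sym.dec i).code (List.range (ari ar i)) : Fo ar)).Realize v ↔
      (hd (ari ar) S i ((List.range (ari ar i)).map v) ↔
        hd (ari ar) S (Sym.dec i).code ((List.range (ari ar i)).map v)) := by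
    intro v
    rw [Formula.realize_iff, axAll_realize, axAll_realize]
  have h2 : ari ar (Sym.dec i).code = ari ar i := ari_code ar (Sym.dec i)
  constructor
  · intro h l
    by_cases hl : l.length = ari ar i
    · have h3 := (h1 (fun m => l.getD m (Classical.arbitrary N))).1 (h _)
      rw [axAll_surj _ l hl] at h3
      exact h3
    · constructor
      · rintro ⟨h3, -⟩
        exact absurd h3 hl
      · rintro ⟨h3, -⟩
        exact absurd (h3.trans h2) hl
  · intro h v
    exact (h1 v).2 (h _)

theorem exists_theory (P : Par) : ∃ T : (sig (ari P.ar)).Theory,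
    ∀ (N : Type) [Nonempty N] [S : (sig (ari P.ar)).Structure N],
      N ⊨ T ↔ Good (HN S) P ∧ Dup S := by
  have hG : Axb P.ar (fun N H => Good H P) := by
    refine ((axb_sort P).and ((axb_c P.ar).and ((axb_pw P).and ((axb_t P).and
      ((axb_q P).and (axb_r P)))))).congr fun N _ S => ?_
    constructor
    · rintro ⟨a1, a2, a3, a4, a5, a6⟩
      exact ⟨a1, a2, a3, a4, a5, a6⟩
    · rintro ⟨a1, a2, a3, a4, a5, a6⟩
      exact ⟨a1, a2, a3, a4, a5, a6⟩
  obtain ⟨T, hT⟩ := hG
  choose σ hσ using fun i => axAll_dup (ar := P.ar) i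
  refine ⟨T ∪ Set.range σ, fun N _ S => ?_⟩
  rw [Theory.model_union_iff, hT]
  refine and_congr Iff.rfl ?_
  rw [Theory.model_iff]
  unfold Dup
  constructor
  · intro h i
    exact (hσ i N).1 (h _ ⟨i, rfl⟩)
  · rintro h φ ⟨i, rfl⟩
    exact (hσ i N).2 (h i)

end Pool.Agent.Work.MP_ed0a9a_lc.V
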