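import Pool.Agent.Work.MP_ed0a9a_lc.V.ClassD
import Pool.Agent.Work.MP_ed0a9a_lc.V.StrU

/-!
# Module `ClassU`: every model of the axioms is isomorphic to some `U P J`
-/

namespace Pool.Agent.Work.MP_ed0a9a_lc.V

open FirstOrder FirstOrder.Language

theorem classU {N : Type} (P : Par) (H : Sym → List N → Prop) (h : Good H P) :
    ∃ (J : Type) (E : U P J ≃ N), ∀ s l, H s (l.map E) ↔ relM P J s l := by
  obtain ⟨J, e, he, hSD, hC⟩ := classD H h.c
  have hlv := lvH_map_e H e he hC
  have eSD : ∀ p, H .SD [e p] := fun p => (hSD _).2 ⟨p, rfl⟩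
  have T_ex : ∀ k (_ : k ∈ P.F) (x : Fin (P.K + 1) → Pt J) (z : Pt J × Pt J) (_ : okZ k z),
      ∃ τ, H (.ST k) [τ] ∧ (∀ j : Fin (P.K + 1), H (.P j) [τ, e (x j)]) ∧
        hz H k τ (e z.1) (e z.2) :=
    fun k hk x z hz => h.t.t_ex k hk (fun j => e (x j)) (e z.1) (e z.2) (fun j => eSD _) (eSD _)
      (eSD _) (fun ho => (hC 0 _).2 (hz ho))
  choose tt htt1 htt2 htt3 using T_ex
  have W_ex : ∀ k (hk : k ∈ P.F) (x : Fin (P.K + 1) → Pt J) (z z' : Pt J × Pt J) (hz : okZ k z)
      (_ : okZ k z') (_ : z' ≠ z),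
      ∃ w, H .Wt [w, tt k hk x z hz] ∧ H (.Wz false) [w, e z'.1] ∧ H (.Wz true) [w, e z'.2] := by
    intro k hk x z z' hz hz' hne
    by_contra hno
    have h1 : V.hz H k (tt k hk x z hz) (e z'.1) (e z'.2) :=
      ⟨eSD _, eSD _, fun ho => (hC 0 _).2 (hz' ho), hno⟩
    have h2 := h.t.hz_uniq k hk _ _ _ _ _ (htt1 k hk x z hz) h1 (htt3 k hk x z hz)
    exact hne (Prod.ext (he h2.1) (he h2.2))
  choose ww hww1 hww2 hww3 using W_ex
  have wSW : ∀ k hk x z z' hz hz' hne, H .SW [ww k hk x z z' hz hz' hne] :=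
    fun k hk x z z' hz hz' hne => (h.pw.wt_dom _ _ (hww1 k hk x z z' hz hz' hne)).1
  have hwwb : ∀ b k hk x (z z' : Pt J × Pt J) hz hz' hne,
      H (.Wz b) [ww k hk x z z' hz hz' hne, e (if b then z'.2 else z'.1)] := by
    intro b k hk x z z' hz hz' hne
    cases b
    · exact hww2 k hk x z z' hz hz' hne
    · exact hww3 k hk x z z' hz hz' hne
  let E0 : U P J → N := fun u => match u with
    | .d p => e p
    | .t k hk x z hz => tt k hk x z hz
    | .w k hk x z z' hz hz' hne => ww k hk x z z' hz hz' hne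
  -- equality of elements of the sorts `T k`
  have tt_inj : ∀ k hk x z hz k' hk' x' z' hz', tt k hk x z hz = tt k' hk' x' z' hz' →
      k = k' ∧ x = x' ∧ z = z' := by
    intro k hk x z hz k' hk' x' z' hz' heq
    have hkk : k = k' := by
      by_contra hne
      have h1 := htt1 k hk x z hz
      rw [heq] at h1
      exact h.sort.t_uniq k k' hne _ h1 (htt1 k' hk' x' z' hz')
    subst hkk
    refine ⟨rfl, ?_, ?_⟩
    · funext j
      have h1 := htt2 k hk x z hz j
      rw [heq] at h1
      exact he (h.pw.p_uniq _ _ _ _ h1 (htt2 k hk' x' z' hz' j))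
    · have h1 := htt3 k hk x z hz
      rw [heq] at h1
      have h2 := h.t.hz_uniq k hk _ _ _ _ _ (htt1 k hk' x' z' hz') h1 (htt3 k hk' x' z' hz')
      exact Prod.ext (he h2.1) (he h2.2)
  have E0_inj : Function.Injective E0 := by
    rintro (p | ⟨k, hk, x, z, hz⟩ | ⟨k, hk, x, z, z', hz, hz', hne⟩)
      (p' | ⟨l, hl, y, t, ht⟩ | ⟨l, hl, y, t, t', ht, ht', hne'⟩)
      heq <;> simp only [E0] at heq
    · rw [he heq]
    · exact absurd (heq ▸ htt1 l hl y t ht) (h.sort.d_not_t l _ (eSD p))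
    · exact absurd (heq ▸ wSW l hl y t t' ht ht' hne') (h.sort.d_not_w _ (eSD p))
    · exact absurd (heq ▸ htt1 k hk x z hz) (h.sort.d_not_t k _ (eSD p'))
    · obtain ⟨rfl, rfl, rfl⟩ := tt_inj _ _ _ _ _ _ _ _ _ _ heq
      rfl
    · exact absurd (heq ▸ wSW l hl y t t' ht ht' hne') (h.sort.t_not_w k _ (htt1 k hk x z hz))
    · exact absurd (heq ▸ wSW k hk x z z' hz hz' hne) (h.sort.d_not_w _ (eSD p'))
    · exact absurd (heq ▸ wSW k hk x z z' hz hz' hne) (h.sort.t_not_w l _ (htt1 l hl y t ht))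
    · have h1 := hww1 k hk x z z' hz hz' hne
      have h2 := hww2 k hk x z z' hz hz' hne
      have h3 := hww3 k hk x z z' hz hz' hne
      rw [heq] at h1 h2 h3
      obtain ⟨rfl, rfl, rfl⟩ := tt_inj _ _ _ _ _ _ _ _ _ _
        (h.pw.wt_uniq _ _ _ h1 (hww1 l hl y t t' ht ht' hne'))
      have h4 := he (h.pw.wz_uniq _ _ _ _ h2 (hww2 k hl x z t' ht ht' hne'))
      have h5 := he (h.pw.wz_uniq _ _ _ _ h3 (hww3 k hl x z t' ht ht' hne'))
      have h6 : z' = t' := Prod.ext h4 h5
      subst h6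
      rfl
  have tt_surj : ∀ k (hk : k ∈ P.F) τ, H (.ST k) [τ] → ∃ x z hz, tt k hk x z hz = τ := by
    intro k hk τ hτ
    have h1 : ∀ j : Fin (P.K + 1), ∃ p, H (.P j) [τ, e p] := by
      intro j
      obtain ⟨y, hy⟩ := h.pw.p_ex j.1 (Nat.lt_succ_iff.1 j.2) τ ⟨k, hk, hτ⟩
      obtain ⟨p, rfl⟩ := (hSD y).1 (h.pw.p_dom _ _ _ hy).2
      exact ⟨p, hy⟩
    choose x hx using h1
    obtain ⟨y, y', hy⟩ := h.t.hz_ex k hk τ hτ
    obtain ⟨z, rfl⟩ := (hSD y).1 hy.1
    obtain ⟨z', rfl⟩ := (hSD y').1 hy.2.1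
    have hok : okZ k (z, z') := fun ho => (hC 0 _).1 (hy.2.2.1 ho)
    exact ⟨x, (z, z'), hok, h.t.t_inj k hk (fun j => e (x j)) (e z) (e z') _ _
      (htt1 k hk x (z, z') hok) hτ (htt2 k hk x (z, z') hok) hx (htt3 k hk x (z, z') hok) hy⟩
  have E0_surj : Function.Surjective E0 := by
    intro y
    rcases h.sort.cover y with hy | ⟨k, hk, hy⟩ | hy
    · obtain ⟨p, hp⟩ := (hSD y).1 hy
      exact ⟨.d p, hp⟩
    · obtain ⟨x, z, hz, hxz⟩ := tt_surj k hk y hy
      exact ⟨.t k hk x z hz, hxz⟩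
    · obtain ⟨τ, hτ⟩ := h.pw.wt_ex y hy
      obtain ⟨-, k, hk, hτk⟩ := h.pw.wt_dom _ _ hτ
      obtain ⟨x, z, hz, rfl⟩ := tt_surj k hk τ hτk
      obtain ⟨y', hy'⟩ := h.pw.wz_ex false y hy
      obtain ⟨z₁, rfl⟩ := (hSD y').1 (h.pw.wz_dom _ _ _ hy').2
      obtain ⟨y'', hy''⟩ := h.pw.wz_ex true y hy
      obtain ⟨z₂, rfl⟩ := (hSD y'').1 (h.pw.wz_dom _ _ _ hy'').2
      have hok : okZ k (z₁, z₂) := fun ho => (hC 0 _).1 (h.pw.wz_ok k hk ho y _ _ hτk hτ hy')
      have hne : (z₁, z₂) ≠ z := by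
        rintro rfl
        exact (htt3 k hk x _ hz).2.2.2 ⟨y, hτ, hy', hy''⟩
      exact ⟨.w k hk x z (z₁, z₂) hz hok hne, h.pw.w_inj _ _ _ _ _
        (hww1 k hk x z (z₁, z₂) hz hok hne)
        (hww2 k hk x z (z₁, z₂) hz hok hne) (hww3 k hk x z (z₁, z₂) hz hok hne) hτ hy' hy''⟩
  let E : U P J ≃ N := Equiv.ofBijective E0 ⟨E0_inj, E0_surj⟩
  have E_d : ∀ p, E (.d p) = e p := fun p => rfl
  -- characterization of the relations
  have cSD : ∀ u, H .SD [E u] ↔ ∃ p, u = .d p := by
    intro u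
    rw [hSD]
    constructor
    · rintro ⟨p, hp⟩
      exact ⟨p, E.injective (hp.symm ▸ (E_d p).symm ▸ rfl)⟩
    · rintro ⟨p, rfl⟩
      exact ⟨p, rfl⟩
  have cST : ∀ k u, H (.ST k) [E u] ↔ ∃ hk x z hz, u = .t k hk x z hz := by
    intro k u
    constructor
    · intro hu
      have hk : k ∈ P.F := by
        by_contra hk
        exact h.sort.t_F k hk _ hu
      obtain ⟨x, z, hz, hxz⟩ := tt_surj k hk _ hu
      exact ⟨hk, x, z, hz, E.injective hxz.symm⟩
    · rintro ⟨hk, x, z, hz, rfl⟩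
      exact htt1 k hk x z hz
  have cSW : ∀ u, H .SW [E u] ↔ ∃ k hk x z z' hz hz' hne, u = .w k hk x z z' hz hz' hne := by
    intro u
    constructor
    · intro hu
      rcases u with p | ⟨k, hk, x, z, hz⟩ | ⟨k, hk, x, z, z', hz, hz', hne⟩
      · exact absurd hu (h.sort.d_not_w _ (eSD p))
      · exact absurd hu (h.sort.t_not_w k _ (htt1 k hk x z hz))
      · exact ⟨k, hk, x, z, z', hz, hz', hne, rfl⟩
    · rintro ⟨k, hk, x, z, z', hz, hz', hne, rfl⟩
      exact wSW k hk x z z' hz hz' hne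
  have cC : ∀ m u, H (.C m) [E u] ↔ u = .d (Sum.inl m) := by
    intro m u
    constructor
    · intro hu
      obtain ⟨p, rfl⟩ := (cSD u).1 (h.c.c_dom m _ hu)
      rw [(hC m p).1 hu]
    · rintro rfl
      exact (hC m _).2 rfl
  have cP : ∀ j u u', H (.P j) [E u, E u'] ↔
      ∃ k hk x z hz, ∃ hj : j < P.K + 1, u = .t k hk x z hz ∧ u' = .d (x ⟨j, hj⟩) := by
    intro j u u'
    constructor
    · intro hu
      obtain ⟨⟨k, hk, h1⟩, h2⟩ := h.pw.p_dom _ _ _ hu
      have hj : j < P.K + 1 := by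
        by_contra hj
        exact h.pw.p_big j (by omega) _ _ hu
      obtain ⟨hk', x, z, hz, rfl⟩ := (cST k u).1 h1
      exact ⟨k, hk', x, z, hz, hj, rfl,
        E.injective (h.pw.p_uniq _ _ _ _ hu (htt2 k hk' x z hz ⟨j, hj⟩))⟩
    · rintro ⟨k, hk, x, z, hz, hj, rfl, rfl⟩
      exact htt2 k hk x z hz ⟨j, hj⟩
  have cWt : ∀ u u', H .Wt [E u, E u'] ↔ ∃ k hk x z z' hz hz' hne,
      u = .w k hk x z z' hz hz' hne ∧ u' = .t k hk x z hz := by
    intro u u'
    constructor
    · intro hu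
      obtain ⟨h1, h2⟩ := h.pw.wt_dom _ _ hu
      obtain ⟨k, hk, x, z, z', hz, hz', hne, rfl⟩ := (cSW u).1 h1
      exact ⟨k, hk, x, z, z', hz, hz', hne, rfl,
        E.injective (h.pw.wt_uniq _ _ _ hu (hww1 k hk x z z' hz hz' hne))⟩
    · rintro ⟨k, hk, x, z, z', hz, hz', hne, rfl, rfl⟩
      exact hww1 k hk x z z' hz hz' hne
  have cWz : ∀ b u u', H (.Wz b) [E u, E u'] ↔ ∃ k hk x z z' hz hz' hne,
      u = .w k hk x z z' hz hz' hne ∧ u' = .d (if b then z'.2 else z'.1) := by
    intro b u u'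
    constructor
    · intro hu
      obtain ⟨h1, h2⟩ := h.pw.wz_dom _ _ _ hu
      obtain ⟨k, hk, x, z, z', hz, hz', hne, rfl⟩ := (cSW u).1 h1
      exact ⟨k, hk, x, z, z', hz, hz', hne, rfl,
        E.injective (h.pw.wz_uniq _ _ _ _ hu (hwwb b k hk x z z' hz hz' hne))⟩
    · rintro ⟨k, hk, x, z, z', hz, hz', hne, rfl, rfl⟩
      exact hwwb b k hk x z z' hz hz' hne
  have chz : ∀ k hk x z hz' y y', hz H k (tt k hk x z hz') y y' ↔ y = e z.1 ∧ y' = e z.2 := by
    intro k hk x z hz' y y'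
    constructor
    · intro hy
      exact h.t.hz_uniq k hk _ _ _ _ _ (htt1 k hk x z hz') hy (htt3 k hk x z hz')
    · rintro ⟨rfl, rfl⟩
      exact htt3 k hk x z hz'
  -- names
  have hnm : ∀ k a (x : Fin (P.K + 1) → Pt J) p,
      nmH H k (fun j => e (x j)) a (e p) ↔ p = nm k x a := by
    intro k a x p
    unfold nmH nm
    by_cases ha : a < k ∧ a < P.K + 1
    · rw [dif_pos ha, dif_pos ha]
      constructor
      · intro h1
        exact (he h1).symm
      · intro h1
        rw [h1]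
    · rw [dif_neg ha, dif_neg ha]
      exact hC _ _
  -- missing directions
  have hmiss : ∀ k n (x : Fin (P.K + 1) → Pt J) (z : Pt J × Pt J),
      missH H P k n (fun j => e (x j)) (e z.1) (e z.2) ↔ miss P k x z n := by
    intro k n x z
    unfold missH miss
    have h1 : (List.ofFn (fun j => e (x j))) = (List.ofFn x).map e := by
      rw [List.map_ofFn]
      rfl
    rw [h1, ← List.map_take, hlv]
    refine and_congr ?_ Iff.rfl
    unfold pos
    by_cases ho : k % 2 = 1
    · rw [if_pos ho, if_pos ho, hnm, hC]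
      constructor
      · rintro ⟨h1, h2⟩
        exact Prod.ext h1 h2
      · intro h1
        rw [h1]
        exact ⟨rfl, rfl⟩
    · rw [if_neg ho, if_neg ho, hnm, hnm]
      constructor
      · rintro ⟨h1, h2⟩
        exact Prod.ext h1 h2
      · intro h1
        rw [h1]
        exact ⟨rfl, rfl⟩
  have cQ : ∀ n u u', H (.Q n) [E u, E u'] ↔ relM P J (.Q n) [u, u'] := by
    intro n u u'
    rw [h.q]
    constructor
    · rintro ⟨k, hk, x, d', z₁, z₂, h1, h2, h3, h4, h5, h6, h7, h8, h9, h10⟩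
      obtain ⟨hk1, x1, z1, hz1, rfl⟩ := (cST k u).1 h1
      obtain ⟨hk2, x2, z2, hz2, rfl⟩ := (cST k u').1 h2
      have hx : x = fun j => e (x1 j) := by
        funext j
        exact h.pw.p_uniq _ _ _ _ (h3 j) (htt2 k hk1 x1 z1 hz1 j)
      subst hx
      obtain ⟨rfl, rfl⟩ := (chz k hk1 x1 z1 hz1 z₁ z₂).1 h8
      have hz2' : e z1.1 = e z2.1 ∧ e z1.2 = e z2.2 := (chz k hk2 x2 z2 hz2 _ _).1 h9
      have hd : d' = e (x2 (Fin.last P.K)) :=
        h.pw.p_uniq _ _ _ _ h5 (htt2 k hk2 x2 z2 hz2 (Fin.last P.K))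
      subst hd
      simp only [relM]
      refine ⟨trivial, Prod.ext (he hz2'.1) (he hz2'.2), ?_, (hC _ _).1 h6, (hC _ _).1 h7, ?_⟩
      · intro j hj
        exact (he (h.pw.p_uniq _ _ _ _ (h4 j hj) (htt2 k hk2 x2 z2 hz2 j))).symm
      · intro hm
        exact h10 ((hmiss k n x1 z1).2 hm)
    · intro hr
      rcases u with p | ⟨k, hk, x, z, hz⟩ | ⟨k, hk, x, z, z', hz, hz', hne⟩
      · simp [relM] at hr
      · rcases u' with p | ⟨k', hk', x', z', hz'⟩ | ⟨k', hk', x', z', z'', hz', hz'', hne⟩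
        · simp [relM] at hr
        · simp only [relM] at hr
          obtain ⟨rfl, rfl, h3, h4, h4', h5⟩ := hr
          refine ⟨k, hk, fun j => e (x j), e (x' (Fin.last P.K)), e z.1, e z.2,
            htt1 k hk x z hz, htt1 k hk' x' z hz', htt2 k hk x z hz, ?_,
            htt2 k hk' x' z hz' (Fin.last P.K), (hC _ _).2 h4, (hC _ _).2 h4',
            htt3 k hk x z hz, htt3 k hk' x' z hz', ?_⟩
          · intro j hj
            have := htt2 k hk' x' z hz' j
            rw [h3 j hj] at this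
            exact this
          · intro hm
            exact h5 ((hmiss k n x z).1 hm)
        · simp [relM] at hr
      · simp [relM] at hr
  have cR : ∀ e' j (l : List (U P J)), H (.R e' j) (l.map E) ↔ relM P J (.R e' j) l := by
    intro e' j l
    constructor
    · intro hl
      have hlen : l.length = P.ar e' := by
        have := h.sort.len _ _ hl
        simpa [arity] using this
      rw [h.r e' j _ (by simpa using hlen)] at hl
      obtain ⟨h1, t, ht, hle⟩ := hl
      have h2 : ∀ u ∈ l, ∃ p, u = U.d p := fun u hu =>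
        (cSD u).1 (h1 _ (List.mem_map_of_mem hu))
      have h3 : ∃ l' : List (Pt J), l = l'.map U.d := by
        clear hle h1 hlen
        induction l with
        | nil => exact ⟨[], rfl⟩
        | cons a l ih =>
          obtain ⟨p, hp⟩ := h2 a (by simp)
          obtain ⟨l', hl'⟩ := ih (fun u hu => h2 u (by simp [hu]))
          exact ⟨p :: l', by rw [hp, hl']; rfl⟩
      obtain ⟨l', rfl⟩ := h3
      refine ⟨hlen, l', rfl, t, ht, ?_⟩
      have h4 : (l'.map U.d).map E = l'.map e := by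
        rw [List.map_map]
        rfl
      rw [h4, hlv] at hle
      exact hle
    · rintro ⟨hlen, l', rfl, t, ht, hle⟩
      rw [h.r e' j _ (by simpa using hlen)]
      refine ⟨?_, t, ht, ?_⟩
      · intro x hx
        simp only [List.map_map, List.mem_map] at hx
        obtain ⟨p, -, rfl⟩ := hx
        exact eSD p
      · have h4 : (l'.map U.d).map E = l'.map e := by
          rw [List.map_map]
          rfl
        rw [h4, hlv]
        exact hle
  refine ⟨J, E, ?_⟩
  intro s l
  by_cases hR : ∃ e' j, s = .R e' j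
  · obtain ⟨e', j, rfl⟩ := hR
    exact cR e' j l
  · by_cases hlen : l.length = arity P.ar s
    · cases s with
      | SD =>
        obtain ⟨u, rfl⟩ := List.length_eq_one_iff.1 hlen
        rw [List.map_singleton, cSD]
        rcases u with p | ⟨k, hk, x, z, hz⟩ | ⟨k, hk, x, z, z', hz, hz', hne⟩ <;> simp [relM]
      | SW =>
        obtain ⟨u, rfl⟩ := List.length_eq_one_iff.1 hlen
        rw [List.map_singleton, cSW]
        rcases u with p | ⟨k, hk, x, z, hz⟩ | ⟨k, hk, x, z, z', hz, hz', hne⟩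
        · simp [relM]
        · simp [relM]
        · simp only [relM, iff_true]
          exact ⟨k, hk, x, z, z', hz, hz', hne, rfl⟩
      | C m =>
        obtain ⟨u, rfl⟩ := List.length_eq_one_iff.1 hlen
        rw [List.map_singleton, cC]
        rcases u with p | ⟨k, hk, x, z, hz⟩ | ⟨k, hk, x, z, z', hz, hz', hne⟩ <;> simp [relM]
      | ST k' =>
        obtain ⟨u, rfl⟩ := List.length_eq_one_iff.1 hlen
        rw [List.map_singleton, cST]
        rcases u with p | ⟨k, hk, x, z, hz⟩ | ⟨k, hk, x, z, z', hz, hz', hne⟩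
        · simp [relM]
        · simp only [relM]
          constructor
          · rintro ⟨_, _, _, _, h1⟩
            injection h1 with h1
            exact h1.symm
          · rintro rfl
            exact ⟨hk, x, z, hz, rfl⟩
        · simp [relM]
      | P j =>
        obtain ⟨u, u', rfl⟩ := List.length_eq_two.1 hlen
        rw [List.map_cons, List.map_singleton, cP]
        rcases u with p | ⟨k, hk, x, z, hz⟩ | ⟨k, hk, x, z, z', hz, hz', hne⟩
        · simp [relM]
        · rcases u' with p' | ⟨l, hl, y, t, ht⟩ | ⟨l, hl, y, t, t', ht, ht', hne'⟩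
          · simp only [relM]
            constructor
            · rintro ⟨_, _, _, _, _, hj, h1, h2⟩
              injection h1 with h1 h3 h4
              injection h2 with h2
              subst h3
              exact ⟨hj, h2.symm⟩
            · rintro ⟨hj, rfl⟩
              exact ⟨k, hk, x, z, hz, hj, rfl, rfl⟩
          · simp [relM]
          · simp [relM]
        · simp [relM]
      | Wt =>
        obtain ⟨u, u', rfl⟩ := List.length_eq_two.1 hlen
        rw [List.map_cons, List.map_singleton, cWt]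
        rcases u with p | ⟨k, hk, x, z, hz⟩ | ⟨k, hk, x, z, z', hz, hz', hne⟩
        · simp [relM]
        · simp [relM]
        · rcases u' with p' | ⟨l, hl, y, t, ht⟩ | ⟨l, hl, y, t, t', ht, ht', hne'⟩
          · simp [relM]
          · simp only [relM]
            constructor
            · rintro ⟨_, _, _, _, _, _, _, _, h1, h2⟩
              injection h1 with h1 h3 h4 h5
              injection h2 with h2 h6 h7
              subst h1 h3 h4 h2 h6 h7
              exact ⟨rfl, rfl, rfl⟩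
            · rintro ⟨rfl, rfl, rfl⟩
              exact ⟨k, hk, x, z, z', hz, hz', hne, rfl, rfl⟩
          · simp [relM]
      | Wz b =>
        obtain ⟨u, u', rfl⟩ := List.length_eq_two.1 hlen
        rw [List.map_cons, List.map_singleton, cWz]
        rcases u with p | ⟨k, hk, x, z, hz⟩ | ⟨k, hk, x, z, z', hz, hz', hne⟩
        · simp [relM]
        · simp [relM]
        · rcases u' with p' | ⟨l, hl, y, t, ht⟩ | ⟨l, hl, y, t, t', ht, ht', hne'⟩
          · simp only [relM]
            constructor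
            · rintro ⟨_, _, _, _, _, _, _, _, h1, h2⟩
              injection h1 with h1 h3 h4 h5
              injection h2 with h2
              subst h5 h2
              rfl
            · intro h1
              exact ⟨k, hk, x, z, z', hz, hz', hne, rfl, by rw [h1]⟩
          · simp [relM]
          · simp [relM]
      | Q n =>
        obtain ⟨u, u', rfl⟩ := List.length_eq_two.1 hlen
        rw [List.map_cons, List.map_singleton]
        exact cQ n u u'
      | R e' j => exact absurd ⟨e', j, rfl⟩ hR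
    · constructor
      · intro hl
        have := h.sort.len _ _ hl
        rw [List.length_map] at this
        exact absurd this hlen
      · intro hl
        exact absurd (relM_len P J s l hl) hlen

theorem classify {N : Type} (P : Par) [S : (sig (ari P.ar)).Structure N]
    (h : Good (HN S) P) (hd : Dup S) : ∃ J : Type, Nonempty (U P J ≃[sig (ari P.ar)] N) := by
  obtain ⟨J, E, hE⟩ := classU P (HN S) h
  obtain ⟨f, -⟩ := equiv_of_rel (dup_strU P J) hd E (fun s l => by rw [HN_strU]; exact hE s l)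
  exact ⟨J, ⟨f⟩⟩

end Pool.Agent.Work.MP_ed0a9a_lc.V
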