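import Pool.Agent.Work.MP_ed0a9a_lc.V.PrimA

/-!
# Module `PrimB`: primitive recursiveness of the relations of the copy
-/

namespace Pool.Agent.Work.MP_ed0a9a_lc.V

section

variable {α : Type} [Primcodable α] (msk : ℕ → ℕ → ℕ)

theorem pb_and {f g : α → Bool} (hf : Primrec f) (hg : Primrec g) :
    Primrec fun a => f a && g a := Primrec.and.comp hf hg

theorem pb_or {f g : α → Bool} (hf : Primrec f) (hg : Primrec g) :
    Primrec fun a => f a || g a := Primrec.or.comp hf hg

theorem pb_not {f : α → Bool} (hf : Primrec f) :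
    Primrec fun a => !(f a) := Primrec.not.comp hf

theorem pb_eq {β : Type} [Primcodable β] [DecidableEq β] {f g : α → β} (hf : Primrec f)
    (hg : Primrec g) : Primrec fun a => decide (f a = g a) := (Primrec.eq.comp hf hg).decide

theorem pb_lt {f g : α → ℕ} (hf : Primrec f) (hg : Primrec g) :
    Primrec fun a => decide (f a < g a) := (Primrec.nat_lt.comp hf hg).decide

theorem pb_u1 {f : α → ℕ} (hf : Primrec f) : Primrec fun a => (Nat.unpair (f a)).1 :=
  Primrec.fst.comp (Primrec.unpair.comp hf)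

theorem pb_u2 {f : α → ℕ} (hf : Primrec f) : Primrec fun a => (Nat.unpair (f a)).2 :=
  Primrec.snd.comp (Primrec.unpair.comp hf)

theorem pb_disc (hm : Primrec₂ msk) {q s t : α → ℕ} (hq : Primrec q) (hs : Primrec s)
    (ht : Primrec t) : Primrec fun a => disc msk (q a) (s a) (t a) :=
  (primrec_disc msk hm).comp (Primrec.pair hq (Primrec.pair hs ht))

/-- Bounded search. -/
theorem pb_ex {p : ℕ × α → Bool} (hp : Primrec p) {f : α → ℕ}
    (hf : Primrec f) : Primrec fun a => decide (∃ t < f a, p (t, a) = true) := by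
  have h1 : PrimrecRel (fun (t : ℕ) (a : α) => p (t, a) = true) :=
    (Primrec.eq (α := Bool)).comp hp (Primrec.const true)
  have h3 : PrimrecRel (fun (L : List ℕ) (a : α) => ∃ t ∈ L, p (t, a) = true) :=
    h1.exists_mem_list
  have h2 : PrimrecPred (fun a : α => ∃ t ∈ List.range (f a), p (t, a) = true) :=
    h3.comp (Primrec.list_range.comp hf) Primrec.id
  refine h2.decide.of_eq fun a => ?_
  rw [Bool.eq_iff_iff, decide_eq_true_iff, decide_eq_true_iff]
  simp only [List.mem_range]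

theorem pb_bound {z : α → ℕ × ℕ} (hz : Primrec z) : Primrec fun a => (z a).1 + (z a).2 + 1 :=
  Primrec.succ.comp (Primrec.nat_add.comp (Primrec.fst.comp hz) (Primrec.snd.comp hz))

theorem pb_isGarb (hm : Primrec₂ msk) (K : ℕ) {k q s : α → ℕ} {v : α → List ℕ}
    {z : α → ℕ × ℕ} (hk : Primrec k) (hv : Primrec v) (hq : Primrec q) (hs : Primrec s)
    (hz : Primrec z) : Primrec fun a => isGarb msk K (k a) (v a) (q a) (s a) (z a) := by
  have hp : Primrec (fun x : ℕ × α => disc msk (q x.2) (s x.2) x.1 &&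
      decide (z x.2 = garb (k x.2) (v x.2) (cd (q x.2) (s x.2)
        (pif msk (q x.2) (s x.2) (dl K (v x.2))) x.1))) := by
    have hq' := hq.comp (Primrec.snd (α := ℕ))
    have hs' := hs.comp (Primrec.snd (α := ℕ))
    have hv' := hv.comp (Primrec.snd (α := ℕ))
    refine pb_and (pb_disc msk hm hq' hs' Primrec.fst) (pb_eq (hz.comp Primrec.snd) ?_)
    refine pa_garb (hk.comp Primrec.snd) hv' (pa_cd hq' hs' ?_ Primrec.fst)
    exact pa_pif msk hm hq' hs' ((primrec_dl K).comp hv')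
  refine (pb_ex hp (pb_bound hz)).of_eq fun a => ?_
  unfold isGarb
  rw [Bool.eq_iff_iff, decide_eq_true_iff, decide_eq_true_iff]
  simp only [Bool.and_eq_true, decide_eq_true_iff]

theorem pb_old (hm : Primrec₂ msk) (K : ℕ) {k : α → ℕ} {v : α → List ℕ}
    {z : α → ℕ × ℕ} (hk : Primrec k) (hv : Primrec v)
    (hz : Primrec z) : Primrec fun a => old msk K (k a) (v a) (z a) := by
  have hp : Primrec (fun x : ℕ × α => disc msk (Nat.unpair (Nat.unpair x.1).1).1
      (Nat.unpair (Nat.unpair x.1).1).2 (Nat.unpair (Nat.unpair x.1).2).2 &&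
      (decide ((Nat.unpair (Nat.unpair x.1).2).1 = pif msk (Nat.unpair (Nat.unpair x.1).1).1
        (Nat.unpair (Nat.unpair x.1).1).2 (dl K (v x.2))) &&
      (decide (dl K (v x.2) < (Nat.unpair (Nat.unpair x.1).2).2) &&
        decide (z x.2 = garb (k x.2) (v x.2) x.1)))) := by
    have hv' := hv.comp (Primrec.snd (α := ℕ))
    have hm' : Primrec (fun x : ℕ × α => x.1) := Primrec.fst
    have hd := (primrec_dl K).comp hv'
    refine pb_and (pb_disc msk hm (pb_u1 (pb_u1 hm')) (pb_u2 (pb_u1 hm')) (pb_u2 (pb_u2 hm'))) ?_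
    refine pb_and (pb_eq (pb_u1 (pb_u2 hm')) (pa_pif msk hm (pb_u1 (pb_u1 hm'))
      (pb_u2 (pb_u1 hm')) hd)) ?_
    refine pb_and (pb_lt hd (pb_u2 (pb_u2 hm'))) (pb_eq (hz.comp Primrec.snd) ?_)
    exact pa_garb (hk.comp Primrec.snd) hv' hm'
  refine (pb_ex hp (pb_bound hz)).of_eq fun a => ?_
  unfold old
  rw [Bool.eq_iff_iff, decide_eq_true_iff, decide_eq_true_iff]
  simp only [Bool.and_eq_true, decide_eq_true_iff]

theorem pb_lc (hm : Primrec₂ msk) {q t : α → ℕ} (hq : Primrec q)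
    (ht : Primrec t) : Primrec fun a => lc msk (q a) (t a) := (primrec_lc msk hm).comp hq ht

theorem pb_all {l : α → List ℕ} {p : ℕ → Bool} (hl : Primrec l) (hp : Primrec p) :
    Primrec fun a => (l a).all p := by
  have h1 : PrimrecPred fun x : ℕ => p x = true := Primrec.eq.comp hp (Primrec.const true)
  have h2 : PrimrecPred fun a => ∀ x ∈ l a, p x = true := (h1.forall_mem_list).comp hl
  refine h2.decide.of_eq fun a => ?_
  rw [Bool.eq_iff_iff]
  simp

theorem pb_contains {l : α → List ℕ} {r : α → ℕ} (hl : Primrec l) (hr : Primrec r) :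
    Primrec fun a => (l a).contains (r a) := by
  have h1 : PrimrecRel fun (x y : ℕ) => x = y := Primrec.eq
  have h2 : PrimrecPred fun a => ∃ x ∈ l a, x = r a := (h1.exists_mem_list).comp hl hr
  refine h2.decide.of_eq fun a => ?_
  rw [Bool.eq_iff_iff]
  simp

theorem pb_mem (F : Finset ℕ) {k : α → ℕ} (hk : Primrec k) :
    Primrec fun a => decide (k a ∈ F) := by
  refine (pb_contains (Primrec.const F.toList) hk).of_eq fun a => ?_
  rw [Bool.eq_iff_iff]
  simp

theorem pb_missD (hm : Primrec₂ msk) {k n : α → ℕ} {v : α → List ℕ}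
    {z : α → ℕ × ℕ} (hk : Primrec k) (hv : Primrec v)
    (hz : Primrec z) (hn : Primrec n) :
    Primrec fun a => missD msk (k a) (v a) (z a) (n a) := by
  unfold missD
  have hyl : Primrec fun a => (v a).take (k a / 2) :=
    Primrec.list_take.comp (primrec_half.comp hk) hv
  refine pb_and (pb_eq hz (pa_posn hk hv (pb_u2 hn))) ?_
  exact primrec_testBit.comp (hm.comp (pb_u2 hn) (primrec_lvn.comp hyl)) hn

theorem pb_ite {β : Type} [Primcodable β] {c : α → Bool} {f g : α → β}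
    (hc : Primrec c) (hf : Primrec f) (hg : Primrec g) :
    Primrec fun a => if c a then f a else g a := by
  refine (Primrec.cond hc hf hg).of_eq fun a => ?_
  cases c a <;> rfl

theorem pb_iteEq {β γ : Type} [Primcodable β] [Primcodable γ] [DecidableEq γ]
    {u w : α → γ} {f g : α → β}
    (hu : Primrec u) (hw : Primrec w) (hf : Primrec f) (hg : Primrec g) :
    Primrec fun a => if u a = w a then f a else g a :=
  Primrec.ite (Primrec.eq.comp hu hw) hf hg

theorem pb_okZn (i : ℕ∞) {k : α → ℕ} {z : α → ℕ × ℕ} (hk : Primrec k) (hz : Primrec z) :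
    Primrec fun a => okZn i (k a) (z a) := by
  have h1 := (primrec_okP i).comp (Primrec.fst.comp hz)
  have h2 := (primrec_okP i).comp (Primrec.snd.comp hz)
  have h3 : PrimrecPred (fun a : α => ¬ (k a % 2 = 1) ∨ (z a).1 = 0) :=
    (PrimrecPred.not ((Primrec.eq (α := ℕ)).comp (primrec_mod2.comp hk) (Primrec.const 1))).or
      ((Primrec.eq (α := ℕ)).comp (Primrec.fst.comp hz) (Primrec.const 0))
  refine (pb_and (pb_and h1 h2) h3.decide).of_eq fun a => ?_
  unfold okZn
  congr 1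
  rw [Bool.eq_iff_iff, decide_eq_true_iff, decide_eq_true_iff, ← imp_iff_not_or]

theorem pb_named {k p : α → ℕ} {v : α → List ℕ} (hk : Primrec k) (hv : Primrec v)
    (hp : Primrec p) : Primrec fun a => named (k a) (v a) (p a) := by
  unfold named
  exact pb_or (pb_eq (primrec_mod2.comp hp) (Primrec.const 0))
    (pb_contains (Primrec.list_take.comp hk hv) hp)

theorem pb_c1 {c : α → Tc} (hc : Primrec c) : Primrec fun a => (c a).1 :=
  Primrec.fst.comp hc
theorem pb_cv {c : α → Tc} (hc : Primrec c) : Primrec fun a => (c a).2.1 :=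
  Primrec.fst.comp (Primrec.snd.comp hc)
theorem pb_cz {c : α → Tc} (hc : Primrec c) : Primrec fun a => (c a).2.2.1 :=
  Primrec.fst.comp (Primrec.snd.comp (Primrec.snd.comp hc))
theorem pb_ce {c : α → Tc} (hc : Primrec c) : Primrec fun a => (c a).2.2.2 :=
  Primrec.snd.comp (Primrec.snd.comp (Primrec.snd.comp hc))

theorem pb_okT (hm : Primrec₂ msk) (F : Finset ℕ) (K : ℕ) (i : ℕ∞) {c : α → Tc}
    (hc : Primrec c) : Primrec fun a => okT msk F K i (c a) := by
  unfold okT
  have hz1 : Primrec fun a => (c a).2.2.1.1 := Primrec.fst.comp (pb_cz hc)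
  have hz2 : Primrec fun a => (c a).2.2.1.2 := Primrec.snd.comp (pb_cz hc)
  have hk2 : Primrec fun a => (c a).1 / 2 := primrec_half.comp (pb_c1 hc)
  have hyl : Primrec fun a => (c a).2.1.take ((c a).1 / 2) :=
    Primrec.list_take.comp hk2 (pb_cv hc)
  have hle : Primrec fun a => okZn i (c a).1 (c a).2.2.1 := pb_okZn i (pb_c1 hc) (pb_cz hc)
  have hd : Primrec fun a => dl K (c a).2.1 := (primrec_dl K).comp (pb_cv hc)
  refine pb_and (pb_and (pb_and (pb_mem F (pb_c1 hc)) ?_) ?_) ?_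
  · exact pb_eq (Primrec.list_length.comp (pb_cv hc)) (Primrec.const (K + 1))
  · exact pb_all (pb_cv hc) (primrec_okP i)
  · refine pb_ite (primrec_indep.comp hyl) (pb_or ?_ ?_) ?_
    · refine pb_and (pb_and (pb_and (pb_eq (pb_ce hc) (Primrec.const 0)) hle) ?_) ?_
      · exact pb_not (pb_and (pb_named hk2 (pb_cv hc) hz1) (pb_named hk2 (pb_cv hc) hz2))
      · exact pb_not (pb_old msk hm K (pb_c1 hc) (pb_cv hc) (pb_cz hc))
    · refine pb_and (pb_and (pb_eq (pb_ce hc) (Primrec.const 1)) ?_) ?_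
      · exact pb_eq (pb_lc msk hm hz1 hz2) hz2
      · exact pb_eq (pb_lc msk hm hz1 (Primrec.nat_max.comp hz2 hd)) hz2
    · exact pb_and (pb_eq (pb_ce hc) (Primrec.const 0)) hle

end

theorem primrec_okT (msk : ℕ → ℕ → ℕ) (hm : Primrec₂ msk) (F : Finset ℕ) (K : ℕ) (i : ℕ∞) :
    Primrec (okT msk F K i) := pb_okT msk hm F K i Primrec.id

theorem primrec_qrel (msk : ℕ → ℕ → ℕ) (hm : Primrec₂ msk) (K : ℕ) :
    Primrec (fun x : ℕ × Tc × Tc => qrel msk K x.1 x.2.1 x.2.2) := by
  unfold qrel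
  have hn : Primrec fun x : ℕ × Tc × Tc => x.1 := Primrec.fst
  have hc : Primrec fun x : ℕ × Tc × Tc => x.2.1 := Primrec.fst.comp Primrec.snd
  have hc' : Primrec fun x : ℕ × Tc × Tc => x.2.2 := Primrec.snd.comp Primrec.snd
  have hdl : Primrec fun x : ℕ × Tc × Tc => dl K x.2.1.2.1 := (primrec_dl K).comp (pb_cv hc)
  have hdl' : Primrec fun x : ℕ × Tc × Tc => dl K x.2.2.2.1 := (primrec_dl K).comp (pb_cv hc')
  have hyl : Primrec fun x : ℕ × Tc × Tc => x.2.1.2.1.take (x.2.1.1 / 2) :=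
    Primrec.list_take.comp (primrec_half.comp (pb_c1 hc)) (pb_cv hc)
  have htake : ∀ {c : ℕ × Tc × Tc → Tc}, Primrec c →
      Primrec fun x : ℕ × Tc × Tc => (c x).2.1.take K := fun {c} hc =>
    Primrec.list_take.comp (Primrec.const K) (pb_cv hc)
  have hzz : Primrec fun x : ℕ × Tc × Tc => decide (x.2.1.2.2.1 = x.2.2.2.2.1) :=
    pb_eq (pb_cz hc) (pb_cz hc')
  refine pb_and (pb_and (pb_and (pb_and (pb_eq (pb_c1 hc) (pb_c1 hc'))
    (pb_eq (htake hc') (htake hc))) ?_) ?_) ?_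
  · exact pb_eq hdl (Primrec.const 0)
  · exact pb_eq hdl' (Primrec.nat_mul.comp (Primrec.const 2) (Primrec.succ.comp hn))
  · refine pb_ite (primrec_indep.comp hyl) ?_ ?_
    · refine pb_iteEq (pb_ce hc) (Primrec.const 0) ?_ ?_
      · refine pb_iteEq (pb_ce hc') (Primrec.const 0) hzz ?_
        exact pb_isGarb msk hm K (pb_c1 hc) (pb_cv hc') (Primrec.fst.comp (pb_cz hc'))
          (Primrec.snd.comp (pb_cz hc')) (pb_cz hc)
      · refine pb_iteEq (pb_ce hc') (Primrec.const 0) ?_ ?_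
        · exact pb_isGarb msk hm K (pb_c1 hc) (pb_cv hc) (Primrec.fst.comp (pb_cz hc))
            (Primrec.snd.comp (pb_cz hc)) (pb_cz hc')
        · exact pb_and hzz (pb_not (primrec_testBit.comp (hm.comp (Primrec.fst.comp (pb_cz hc))
            (Primrec.snd.comp (pb_cz hc))) hn))
    · exact pb_and hzz (pb_not (pb_missD msk hm (pb_c1 hc) (pb_cv hc) (pb_cz hc) hn))

theorem primrec_okW (msk : ℕ → ℕ → ℕ) (hm : Primrec₂ msk) (F : Finset ℕ) (K : ℕ) (i : ℕ∞) :
    Primrec (fun x : Tc × (ℕ × ℕ) × ℕ => okW msk F K i x.1 x.2.1 x.2.2) := by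
  unfold okW
  have hc : Primrec fun x : Tc × (ℕ × ℕ) × ℕ => x.1 := Primrec.fst
  have hz' : Primrec fun x : Tc × (ℕ × ℕ) × ℕ => x.2.1 := Primrec.fst.comp Primrec.snd
  have he : Primrec fun x : Tc × (ℕ × ℕ) × ℕ => x.2.2 := Primrec.snd.comp Primrec.snd
  have hz1 : Primrec fun x : Tc × (ℕ × ℕ) × ℕ => x.1.2.2.1.1 := Primrec.fst.comp (pb_cz hc)
  have hz2 : Primrec fun x : Tc × (ℕ × ℕ) × ℕ => x.1.2.2.1.2 := Primrec.snd.comp (pb_cz hc)
  refine pb_and (pb_and (pb_okT msk hm F K i hc) (pb_okZn i (pb_c1 hc) hz')) ?_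
  refine pb_iteEq (pb_ce hc) (Primrec.const 0) ?_ ?_
  · exact pb_and (pb_eq he (Primrec.const 0)) (pb_not (pb_eq hz' (pb_cz hc)))
  · refine pb_iteEq hz' (pa_posn (pb_c1 hc) (pb_cv hc) hz1) ?_ ?_
    · exact pb_disc msk hm hz1 hz2 he
    · exact pb_and (pb_eq he (Primrec.const 0)) (pb_not
        (pb_isGarb msk hm K (pb_c1 hc) (pb_cv hc) hz1 hz2 hz'))

end Pool.Agent.Work.MP_ed0a9a_lc.V
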