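import Pool.Agent.Work.MP_ed0a9a_lc.V.GoodU
import Pool.Agent.Work.MP_ed0a9a_lc.V.PrimB
import Pool.Agent.Work.MP_ed0a9a_lc.MskDefs

/-!
# Module `Kill`: the sort `ST κ` kills the model of dimension `n`

`κ = 2 k` kills the dimension `n = k`; `κ = 2 k + 1` kills all finite dimensions `n ≥ k`.
-/

namespace Pool.Agent.Work.MP_ed0a9a_lc.V

open FirstOrder FirstOrder.Language

private theorem exists_ofFn {N : Type} (n : ℕ) (l : List N) (h : l.length = n) :
    ∃ v : Fin n → N, List.ofFn v = l := by
  subst h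
  exact ⟨l.get, List.ofFn_get l⟩

/-- Relations in a copy. -/
private theorem copy_iff (P : Par) (J : Type) (S : (sig (ari P.ar)).Structure ℕ)
    (r : ℕ → List ℕ → Bool)
    (hr : ∀ (i : ℕ) (v : Fin (ari P.ar i) → ℕ), r i (List.ofFn v) = true ↔
      S.RelMap (n := ari P.ar i) ⟨i, rfl⟩ v)
    (f : U P J ≃[sig (ari P.ar)] ℕ) (s : Sym) (l : List (U P J))
    (hl : l.length = arity P.ar s) :
    r s.code (l.map f) = true ↔ relM P J s l := by
  obtain ⟨v, hv⟩ := exists_ofFn (ari P.ar s.code) (l.map f) (by rw [ari_code]; simpa using hl)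
  have h1 := rel_of_embedding f.toEmbedding s l
  rw [HN_strU] at h1
  rw [← h1]
  have h2 : l.map f.toEmbedding = l.map f := rfl
  rw [h2, ← hv, hr]
  unfold HN
  rw [hd_ofFn]

private noncomputable def x0 (K k n : ℕ) (hkn : k ≤ n) : Fin (K + 1) → Pt (Jt (n : ℕ∞)) :=
  fun j => if h : j.1 < k then Sum.inr ⟨j.1, by exact_mod_cast lt_of_lt_of_le h hkn⟩
    else Sum.inl 0

/-- Named points. -/
private def nd (k n : ℕ) (p : Pt (Jt (n : ℕ∞))) : Prop := ∀ j : Jt (n : ℕ∞), p = Sum.inr j → j.1 < k

/-- The number of a point. -/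
private def pn (k n : ℕ) (p : Pt (Jt (n : ℕ∞))) : ℕ :=
  match p with
  | Sum.inl m => k + m
  | Sum.inr j => j.1

private theorem nm_x0 (K k n : ℕ) (hkn : k ≤ n) (hk : k ≤ K) (p : Pt (Jt (n : ℕ∞)))
    (hp : nd k n p) (a : ℕ) : p = nm k (x0 K k n hkn) a ↔ a = pn k n p := by
  unfold nm
  by_cases ha : a < k
  · rw [dif_pos ⟨ha, by omega⟩]
    unfold x0
    simp only
    rw [dif_pos ha]
    cases p with
    | inl m =>
      constructor
      · intro h
        cases h
      · intro h
        unfold pn at h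
        simp only at h
        omega
    | inr j =>
      constructor
      · intro h
        injection h with h
        rw [h]
        rfl
      · intro h
        congr 1
        apply Subtype.ext
        exact h.symm
  · rw [dif_neg (fun h => ha h.1)]
    cases p with
    | inl m =>
      constructor
      · intro h
        injection h with h
        unfold pn
        simp only
        omega
      · intro h
        unfold pn at h
        simp only at h
        congr 1
        omega
    | inr j =>
      constructor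
      · intro h
        cases h
      · intro h
        have h1 := hp j rfl
        unfold pn at h
        simp only at h
        omega

private theorem lvl_x0 (K k n : ℕ) (hkn : k ≤ n) (hk : k ≤ K) :
    lvl ((List.ofFn (x0 K k n hkn)).take k) = ⊤ := by
  rw [lvl_eq_top_iff]
  have hget : ∀ a, (ha : a < ((List.ofFn (x0 K k n hkn)).take k).length) →
      ∃ h : a < k, ((List.ofFn (x0 K k n hkn)).take k)[a] =
        Sum.inr ⟨a, by exact_mod_cast lt_of_lt_of_le h hkn⟩ := by
    intro a ha
    have ha' : a < k := by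
      rw [List.length_take] at ha
      omega
    refine ⟨ha', ?_⟩
    rw [List.getElem_take, List.getElem_ofFn]
    unfold x0
    simp only
    rw [dif_pos ha']
  constructor
  · rw [List.Nodup, List.pairwise_iff_getElem]
    intro a b ha hb hab h
    obtain ⟨_, ea⟩ := hget a ha
    obtain ⟨_, eb⟩ := hget b hb
    rw [ea, eb] at h
    injection h with h
    have := congrArg Subtype.val h
    simp only at this
    omega
  · intro p hp m h
    obtain ⟨a, ha, rfl⟩ := List.mem_iff_getElem.1 hp
    obtain ⟨_, ea⟩ := hget a ha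
    rw [ea] at h
    cases h

/-- The position of a pair. -/
private def posQ (κ n : ℕ) (z : Pt (Jt (n : ℕ∞)) × Pt (Jt (n : ℕ∞))) : ℕ :=
  if κ % 2 = 1 then pn (κ / 2) n z.2 else Nat.pair (pn (κ / 2) n z.1) (pn (κ / 2) n z.2)

private theorem pos_x0 (K κ n : ℕ) (hkn : κ / 2 ≤ n) (hk : κ / 2 ≤ K)
    (z : Pt (Jt (n : ℕ∞)) × Pt (Jt (n : ℕ∞))) (hz : okZ κ z)
    (h1 : nd (κ / 2) n z.1) (h2 : nd (κ / 2) n z.2) (q : ℕ) :
    z = pos κ (x0 K (κ / 2) n hkn) q ↔ q = posQ κ n z := by
  unfold pos posQ
  by_cases ho : κ % 2 = 1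
  · rw [if_pos ho, if_pos ho, ← nm_x0 K (κ / 2) n hkn hk z.2 h2]
    constructor
    · intro h
      exact congrArg Prod.snd h
    · intro h
      exact Prod.ext (hz ho) h
  · rw [if_neg ho, if_neg ho]
    have e : z = (nm (κ / 2) (x0 K (κ / 2) n hkn) (Nat.unpair q).1,
        nm (κ / 2) (x0 K (κ / 2) n hkn) (Nat.unpair q).2) ↔
        z.1 = nm (κ / 2) (x0 K (κ / 2) n hkn) (Nat.unpair q).1 ∧
        z.2 = nm (κ / 2) (x0 K (κ / 2) n hkn) (Nat.unpair q).2 := Prod.ext_iff
    rw [e, nm_x0 K (κ / 2) n hkn hk z.1 h1, nm_x0 K (κ / 2) n hkn hk z.2 h2]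
    constructor
    · rintro ⟨a, b⟩
      rw [← a, ← b, Nat.pair_unpair]
    · intro h
      rw [h, Nat.unpair_pair]
      exact ⟨rfl, rfl⟩

theorem kill (P : Par) (κ : ℕ) (hk : κ ∈ P.F) (n : ℕ) (hkn : κ / 2 ≤ n)
    (hev : κ % 2 = 0 → n = κ / 2) (hD : Diag P.msk) :
    ¬ HasCompCopy (ari P.ar) (U P (Jt (n : ℕ∞))) := by
  rintro ⟨S, r, hrc, hr, ⟨f⟩⟩
  have hkK := P.hF κ hk
  have hcopy := copy_iff P (Jt (n : ℕ∞)) S r hr f
  set X := x0 P.K (κ / 2) n hkn with hX
  -- the exceptional elements
  have hfin : {u : ℕ | ∃ z, ∃ hz : okZ κ z, ¬ (nd (κ / 2) n z.1 ∧ nd (κ / 2) n z.2) ∧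
      u = f (U.t κ hk X z hz)}.Finite := by
    by_cases ho : κ % 2 = 1
    · have hJ : Finite (Jt (n : ℕ∞)) := by
        refine Finite.of_injective (β := Fin n) (fun j => ⟨j.1, by exact_mod_cast j.2⟩) ?_
        intro j j' h
        apply Subtype.ext
        exact congrArg Fin.val h
      refine (Set.finite_range (fun j : Jt (n : ℕ∞) =>
        f (U.t κ hk X (Sum.inl 0, Sum.inr j) (fun _ => rfl)))).subset ?_
      rintro u ⟨z, hz, hne, rfl⟩
      have h1 := hz ho
      have h2 : ∃ j, z.2 = Sum.inr j := by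
        by_contra hno
        apply hne
        refine ⟨?_, ?_⟩
        · intro j hj
          rw [h1] at hj
          cases hj
        · intro j hj
          exact absurd ⟨j, hj⟩ hno
      obtain ⟨j, hj⟩ := h2
      obtain ⟨z1, z2⟩ := z
      simp only at h1 hj
      subst h1 hj
      exact ⟨j, rfl⟩
    · have hnk := hev (by omega)
      convert Set.finite_empty
      ext u
      rw [Set.mem_empty_iff_false, iff_false]
      rintro ⟨z, hz, hne, -⟩
      apply hne
      have : ∀ p : Pt (Jt (n : ℕ∞)), nd (κ / 2) n p := by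
        intro p j _
        have := j.2
        rw [← hnk]
        exact_mod_cast this
      exact ⟨this _, this _⟩
  set E : Finset ℕ := hfin.toFinset with hE
  set p : ℕ → ℕ := fun j => if h : j < P.K + 1 then f (U.d (X ⟨j, h⟩)) else 0 with hp
  let fib : ℕ → Bool := fun u =>
    (r (Sym.ST κ).code [u] && (List.range (P.K + 1)).all (fun j => r (Sym.P j).code [u, p j])) &&
      !(decide (u ∈ E))
  let Qr : ℕ → ℕ → ℕ → Bool := fun n u u' => r (Sym.Q n).code [u, u']
  have hfibc : Computable fib := by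
    have h1 : Computable (fun u : ℕ => r (Sym.ST κ).code [u]) :=
      hrc.comp (Computable.const _)
        (Primrec.list_cons.comp Primrec.id (Primrec.const [])).to_comp
    have h2 : ∀ n, Computable (fun u : ℕ =>
        (List.range n).all (fun j => r (Sym.P j).code [u, p j])) := by
      intro n
      induction n with
      | zero => simpa using Computable.const true
      | succ n ih =>
        have h3 : Computable (fun u : ℕ => r (Sym.P n).code [u, p n]) :=
          hrc.comp (Computable.const _)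
            (Primrec.list_cons.comp Primrec.id (Primrec.const [p n])).to_comp
        have h4 : Computable (fun u : ℕ => (List.range n).all
            (fun j => r (Sym.P j).code [u, p j]) && r (Sym.P n).code [u, p n]) :=
          (Primrec.and.to_comp).comp ih h3
        refine h4.of_eq (fun u => ?_)
        rw [List.range_succ, List.all_append]
        simp
    have h5 : Computable (fun u : ℕ => !(decide (u ∈ E))) :=
      (pb_not (pb_mem E Primrec.id)).to_comp
    exact (Primrec.and.to_comp).comp ((Primrec.and.to_comp).comp h1 (h2 _)) h5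
  have hQc : Computable (fun x : ℕ × ℕ × ℕ => Qr x.1 x.2.1 x.2.2) := by
    have h1 : Computable (fun x : ℕ × ℕ × ℕ => (Sym.Q x.1).code) :=
      (Primrec₂.natPair.comp (Primrec.const 4) Primrec.fst).to_comp
    have h2 : Computable (fun x : ℕ × ℕ × ℕ => [x.2.1, x.2.2]) :=
      (Primrec.list_cons.comp (Primrec.fst.comp Primrec.snd)
        (Primrec.list_cons.comp (Primrec.snd.comp Primrec.snd) (Primrec.const []))).to_comp
    exact hrc.comp h1 h2
  have hfib : ∀ u, fib u = true ↔ ∃ z, ∃ hz : okZ κ z,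
      (nd (κ / 2) n z.1 ∧ nd (κ / 2) n z.2) ∧ u = f (U.t κ hk X z hz) := by
    intro u
    obtain ⟨y, rfl⟩ := f.surjective u
    have hST : r (Sym.ST κ).code [f y] = true ↔ relM P _ (.ST κ) [y] := hcopy (.ST κ) [y] rfl
    have hPj : ∀ j, (h : j < P.K + 1) → (r (Sym.P j).code [f y, p j] = true ↔
        relM P _ (.P j) [y, .d (X ⟨j, h⟩)]) := by
      intro j h
      have := hcopy (.P j) [y, .d (X ⟨j, h⟩)] rfl
      rw [← this]
      have hpj : p j = f (U.d (X ⟨j, h⟩)) := by
        simp only [hp]
        rw [dif_pos h]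
      rw [hpj]
      rfl
    have hEu : f y ∈ E ↔ ∃ z, ∃ hz : okZ κ z, ¬ (nd (κ / 2) n z.1 ∧ nd (κ / 2) n z.2) ∧
        f y = f (U.t κ hk X z hz) := by
      rw [hE, Set.Finite.mem_toFinset]
      rfl
    simp only [fib, Bool.and_eq_true, List.all_eq_true, List.mem_range, Bool.not_eq_true',
      decide_eq_false_iff_not]
    rw [hEu]
    constructor
    · rintro ⟨⟨h1, h2⟩, h3⟩
      rw [hST] at h1
      obtain ⟨hk', x, z, hz, rfl⟩ := inv_ST h1
      have hx : x = X := by
        funext j
        have h4 := (hPj j.1 j.2).1 (h2 j.1 j.2)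
        simp only [relM] at h4
        obtain ⟨_, h4⟩ := h4
        exact h4
      subst hx
      refine ⟨z, hz, ?_, rfl⟩
      by_contra hne
      exact h3 ⟨z, hz, hne, rfl⟩
    · rintro ⟨z, hz, hgd, hy⟩
      have hy := f.injective hy
      subst hy
      refine ⟨⟨hST.2 (by simp [relM]), fun j hj => (hPj j hj).2 ?_⟩, ?_⟩
      · simp only [relM]
        exact ⟨hj, trivial⟩
      · rintro ⟨z', hz', hne, he⟩
        have he := f.injective he
        injection he with _ _ he
        subst he
        exact hne hgd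
  have hinf : {u | fib u = true}.Infinite := by
    refine Set.infinite_of_injective_forall_mem
      (f := fun m : ℕ => f (U.t κ hk X (Sum.inl 0, Sum.inl m) (fun _ => rfl))) ?_ ?_
    · intro m m' h
      have h1 := f.injective h
      injection h1 with _ _ h1
      have h2 := congrArg Prod.snd h1
      simp only at h2
      injection h2
    · intro m
      refine (hfib _).2 ⟨_, _, ⟨?_, ?_⟩, rfl⟩
      · intro j hj
        cases hj
      · intro j hj
        cases hj
  have hQ : ∀ n τ τ', Qr n (f τ) (f τ') = true ↔ relM P _ (.Q n) [τ, τ'] :=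
    fun n τ τ' => hcopy (.Q n) [τ, τ'] rfl
  obtain ⟨e, L, hcard, hLf, hcase⟩ := hD fib Qr hfibc hQc hinf
  have hmiss : ∀ z, okZ κ z → nd (κ / 2) n z.1 → nd (κ / 2) n z.2 → ∀ (N : ℕ),
      (miss P κ X z N ↔
      (Nat.unpair N).2 = posQ κ n z ∧ (P.lim (Nat.unpair N).2).testBit N = true) := by
    intro z hz h1 h2 N
    unfold miss missP
    rw [hX, lvl_x0 P.K (κ / 2) n hkn hkK, Par.mskI_top, pos_x0 P.K κ n hkn hkK z hz h1 h2]
  have hlast : X (Fin.last P.K) = Sum.inl 0 := by
    rw [hX]
    unfold x0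
    rw [dif_neg]
    simp only [Fin.val_last]
    omega
  rcases hcase with ⟨q, heq, ⟨t₀, ht₀⟩, u, hu, hu'⟩ | hcase
  · obtain ⟨z, hz, ⟨hz1, hz2⟩, rfl⟩ := (hfib u).1 (hLf u hu)
    set N := Nat.pair e q with hN
    have hlim : (P.lim q).testBit N = false := by
      obtain ⟨t₁, ht₁⟩ := P.lim_spec q
      rw [← ht₁ (max t₀ t₁) (le_max_right _ _)]
      exact ht₀ _ (le_max_left _ _)
    have hnm : ¬ miss P κ X z N := by
      rw [hmiss z hz hz1 hz2]
      rintro ⟨-, h⟩
      rw [hN, Nat.unpair_pair] at h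
      simp only at h
      rw [← hN, hlim] at h
      exact absurd h (by simp)
    have h1 := hu' (f (U.t κ hk (Function.update X (Fin.last P.K) (Sum.inl (N + 1))) z hz))
    have h2 := (hQ N (U.t κ hk X z hz)
      (U.t κ hk (Function.update X (Fin.last P.K) (Sum.inl (N + 1))) z hz)).2 (by
        simp only [relM]
        refine ⟨trivial, trivial, ?_, hlast, ?_, hnm⟩
        · intro j hj
          rw [Function.update_of_ne]
          intro h
          rw [h] at hj
          simp at hj
        · rw [Function.update_self])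
    rw [h1] at h2
    exact absurd h2 (by simp)
  · -- some element of `L` is at a position `≥ e`
    have hex : ∃ z, ∃ hz : okZ κ z, (nd (κ / 2) n z.1 ∧ nd (κ / 2) n z.2) ∧
        f (U.t κ hk X z hz) ∈ L ∧ e ≤ posQ κ n z := by
      by_contra hno
      push Not at hno
      have hL : ∀ u ∈ L, ∃ z, ∃ hz : okZ κ z, (nd (κ / 2) n z.1 ∧ nd (κ / 2) n z.2) ∧
        u = f (U.t κ hk X z hz) := fun u hu => (hfib u).1 (hLf u hu)
      choose! ζ hζ1 hζ2 hζ using hL
      have hle : L.card ≤ (Finset.range e).card := by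
        refine Finset.card_le_card_of_injOn (fun u => posQ κ n (ζ u)) ?_ ?_
        · intro u hu
          have hu' : u ∈ L := hu
          have := hno (ζ u) (hζ1 u hu') (hζ2 u hu') (by rw [← hζ u hu']; exact hu')
          simpa using this
        · intro u hu u' hu' h
          have h1 : ζ u = ζ u' := by
            have e1 := (pos_x0 P.K κ n hkn hkK (ζ u) (hζ1 u hu) (hζ2 u hu).1 (hζ2 u hu).2
              (posQ κ n (ζ u))).2 rfl
            have e2 := (pos_x0 P.K κ n hkn hkK (ζ u') (hζ1 u' hu') (hζ2 u' hu').1 (hζ2 u' hu').2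
              (posQ κ n (ζ u'))).2 rfl
            rw [e1, e2]
            simp only at h
            rw [h]
          rw [hζ u hu, hζ u' hu']
          congr 2
      rw [hcard, Finset.card_range] at hle
      omega
    obtain ⟨z, hz, ⟨hz1, hz2⟩, hzL, hez⟩ := hex
    obtain ⟨⟨t₀, ht₀⟩, hall⟩ := hcase (posQ κ n z) hez
    obtain ⟨u', hu'⟩ := hall _ hzL
    obtain ⟨y, rfl⟩ := f.surjective u'
    set N := Nat.pair e (posQ κ n z) with hN
    have hlim : (P.lim (posQ κ n z)).testBit N = true := by
      obtain ⟨t₁, ht₁⟩ := P.lim_spec (posQ κ n z)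
      rw [← ht₁ (max t₀ t₁) (le_max_right _ _)]
      exact ht₀ _ (le_max_left _ _)
    have hm : miss P κ X z N := by
      rw [hmiss z hz hz1 hz2]
      have e1 : Nat.unpair N = (e, posQ κ n z) := by rw [hN, Nat.unpair_pair]
      rw [e1]
      exact ⟨rfl, hlim⟩
    have h1 := (hQ N _ _).1 hu'
    rcases y with p' | ⟨k', hk', x, z', hz'⟩ | ⟨k', hk', x, z', z'', hz', hz'', hne⟩
    · simp [relM] at h1
    · simp only [relM] at h1
      exact h1.2.2.2.2.2 hm
    · simp [relM] at h1

end Pool.Agent.Work.MP_ed0a9a_lc.V
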