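import Pool.Agent.Work.MP_ed0a9a_lc.V.Alive
import Pool.Agent.Work.MP_ed0a9a_lc.V.Kill
import Pool.Agent.Work.MP_ed0a9a_lc.V.KillR
import Pool.Agent.Work.MP_ed0a9a_lc.MskPrim
import Pool.Agent.Work.MP_ed0a9a_lc.Msk
import Pool.Agent.Work.MP_ed0a9a_lc.Kb
import Pool.Agent.Work.MP_ed0a9a_lc.V.AxAll
import Pool.Agent.Work.MP_ed0a9a_lc.V.ClassU
import Pool.Agent.Work.MP_ed0a9a_lc.V.Elem
import Pool.Agent.Work.MP_ed0a9a_lc.V.Ari

/-!
# The main theorem
-/

namespace Pool.Agent.Work.MP_ed0a9a_lc.V

open FirstOrder FirstOrder.Language

/-- `X ⊆ ω ∪ {ω}` is the spectrum of constructive models of a complete theory `T` in the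
signature `sig a`, `a` computable, which is `ℵ₁`-categorical and not `ℵ₀`-categorical: the
countable models of `T` are, up to isomorphism, the `A i`, `i ∈ ℕ∞`, `A i` is elementarily
embeddable into `A j` iff `i ≤ j`, and `A i` has a computable copy iff `i ∈ X`. -/
def IsSpectrum (X : Set ℕ∞) : Prop :=
  ∃ (a : ℕ → ℕ) (T : (sig a).Theory) (A : ℕ∞ → Type) (_ : ∀ i, (sig a).Structure (A i)),
    Computable a ∧ T.IsComplete ∧ (Cardinal.aleph 1 : Cardinal.{0}).Categorical T ∧
    ¬ (Cardinal.aleph0 : Cardinal.{0}).Categorical T ∧
    (∀ i, Countable (A i) ∧ A i ⊨ T) ∧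
    (∀ (N : Type) [Nonempty N] [Countable N] [(sig a).Structure N], N ⊨ T →
      ∃ i, Nonempty (A i ≃[sig a] N)) ∧
    (∀ i j, Nonempty (A i ↪ₑ[sig a] A j) ↔ i ≤ j) ∧
    ∀ i, HasCompCopy a (A i) ↔ i ∈ X

theorem spectrum_of (P : Par) (har : Computable P.ar) (X : Set ℕ∞)
    (h : ∀ i, HasCompCopy (ari P.ar) (U P (Jt i)) ↔ i ∈ X) : IsSpectrum X := by
  obtain ⟨T, hTT⟩ := exists_theory P
  have hU : ∀ J : Type, U P J ⊨ T := by
    intro J
    rw [hTT]
    refine ⟨?_, dup_strU P J⟩
    rw [HN_strU]
    exact goodU P J
  have hT : ∀ (N : Type) [Nonempty N] [S : (sig (ari P.ar)).Structure N], N ⊨ T →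
      ∃ J : Type, Nonempty (U P J ≃[sig (ari P.ar)] N) := by
    intro N _ S hN
    rw [hTT] at hN
    exact classify P hN.1 hN.2
  refine ⟨ari P.ar, T, fun i => U P (Jt i), fun i => strU P (Jt i), computable_ari _ har,
    complete P T hT hU, categorical_aleph1 P T hT, not_categorical_aleph0 P T hU,
    fun i => ⟨countable_U P (Jt i), hU _⟩, ?_, elem_iff P T hT hU, h⟩
  intro N _ _ _ hN
  obtain ⟨J, ⟨f⟩⟩ := hT N hN
  have hJ : Countable J := by
    have : Function.Injective (fun j : J => f (U.d (Sum.inr j))) := by
      intro j j' hj
      have := f.injective hj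
      simpa using this
    exact this.countable
  obtain ⟨i, ⟨e⟩⟩ := exists_Jt J
  obtain ⟨F⟩ := std_equiv P e
  exact ⟨i, ⟨f.comp F.symm⟩⟩

/-- The set of the codes of the sorts which kill exactly the dimensions in `D`. -/
def evens (D : Finset ℕ) : Finset ℕ := D.image (fun k => 2 * k)

theorem mem_evens (D : Finset ℕ) (κ : ℕ) : κ ∈ evens D ↔ κ % 2 = 0 ∧ κ / 2 ∈ D := by
  unfold evens
  rw [Finset.mem_image]
  constructor
  · rintro ⟨k, hk, rfl⟩
    refine ⟨by omega, ?_⟩
    have : 2 * k / 2 = k := by omega
    rwa [this]
  · rintro ⟨h1, h2⟩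
    exact ⟨κ / 2, h2, by omega⟩

/-- Every finite and every cofinite subset of `ω ∪ {ω}` is the spectrum of an
`ℵ₁`-categorical, not `ℵ₀`-categorical theory. -/
theorem main (X : Set ℕ∞) (hX : X.Finite ∨ Xᶜ.Finite) : IsSpectrum X := by
  have hmsk : Primrec₂ mskD := primrec_mskD
  have hkbD : Computable (fun x : ℕ × ℕ × ℕ => kbD x.1 x.2.1 x.2.2) := primrec_kbD.to_comp
  classical
  rcases hX with hX | hX
  · -- finite
    obtain ⟨n, hn⟩ : ∃ n : ℕ, ∀ m : ℕ, (m : ℕ∞) ∈ X → m < n := by
      refine ⟨hX.toFinset.sup ENat.toNat + 1, ?_⟩
      intro m hi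
      have hm : m ≤ hX.toFinset.sup ENat.toNat :=
        Finset.le_sup (f := ENat.toNat) (hX.mem_toFinset.2 hi)
      exact Nat.lt_succ_of_le hm
    let D : Finset ℕ := (Finset.range n).filter (fun k => (k : ℕ∞) ∉ X)
    have hD : ∀ k, k ∈ D ↔ k < n ∧ (k : ℕ∞) ∉ X := by
      intro k
      rw [Finset.mem_filter, Finset.mem_range]
    by_cases htop : (⊤ : ℕ∞) ∈ X
    · let P : Par := {
        F := insert (2 * n + 1) (evens D)
        K := n
        hF := by
          intro κ hκ
          rw [Finset.mem_insert, mem_evens, hD] at hκ
          omega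
        msk := mskD
        msk_bit := mskD_bit
        msk_lim := mskD_lim
        ar := fun _ => 0
        kb := fun _ _ _ => false
        kb_mono := by simp }
      refine spectrum_of P (Computable.const 0) X ?_
      intro i
      constructor
      · intro hc
        by_contra hi
        rcases eq_or_ne i ⊤ with rfl | hne
        · exact hi htop
        · obtain ⟨k, rfl⟩ := ENat.ne_top_iff_exists.1 hne
          by_cases hkn : k < n
          · refine kill P (2 * k) ?_ k (by omega) (by omega) diag_mskD hc
            show 2 * k ∈ insert (2 * n + 1) (evens D)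
            rw [Finset.mem_insert, mem_evens, hD]
            right
            have : 2 * k / 2 = k := by omega
            rw [this]
            exact ⟨by omega, hkn, hi⟩
          · refine kill P (2 * n + 1) ?_ k (by omega) (by omega) diag_mskD hc
            show 2 * n + 1 ∈ insert (2 * n + 1) (evens D)
            rw [Finset.mem_insert]
            exact Or.inl rfl
      · intro hi
        refine alive P hmsk (Computable.const false) i ?_ ⟨fun _ _ => false, ?_, ?_⟩
        · intro κ hκ
          have hκ' : κ ∈ insert (2 * n + 1) (evens D) := hκ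
          rw [Finset.mem_insert, mem_evens, hD] at hκ'
          refine ⟨?_, ?_⟩
          · rintro h0 rfl
            rcases hκ' with h1 | h1
            · omega
            · exact h1.2.2 hi
          · intro h1
            have hκn : κ / 2 = n := by omega
            rcases eq_or_ne i ⊤ with rfl | hne
            · exact Or.inr rfl
            · left
              obtain ⟨k, rfl⟩ := ENat.ne_top_iff_exists.1 hne
              rw [hκn]
              exact_mod_cast hn k hi
        · exact Computable.const false
        · intro e j _
          simp [P]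
    · let P : Par := {
        F := evens D
        K := n
        hF := by
          intro κ hκ
          rw [mem_evens, hD] at hκ
          omega
        msk := mskD
        msk_bit := mskD_bit
        msk_lim := mskD_lim
        ar := fun _ => n
        kb := kbD
        kb_mono := kbD_mono }
      refine spectrum_of P (Computable.const n) X ?_
      intro i
      constructor
      · intro hc
        by_contra hi
        by_cases hin : (n : ℕ∞) ≤ i
        · exact killR P i kbD_diag (fun e => hin) hc
        · have hne : i ≠ ⊤ := by rintro rfl; exact hin le_top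
          obtain ⟨k, rfl⟩ := ENat.ne_top_iff_exists.1 hne
          have hkn : k < n := by
            have := not_le.1 hin
            exact_mod_cast this
          refine kill P (2 * k) ?_ k (by omega) (by omega) diag_mskD hc
          show 2 * k ∈ evens D
          rw [mem_evens, hD]
          have : 2 * k / 2 = k := by omega
          rw [this]
          exact ⟨by omega, hkn, hi⟩
      · intro hi
        refine alive P hmsk hkbD i ?_ ⟨fun _ _ => false, Computable.const false, ?_⟩
        · intro κ hκ
          have hκ' : κ ∈ evens D := hκ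
          rw [mem_evens, hD] at hκ'
          refine ⟨?_, by omega⟩
          rintro h0 rfl
          exact hκ'.2.2 hi
        · intro e j he
          exfalso
          have hne : i ≠ ⊤ := fun h => htop (h ▸ hi)
          obtain ⟨k, rfl⟩ := ENat.ne_top_iff_exists.1 hne
          have h1 := hn k hi
          have h2 : n ≤ k := by
            have : ((n : ℕ) : ℕ∞) ≤ (k : ℕ∞) := he
            exact_mod_cast this
          omega
  · -- cofinite
    have hfin : {k : ℕ | (k : ℕ∞) ∉ X}.Finite :=
      hX.preimage (f := fun k : ℕ => (k : ℕ∞)) (by
        intro x _ y _ h; simpa using h)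
    let D : Finset ℕ := hfin.toFinset
    have hD : ∀ k, k ∈ D ↔ (k : ℕ∞) ∉ X := by
      intro k
      rw [Set.Finite.mem_toFinset]
      rfl
    by_cases htop : (⊤ : ℕ∞) ∈ X
    · let P : Par := {
        F := evens D
        K := D.sup id
        hF := by
          intro κ hκ
          rw [mem_evens] at hκ
          exact Finset.le_sup (f := id) hκ.2
        msk := mskD
        msk_bit := mskD_bit
        msk_lim := mskD_lim
        ar := fun _ => 0
        kb := fun _ _ _ => false
        kb_mono := by simp }
      refine spectrum_of P (Computable.const 0) X ?_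
      intro i
      constructor
      · intro hc
        by_contra hi
        rcases eq_or_ne i ⊤ with rfl | hne
        · exact hi htop
        · obtain ⟨k, rfl⟩ := ENat.ne_top_iff_exists.1 hne
          refine kill P (2 * k) ?_ k (by omega) (by omega) diag_mskD hc
          show 2 * k ∈ evens D
          rw [mem_evens, hD]
          have : 2 * k / 2 = k := by omega
          rw [this]
          exact ⟨by omega, hi⟩
      · intro hi
        refine alive P hmsk (Computable.const false) i ?_ ⟨fun _ _ => false, ?_, ?_⟩
        · intro κ hκ
          have hκ' : κ ∈ evens D := hκ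
          rw [mem_evens, hD] at hκ'
          refine ⟨?_, by omega⟩
          rintro h0 rfl
          exact hκ'.2 hi
        · exact Computable.const false
        · intro e j _
          simp [P]
    · let P : Par := {
        F := evens D
        K := D.sup id
        hF := by
          intro κ hκ
          rw [mem_evens] at hκ
          exact Finset.le_sup (f := id) hκ.2
        msk := mskD
        msk_bit := mskD_bit
        msk_lim := mskD_lim
        ar := fun e => e + 1
        kb := kbD
        kb_mono := kbD_mono }
      refine spectrum_of P Computable.succ X ?_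
      intro i
      constructor
      · intro hc
        by_contra hi
        rcases eq_or_ne i ⊤ with rfl | hne
        · exact killR P ⊤ kbD_diag (fun e => le_top) hc
        · obtain ⟨k, rfl⟩ := ENat.ne_top_iff_exists.1 hne
          refine kill P (2 * k) ?_ k (by omega) (by omega) diag_mskD hc
          show 2 * k ∈ evens D
          rw [mem_evens, hD]
          have : 2 * k / 2 = k := by omega
          rw [this]
          exact ⟨by omega, hi⟩
      · intro hi
        have hne : i ≠ ⊤ := fun h => htop (h ▸ hi)
        obtain ⟨m, rfl⟩ := ENat.ne_top_iff_exists.1 hne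
        obtain ⟨g, hg, hg'⟩ := kbD_comp_lt m
        refine alive P hmsk hkbD m ?_ ⟨g, hg, ?_⟩
        · intro κ hκ
          have hκ' : κ ∈ evens D := hκ
          rw [mem_evens, hD] at hκ'
          refine ⟨?_, by omega⟩
          intro h0 h
          exact hκ'.2 (h ▸ hi)
        · intro e j he
          have he' : e + 1 ≤ m := by
            have : ((e + 1 : ℕ) : ℕ∞) ≤ (m : ℕ∞) := he
            exact_mod_cast this
          exact hg' e (by omega) j

end Pool.Agent.Work.MP_ed0a9a_lc.V
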