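import Pool.Agent.Work.MP_ed0a9a_lc.V.IsoRel
import Pool.Agent.Work.MP_ed0a9a_lc.V.PrimC
import Pool.Agent.Work.MP_ed0a9a_lc.Transfer
import Pool.Agent.Work.MP_ed0a9a_lc.V.Cat

/-!
# Module `Alive`: the computable copy
-/

namespace Pool.Agent.Work.MP_ed0a9a_lc.V

theorem alive (P : Par) (hm : Primrec₂ P.msk)
    (hk : Computable (fun x : ℕ × ℕ × ℕ => P.kb x.1 x.2.1 x.2.2)) (i : ℕ∞)
    (hF : ∀ κ ∈ P.F, Fok i κ)
    (hg : ∃ g : ℕ → ℕ → Bool, Computable₂ g ∧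
      ∀ e j, (P.ar e : ℕ∞) ≤ i → (g e j = true ↔ ∃ t, P.kb e j t = true)) :
    HasCompCopy (ari P.ar) (U P (Jt i)) := by
  obtain ⟨g, hgc, hg⟩ := hg
  refine hasCompCopy_of (ari P.ar) (okRaw P i) (computable_okRaw P hm i) (dU P i)
    (dU_inj P i hF) (dU_surj P i hF) (relC P g) (computable_relC P hm hk g hgc) ?_
  intro n v hv
  rw [relC_iff P i hF g hg n (List.ofFn v) (by simp) (by
    intro x hx
    rw [List.mem_ofFn] at hx
    obtain ⟨t, rfl⟩ := hx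
    exact hv t), List.map_ofFn]
  rfl

end Pool.Agent.Work.MP_ed0a9a_lc.V
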