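import Pool.Agent.Work.MP_ed0a9a_lc.V.Form

/-!
# Definable properties of assignments

`Dfb ar Φ`: the property `Φ` of an assignment `v` of elements to the variables is given by a
formula, uniformly in all structures.  Closure properties, and `Axb` from `Dfb`.
-/

set_option linter.unusedVariables false

namespace Pool.Agent.Work.MP_ed0a9a_lc.V

open FirstOrder FirstOrder.Language

variable {ar : ℕ → ℕ}

/-- The property `Φ` of assignments is given by a formula. -/
def Dfb (ar : ℕ → ℕ) (Φ : ∀ N : Type, (Sym → List N → Prop) → (ℕ → N) → Prop) : Prop :=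
  ∃ φ : Fo ar, ∀ (N : Type) [S : (sig (ari ar)).Structure N] (v : ℕ → N),
    φ.Realize v ↔ Φ N (HN S) v

namespace Dfb

variable {Φ Ψ : ∀ N : Type, (Sym → List N → Prop) → (ℕ → N) → Prop}

theorem congr (h : Dfb ar Φ) (h' : ∀ (N : Type) (S : (sig (ari ar)).Structure N) (v : ℕ → N),
    Φ N (HN S) v ↔ Ψ N (HN S) v) : Dfb ar Ψ := by
  obtain ⟨φ, hφ⟩ := h
  exact ⟨φ, fun N S v => (hφ N v).trans (h' N S v)⟩

theorem rel (s : Sym) (l : List ℕ) : Dfb ar (fun _ H v => H s (l.map v)) :=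
  ⟨rl s l, fun _ _ v => realize_rl s l v⟩

theorem rel1 (s : Sym) (x : ℕ) : Dfb ar (fun _ H v => H s [v x]) := rel s [x]

theorem rel2 (s : Sym) (x y : ℕ) : Dfb ar (fun _ H v => H s [v x, v y]) := rel s [x, y]

theorem eq (x y : ℕ) : Dfb ar (fun _ _ v => v x = v y) :=
  ⟨Term.equal (Term.var x) (Term.var y), fun N S v => by
    rw [Formula.realize_equal, Term.realize_var, Term.realize_var]⟩

theorem tru : Dfb ar (fun _ _ _ => True) :=
  ⟨⊤, fun N S v => by simp [Formula.Realize]⟩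

theorem fls : Dfb ar (fun _ _ _ => False) :=
  ⟨⊥, fun N S v => by simp [Formula.Realize]⟩

theorem prp (p : Prop) : Dfb ar (fun _ _ _ => p) := by
  by_cases h : p
  · exact tru.congr fun _ _ _ => by simp [h]
  · exact fls.congr fun _ _ _ => by simp [h]

theorem not (h : Dfb ar Φ) : Dfb ar (fun N H v => ¬ Φ N H v) := by
  obtain ⟨φ, hφ⟩ := h
  exact ⟨φ.not, fun N S v => by rw [Formula.realize_not, hφ]⟩

theorem and (h : Dfb ar Φ) (h' : Dfb ar Ψ) : Dfb ar (fun N H v => Φ N H v ∧ Ψ N H v) := by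
  obtain ⟨φ, hφ⟩ := h
  obtain ⟨ψ, hψ⟩ := h'
  exact ⟨φ ⊓ ψ, fun N S v => by rw [Formula.realize_inf, hφ, hψ]⟩

theorem or (h : Dfb ar Φ) (h' : Dfb ar Ψ) : Dfb ar (fun N H v => Φ N H v ∨ Ψ N H v) := by
  obtain ⟨φ, hφ⟩ := h
  obtain ⟨ψ, hψ⟩ := h'
  exact ⟨φ ⊔ ψ, fun N S v => by rw [Formula.realize_sup, hφ, hψ]⟩

theorem imp (h : Dfb ar Φ) (h' : Dfb ar Ψ) : Dfb ar (fun N H v => Φ N H v → Ψ N H v) := by
  obtain ⟨φ, hφ⟩ := h
  obtain ⟨ψ, hψ⟩ := h'
  exact ⟨φ.imp ψ, fun N S v => by rw [Formula.realize_imp, hφ, hψ]⟩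

theorem iff (h : Dfb ar Φ) (h' : Dfb ar Ψ) : Dfb ar (fun N H v => (Φ N H v ↔ Ψ N H v)) :=
  ((h.imp h').and (h'.imp h)).congr fun _ _ _ =>
    ⟨fun ⟨a, b⟩ => ⟨a, b⟩, fun h => ⟨h.1, h.2⟩⟩

theorem fin {ι : Type} [Finite ι] {Θ : ι → ∀ N : Type, (Sym → List N → Prop) → (ℕ → N) → Prop}
    (h : ∀ i, Dfb ar (Θ i)) : Dfb ar (fun N H v => ∀ i, Θ i N H v) := by
  choose φ hφ using h
  exact ⟨Formula.iInf φ, fun N S v => by
    rw [Formula.realize_iInf]
    exact forall_congr' fun i => hφ i N v⟩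

theorem exf {ι : Type} [Finite ι] {Θ : ι → ∀ N : Type, (Sym → List N → Prop) → (ℕ → N) → Prop}
    (h : ∀ i, Dfb ar (Θ i)) : Dfb ar (fun N H v => ∃ i, Θ i N H v) := by
  choose φ hφ using h
  exact ⟨Formula.iSup φ, fun N S v => by
    rw [Formula.realize_iSup]
    exact exists_congr fun i => hφ i N v⟩

/-- quantification over the elements of a finite set -/
theorem exF {F : Finset ℕ} {Θ : ℕ → ∀ N : Type, (Sym → List N → Prop) → (ℕ → N) → Prop}
    (h : ∀ i, Dfb ar (Θ i)) : Dfb ar (fun N H v => ∃ i ∈ F, Θ i N H v) :=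
  (exf (ι := {i // i ∈ F}) (Θ := fun i => Θ i.1) (fun i => h i.1)).congr fun N S v =>
    ⟨fun ⟨i, hi⟩ => ⟨i.1, i.2, hi⟩, fun ⟨i, hi, h⟩ => ⟨⟨i, hi⟩, h⟩⟩

theorem ex (x : ℕ) (h : Dfb ar Φ) : Dfb ar (fun N H v => ∃ y, Φ N H (Function.update v x y)) := by
  obtain ⟨φ, hφ⟩ := h
  exact ⟨exv x φ, fun N S v => by
    rw [realize_exv]
    exact exists_congr fun y => hφ N _⟩

/-- the quantifier with the result of the substitution given -/
theorem ex' (x : ℕ) (h : Dfb ar Φ) (h' : ∀ (N : Type) (S : (sig (ari ar)).Structure N) (v : ℕ → N),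
    Ψ N (HN S) v ↔ ∃ y, Φ N (HN S) (Function.update v x y)) : Dfb ar Ψ :=
  (ex x h).congr fun N S v => (h' N S v).symm

/-- quantification over several variables -/
theorem exs (l : List ℕ) (h : Dfb ar Φ) :
    Dfb ar (fun N H v => ∃ v' : ℕ → N, (∀ y, y ∉ l → v' y = v y) ∧ Φ N H v') := by
  induction l with
  | nil =>
    refine h.congr fun N S v => ⟨fun h => ⟨v, fun _ _ => rfl, h⟩, ?_⟩
    rintro ⟨v', h1, h2⟩
    have : v' = v := funext fun y => h1 y List.not_mem_nil
    rwa [← this]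
  | cons a l ih =>
    refine ex' a ih fun N S v => ?_
    constructor
    · rintro ⟨v', h1, h2⟩
      refine ⟨v' a, v', fun y hy => ?_, h2⟩
      by_cases hya : y = a
      · rw [hya, Function.update_self]
      · rw [Function.update_of_ne hya]
        exact h1 y (by simp [hya, hy])
    · rintro ⟨y, v', h1, h2⟩
      refine ⟨v', fun z hz => ?_, h2⟩
      rw [List.mem_cons, not_or] at hz
      rw [h1 z hz.2, Function.update_of_ne hz.1]

/-- quantification over a tuple -/
theorem exT (n m : ℕ) (h : Dfb ar Φ) : Dfb ar (fun N H v => ∃ x : Fin n → N,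
    Φ N H (fun i => if hi : m ≤ i ∧ i - m < n then x ⟨i - m, hi.2⟩ else v i)) := by
  refine (exs (List.range' m n) h).congr fun N S v => ?_
  constructor
  · rintro ⟨v', h1, h2⟩
    refine ⟨fun j => v' (m + j), ?_⟩
    have : (fun i => if hi : m ≤ i ∧ i - m < n then (fun j : Fin n => v' (m + j)) ⟨i - m, hi.2⟩
        else v i) = v' := by
      funext i
      by_cases hi : m ≤ i ∧ i - m < n
      · rw [dif_pos hi]
        show v' (m + (i - m)) = v' i
        rw [Nat.add_sub_cancel' hi.1]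
      · rw [dif_neg hi]
        refine (h1 i fun hmem => hi ?_).symm
        rw [List.mem_range'_1] at hmem
        omega
    rwa [this]
  · rintro ⟨x, h2⟩
    refine ⟨_, fun y hy => ?_, h2⟩
    rw [dif_neg]
    intro hi
    apply hy
    rw [List.mem_range'_1]
    omega

theorem axb (h : Dfb ar Φ) : Axb ar (fun N H => ∀ v : ℕ → N, Φ N H v) := by
  obtain ⟨φ, hφ⟩ := h
  exact Axb.form φ fun N _ S => forall_congr' fun v => hφ N v

end Dfb

theorem Axb.of0 {C : ∀ N : Type, (Sym → List N → Prop) → Prop}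
    (h : Dfb ar (fun N H _ => C N H)) : Axb ar C :=
  h.axb.congr fun N _ S => ⟨fun h => h (fun _ => Classical.arbitrary N), fun h _ => h⟩

theorem Axb.of1 {C : ∀ N : Type, (Sym → List N → Prop) → N → Prop}
    (h : Dfb ar (fun N H v => C N H (v 0))) : Axb ar (fun N H => ∀ x, C N H x) :=
  h.axb.congr fun N _ S => ⟨fun h x => h (fun _ => x), fun h v => h (v 0)⟩

theorem Axb.of2 {C : ∀ N : Type, (Sym → List N → Prop) → N → N → Prop}
    (h : Dfb ar (fun N H v => C N H (v 0) (v 1))) : Axb ar (fun N H => ∀ x y, C N H x y) :=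
  h.axb.congr fun N _ S => ⟨fun h x y => h (fun n => if n = 0 then x else y),
    fun h v => h (v 0) (v 1)⟩

theorem Axb.of3 {C : ∀ N : Type, (Sym → List N → Prop) → N → N → N → Prop}
    (h : Dfb ar (fun N H v => C N H (v 0) (v 1) (v 2))) :
    Axb ar (fun N H => ∀ x y z, C N H x y z) :=
  h.axb.congr fun N _ S => ⟨fun h x y z => h (fun n => if n = 0 then x else if n = 1 then y else z),
    fun h v => h (v 0) (v 1) (v 2)⟩

theorem Axb.of4 {C : ∀ N : Type, (Sym → List N → Prop) → N → N → N → N → Prop}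
    (h : Dfb ar (fun N H v => C N H (v 0) (v 1) (v 2) (v 3))) :
    Axb ar (fun N H => ∀ x y z w, C N H x y z w) :=
  h.axb.congr fun N _ S => ⟨fun h x y z w => h (fun n => if n = 0 then x else if n = 1 then y else
    if n = 2 then z else w), fun h v => h (v 0) (v 1) (v 2) (v 3)⟩

/-- quantification over a tuple and three elements -/
theorem Axb.ofT3 {n : ℕ} {C : ∀ N : Type, (Sym → List N → Prop) → (Fin n → N) → N → N → N → Prop}
    (h : Dfb ar (fun N H v => C N H (fun j => v (j.1 + 5)) (v 0) (v 1) (v 2))) :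
    Axb ar (fun N H => ∀ x y z w, C N H x y z w) := by
  refine h.axb.congr fun N _ S => ⟨fun h x y z w => ?_, fun h v => h _ (v 0) (v 1) (v 2)⟩
  have h1 := h (fun m => if m = 0 then y else if m = 1 then z else if m = 2 then w else
    if hm : m - 5 < n then x ⟨m - 5, hm⟩ else y)
  have h2 : (fun j : Fin n => (fun m => if m = 0 then y else if m = 1 then z else if m = 2 then w
      else if hm : m - 5 < n then x ⟨m - 5, hm⟩ else y) (j.1 + 5)) = x := by
    funext j
    have e0 : ¬ (j.1 + 5 = 0) := by omega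
    have e1 : ¬ (j.1 + 5 = 1) := by omega
    have e2 : ¬ (j.1 + 5 = 2) := by omega
    have e3 : j.1 + 5 - 5 = j.1 := by omega
    simp only [e0, e1, e2, e3, if_false, j.2, dif_pos]
  rw [h2] at h1
  exact h1

theorem Axb.ofT1 {n : ℕ} {C : ∀ N : Type, (Sym → List N → Prop) → (Fin n → N) → N → Prop}
    (h : Dfb ar (fun N H v => C N H (fun j => v (j.1 + 5)) (v 0))) :
    Axb ar (fun N H => ∀ x y, C N H x y) :=
  (Axb.ofT3 (C := fun N H x y _ _ => C N H x y) h).congr fun N _ S =>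
    ⟨fun h x y => h x y y y, fun h x y _ _ => h x y⟩

end Pool.Agent.Work.MP_ed0a9a_lc.V
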