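import Pool.Agent.Work.MP_ed0a9a_lc.V.AxKit

/-!
# Module `AxT`: the axioms `GT` are first order
-/

namespace Pool.Agent.Work.MP_ed0a9a_lc.V

open FirstOrder FirstOrder.Language

variable {ar : ℕ → ℕ}

/-- `hz` is definable; `w` is a bound variable. -/
theorem dfb_hz (κ τ z₁ z₂ w : ℕ) (hτ : w ≠ τ) (h1 : w ≠ z₁) (h2 : w ≠ z₂) :
    Dfb ar (fun N H v => hz H κ (v τ) (v z₁) (v z₂)) := by
  have h0 : Dfb ar (fun N H v => ∃ w', H .Wt [w', v τ] ∧ H (.Wz false) [w', v z₁] ∧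
      H (.Wz true) [w', v z₂]) := by
    refine Dfb.ex' w ((Dfb.rel2 .Wt w τ).and ((Dfb.rel2 (.Wz false) w z₁).and
      (Dfb.rel2 (.Wz true) w z₂))) fun N S v => ?_
    simp only [Function.update_self, Function.update_of_ne hτ.symm, Function.update_of_ne h1.symm,
      Function.update_of_ne h2.symm]
  exact (Dfb.rel1 .SD z₁).and ((Dfb.rel1 .SD z₂).and
    (((Dfb.prp (κ % 2 = 1)).imp (Dfb.rel1 (.C 0) z₁)).and h0.not))

private theorem axT_ofT4 {n : ℕ}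
    {C : ∀ N : Type, (Sym → List N → Prop) → (Fin n → N) → N → N → N → N → Prop}
    (h : Dfb ar (fun N H v => C N H (fun j => v (j.1 + 5)) (v 0) (v 1) (v 2) (v 3))) :
    Axb ar (fun N H => ∀ x y z w u, C N H x y z w u) := by
  refine h.axb.congr fun N _ S => ⟨fun h x y z w u => ?_, fun h v => h _ (v 0) (v 1) (v 2) (v 3)⟩
  have h1 := h (fun m => if m = 0 then y else if m = 1 then z else if m = 2 then w else
    if m = 3 then u else if hm : m - 5 < n then x ⟨m - 5, hm⟩ else y)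
  have h2 : (fun j : Fin n => (fun m => if m = 0 then y else if m = 1 then z else if m = 2 then w
      else if m = 3 then u else if hm : m - 5 < n then x ⟨m - 5, hm⟩ else y) (j.1 + 5)) = x := by
    funext j
    have e0 : ¬ (j.1 + 5 = 0) := by omega
    have e1 : ¬ (j.1 + 5 = 1) := by omega
    have e2 : ¬ (j.1 + 5 = 2) := by omega
    have e3 : ¬ (j.1 + 5 = 3) := by omega
    have e4 : j.1 + 5 - 5 = j.1 := by omega
    simp only [e0, e1, e2, e3, e4, if_false, j.2, dif_pos]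
  rw [h2] at h1
  exact h1

private theorem axT_of5 {C : ∀ N : Type, (Sym → List N → Prop) → N → N → N → N → N → Prop}
    (h : Dfb ar (fun N H v => C N H (v 0) (v 1) (v 2) (v 3) (v 4))) :
    Axb ar (fun N H => ∀ x y z w u, C N H x y z w u) :=
  h.axb.congr fun N _ S => ⟨fun h x y z w u => h (fun n => if n = 0 then x else if n = 1 then y else
    if n = 2 then z else if n = 3 then w else u), fun h v => h (v 0) (v 1) (v 2) (v 3) (v 4)⟩

theorem axb_t (P : Par) : Axb P.ar (fun N H => GT H P) := by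
  have h1 : Axb P.ar (fun N H => ∀ κ, κ ∈ P.F → ∀ τ : N, H (.ST κ) [τ] → ∃ z₁ z₂, hz H κ τ z₁ z₂) := by
    refine Axb.all fun κ => Axb.allProp fun _ => Axb.of1 ((Dfb.rel1 (.ST κ) 0).imp ?_)
    refine Dfb.ex' 1 (Dfb.ex' 2 (Φ := fun N H v => hz H κ (v 0) (v 1) (v 2))
      (Ψ := fun N H v => ∃ z₂, hz H κ (v 0) (v 1) z₂)
      (dfb_hz κ 0 1 2 3 (by decide) (by decide) (by decide))
      fun _ _ _ => Iff.rfl) fun _ _ _ => Iff.rfl
  have h2 : Axb P.ar (fun N H => ∀ κ, κ ∈ P.F → ∀ τ z₁ z₂ z₁' z₂' : N, H (.ST κ) [τ] →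
      hz H κ τ z₁ z₂ → hz H κ τ z₁' z₂' → z₁ = z₁' ∧ z₂ = z₂') := by
    refine Axb.all fun κ => Axb.allProp fun _ => axT_of5 ?_
    exact (Dfb.rel1 (.ST κ) 0).imp ((dfb_hz κ 0 1 2 5 (by decide) (by decide) (by decide)).imp
      ((dfb_hz κ 0 3 4 5 (by decide) (by decide) (by decide)).imp
        ((Dfb.eq 1 3).and (Dfb.eq 2 4))))
  have h3 : Axb P.ar (fun N H => ∀ κ, κ ∈ P.F → ∀ (x : Fin (P.K + 1) → N) (z₁ z₂ : N),
      (∀ j, H .SD [x j]) → H .SD [z₁] → H .SD [z₂] → (κ % 2 = 1 → H (.C 0) [z₁]) →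
      ∃ τ, H (.ST κ) [τ] ∧ (∀ j : Fin (P.K + 1), H (.P j) [τ, x j]) ∧ hz H κ τ z₁ z₂) := by
    refine Axb.all fun κ => Axb.allProp fun _ => ?_
    have : Axb P.ar (fun N H => ∀ (x : Fin (P.K + 1) → N) (z₁ z₂ _ _ : N),
      (∀ j, H .SD [x j]) → H .SD [z₁] → H .SD [z₂] → (κ % 2 = 1 → H (.C 0) [z₁]) →
      ∃ τ, H (.ST κ) [τ] ∧ (∀ j : Fin (P.K + 1), H (.P j) [τ, x j]) ∧ hz H κ τ z₁ z₂) := by
      refine axT_ofT4 ?_
      refine (Dfb.fin fun j : Fin (P.K + 1) => Dfb.rel1 .SD (j.1 + 5)).imp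
        ((Dfb.rel1 .SD 0).imp ((Dfb.rel1 .SD 1).imp
        (((Dfb.prp (κ % 2 = 1)).imp (Dfb.rel1 (.C 0) 0)).imp ?_)))
      refine Dfb.ex' 2 ((Dfb.rel1 (.ST κ) 2).and ((Dfb.fin fun j : Fin (P.K + 1) =>
        Dfb.rel2 (.P j) 2 (j.1 + 5)).and
        (dfb_hz κ 2 0 1 3 (by decide) (by decide) (by decide)))) ?_
      intro N S v
      exact Iff.rfl
    exact this.congr fun N _ S => ⟨fun h x z₁ z₂ => h x z₁ z₂ z₁ z₁, fun h x z₁ z₂ _ _ => h x z₁ z₂⟩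
  have h4 : Axb P.ar (fun N H => ∀ κ, κ ∈ P.F → ∀ (x : Fin (P.K + 1) → N) (z₁ z₂ τ τ' : N),
      H (.ST κ) [τ] → H (.ST κ) [τ'] →
      (∀ j : Fin (P.K + 1), H (.P j) [τ, x j]) → (∀ j : Fin (P.K + 1), H (.P j) [τ', x j]) →
      hz H κ τ z₁ z₂ → hz H κ τ' z₁ z₂ → τ = τ') := by
    refine Axb.all fun κ => Axb.allProp fun _ => axT_ofT4 ?_
    exact (Dfb.rel1 (.ST κ) 2).imp ((Dfb.rel1 (.ST κ) 3).imp
      ((Dfb.fin fun j : Fin (P.K + 1) => Dfb.rel2 (.P j) 2 (j.1 + 5)).imp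
      ((Dfb.fin fun j : Fin (P.K + 1) => Dfb.rel2 (.P j) 3 (j.1 + 5)).imp
      ((dfb_hz κ 2 0 1 4 (by decide) (by decide) (by decide)).imp
      ((dfb_hz κ 3 0 1 4 (by decide) (by decide) (by decide)).imp (Dfb.eq 2 3))))))
  refine (h1.and (h2.and (h3.and h4))).congr fun N _ S => ?_
  constructor
  · rintro ⟨a1, a2, a3, a4⟩
    exact ⟨a1, a2, a3, a4⟩
  · rintro ⟨a1, a2, a3, a4⟩
    exact ⟨a1, a2, a3, a4⟩

end Pool.Agent.Work.MP_ed0a9a_lc.V
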