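import Pool.Agent.Work.MP_ed0a9a_lc.V.Lvl

/-!
# Module `ClassD`: the sort `D` of a model
-/

namespace Pool.Agent.Work.MP_ed0a9a_lc.V

theorem classD {N : Type} (H : Sym → List N → Prop) (h : GC H) :
    ∃ (J : Type) (e : Pt J → N), Function.Injective e ∧
      (∀ x, H .SD [x] ↔ ∃ p, e p = x) ∧
      (∀ m p, H (.C m) [e p] ↔ p = Sum.inl m) := by
  classical
  choose c hc using h.c_ex
  let J := {x : N // H .SD [x] ∧ ∀ m, ¬ H (.C m) [x]}
  let e : Pt J → N := fun p => match p with
    | Sum.inl m => c m
    | Sum.inr j => j.1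
  have hC : ∀ m p, H (.C m) [e p] ↔ p = Sum.inl m := by
    intro m p
    constructor
    · intro hp
      cases p with
      | inl m' =>
        by_contra hne
        have hne' : m' ≠ m := fun e => hne (by rw [e])
        exact h.c_ne m' m hne' (c m') (hc m') hp
      | inr j => exact absurd hp (j.2.2 m)
    · rintro rfl
      exact hc m
  refine ⟨J, e, ?_, ?_, hC⟩
  · intro p p' hpp
    cases p with
    | inl m =>
      have h1 : H (.C m) [e (Sum.inl m)] := hc m
      rw [hpp] at h1
      exact ((hC m p').1 h1).symm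
    | inr j =>
      cases p' with
      | inl m =>
        have h1 : H (.C m) [e (Sum.inl m)] := hc m
        rw [← hpp] at h1
        exact (hC m _).1 h1
      | inr j' => rw [Subtype.ext hpp]
  · intro x
    constructor
    · intro hx
      by_cases hm : ∃ m, H (.C m) [x]
      · obtain ⟨m, hm⟩ := hm
        exact ⟨Sum.inl m, h.c_uniq m _ _ (hc m) hm⟩
      · push Not at hm
        exact ⟨Sum.inr ⟨x, hx, hm⟩, rfl⟩
    · rintro ⟨p, rfl⟩
      cases p with
      | inl m => exact h.c_dom m _ (hc m)
      | inr j => exact j.2.1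

/-- Levels in `N` and levels of lists of points. -/
theorem lvH_map_e {N : Type} (H : Sym → List N → Prop) {J : Type} (e : Pt J → N)
    (he : Function.Injective e)
    (hc : ∀ m p, H (.C m) [e p] ↔ p = Sum.inl m) (l : List (Pt J)) :
    lvH H (l.map e) = lvl l := by
  unfold lvH lvl
  apply lv_congr
  intro c
  unfold LGH LG
  rw [List.nodup_map_iff he]
  refine and_congr Iff.rfl ?_
  rw [List.forall_mem_map]
  constructor
  · intro h p hp m hm
    by_contra hlt
    exact h p hp m (not_le.1 hlt) ((hc m p).2 hm)
  · intro h p hp m hm hr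
    have := h p hp m ((hc m p).1 hr)
    omega

end Pool.Agent.Work.MP_ed0a9a_lc.V
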