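import Pool.Agent.Work.MP_ed0a9a_lc.V.Defs

/-!
# The computable copy of `U P (Jt i)`: definitions

Points are coded by numbers: `2 * m` is the constant `c m`, `2 * r + 1` the unnamed element
number `r`.
-/

namespace Pool.Agent.Work.MP_ed0a9a_lc.V

/-- Codes allowed in the model number `i`. -/
noncomputable def okP (i : ℕ∞) (p : ℕ) : Bool := by
  classical exact decide (p % 2 = 1 → ((p / 2 : ℕ) : ℕ∞) < i)

/-- The list consists of different unnamed elements. -/
def indep (l : List ℕ) : Bool := decide (l.Nodup ∧ ∀ p ∈ l, p % 2 = 1)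

/-- level `≥ c` -/
def LGn (l : List ℕ) (c : ℕ) : Prop := (0 < c → l.Nodup) ∧ ∀ p ∈ l, p % 2 = 0 → c ≤ p / 2

instance (l : List ℕ) : DecidablePred (LGn l) := fun c => by unfold LGn; infer_instance

/-- The level of a dependent list. -/
def lvn (l : List ℕ) : ℕ := Nat.findGreatest (LGn l) l.sum

/-- The `a`-th name relative to `v`. -/
def nmn (k : ℕ) (v : List ℕ) (a : ℕ) : ℕ := if a < k then v.getD a 0 else 2 * (a - k)

/-- The `q`-th position relative to `v`, for the sort `ST κ`. -/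
def posn (κ : ℕ) (v : List ℕ) (q : ℕ) : ℕ × ℕ :=
  if κ % 2 = 1 then (0, nmn (κ / 2) v q)
  else (nmn (κ / 2) v (Nat.unpair q).1, nmn (κ / 2) v (Nat.unpair q).2)

/-- Unnamed elements used as second coordinates of the garbage labels. -/
def gn (b m j : ℕ) : ℕ := if b = 1 then 2 * Nat.pair m j + 1 else 2 * j + 1

/-- The least `j` such that `gn b m j` is not in the list. -/
def fr (b m : ℕ) (l : List ℕ) : ℕ :=
  ((List.range (l.length + 1)).find? (fun j => !l.contains (gn b m j))).getD 0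

/-- The garbage label number `m` over `v`, for the sort `ST κ`. -/
def garb (κ : ℕ) (v : List ℕ) (m : ℕ) : ℕ × ℕ :=
  (if κ % 2 = 1 then 0 else 2 * m, gn (κ % 2) m (fr (κ % 2) m (v.take (κ / 2))))

/-- The number of the garbage label. -/
def cd (q s π t : ℕ) : ℕ := Nat.pair (Nat.pair q s) (Nat.pair π t)

section

variable (msk : ℕ → ℕ → ℕ)

/-- The last visible coordinate. -/
def dl (K : ℕ) (v : List ℕ) : ℕ := v.getD K 0

/-- `1` if the last coordinate is `d = c (n + 1)` and the direction `n` is in the mask. -/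
def pif (q s d : ℕ) : ℕ :=
  if d % 2 = 0 ∧ d ≠ 0 ∧ (msk q s).testBit (d / 2 - 1) = true then 1 else 0

/-- `z` is the garbage label of the (discarded) element `(q, s)` over `v`, for the sort `ST κ`. -/
def isGarb (K κ : ℕ) (v : List ℕ) (q s : ℕ) (z : ℕ × ℕ) : Bool :=
  decide (∃ t < z.1 + z.2 + 1, disc msk q s t = true ∧
    z = garb κ v (cd q s (pif msk q s (dl K v)) t))

/-- `z` is a garbage label, taken over `v` by a discarded element. -/
def old (K κ : ℕ) (v : List ℕ) (z : ℕ × ℕ) : Bool :=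
  decide (∃ m < z.1 + z.2 + 1, disc msk (Nat.unpair (Nat.unpair m).1).1
      (Nat.unpair (Nat.unpair m).1).2 (Nat.unpair (Nat.unpair m).2).2 = true ∧
    (Nat.unpair (Nat.unpair m).2).1 = pif msk (Nat.unpair (Nat.unpair m).1).1
      (Nat.unpair (Nat.unpair m).1).2 (dl K v) ∧
    dl K v < (Nat.unpair (Nat.unpair m).2).2 ∧ z = garb κ v m)

/-- Codes of elements of the sorts `ST κ`: `(κ, v, z, 0)` (plain element with hidden coordinate
`z`) or `(κ, v, (q, s), 1)` (version `s` of the element at position `q`). -/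
abbrev Tc := ℕ × List ℕ × (ℕ × ℕ) × ℕ

/-- Both hidden coordinates are allowed. -/
noncomputable def okZn (i : ℕ∞) (κ : ℕ) (z : ℕ × ℕ) : Bool :=
  okP i z.1 && okP i z.2 && decide (κ % 2 = 1 → z.1 = 0)

/-- `p` is named relative to `v`. -/
def named (k : ℕ) (v : List ℕ) (p : ℕ) : Bool := decide (p % 2 = 0) || (v.take k).contains p

/-- The valid codes of elements of the sorts `ST κ`. -/
noncomputable def okT (F : Finset ℕ) (K : ℕ) (i : ℕ∞) (c : Tc) : Bool :=
  decide (c.1 ∈ F) && decide (c.2.1.length = K + 1) && c.2.1.all (fun p => okP i p) &&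
  (if indep (c.2.1.take (c.1 / 2)) then
    (decide (c.2.2.2 = 0) && okZn i c.1 c.2.2.1 &&
      !(named (c.1 / 2) c.2.1 c.2.2.1.1 && named (c.1 / 2) c.2.1 c.2.2.1.2) &&
      !old msk K c.1 c.2.1 c.2.2.1) ||
    (decide (c.2.2.2 = 1) && decide (lc msk c.2.2.1.1 c.2.2.1.2 = c.2.2.1.2) &&
      decide (lc msk c.2.2.1.1 (max c.2.2.1.2 (dl K c.2.1)) = c.2.2.1.2))
  else decide (c.2.2.2 = 0) && okZn i c.1 c.2.2.1)

/-- Direction `n` is missing over `(v, z)`, `v` dependent. -/
def missD (κ : ℕ) (v : List ℕ) (z : ℕ × ℕ) (n : ℕ) : Bool :=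
  decide (z = posn κ v (Nat.unpair n).2) &&
  (msk (Nat.unpair n).2 (lvn (v.take (κ / 2)))).testBit n

/-- The links `Q n` between codes. -/
def qrel (K n : ℕ) (c c' : Tc) : Bool :=
  decide (c.1 = c'.1) && decide (c'.2.1.take K = c.2.1.take K) &&
  decide (dl K c.2.1 = 0) && decide (dl K c'.2.1 = 2 * (n + 1)) &&
  (if indep (c.2.1.take (c.1 / 2)) then
    (if c.2.2.2 = 0 then
      (if c'.2.2.2 = 0 then decide (c.2.2.1 = c'.2.2.1)
        else isGarb msk K c.1 c'.2.1 c'.2.2.1.1 c'.2.2.1.2 c.2.2.1)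
      else
      (if c'.2.2.2 = 0 then isGarb msk K c.1 c.2.1 c.2.2.1.1 c.2.2.1.2 c'.2.2.1
        else decide (c.2.2.1 = c'.2.2.1) && !(msk c.2.2.1.1 c.2.2.1.2).testBit n))
  else decide (c.2.2.1 = c'.2.2.1) && !missD msk c.1 c.2.1 c.2.2.1 n)

/-- Codes of elements of the sort `W`: `(c, z', e)` with `e = 0` in general, and `e` the time
at which `c` is discarded if `z'` is the position of `c`. -/
noncomputable def okW (F : Finset ℕ) (K : ℕ) (i : ℕ∞) (c : Tc) (z' : ℕ × ℕ) (e : ℕ) : Bool :=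
  okT msk F K i c && okZn i c.1 z' &&
  (if c.2.2.2 = 0 then decide (e = 0) && !decide (z' = c.2.2.1)
   else if z' = posn c.1 c.2.1 c.2.2.1.1 then disc msk c.2.2.1.1 c.2.2.1.2 e
   else decide (e = 0) && !isGarb msk K c.1 c.2.1 c.2.2.1.1 c.2.2.1.2 z')

open Classical in
/-- The hidden coordinate of a code. -/
noncomputable def lab (K : ℕ) (c : Tc) : ℕ × ℕ :=
  if c.2.2.2 = 0 then c.2.2.1
  else if h : ∃ t, disc msk c.2.2.1.1 c.2.2.1.2 t = true then
    garb c.1 c.2.1 (cd c.2.2.1.1 c.2.2.1.2 (pif msk c.2.2.1.1 c.2.2.1.2 (dl K c.2.1)) (Nat.find h))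
  else posn c.1 c.2.1 c.2.2.1.1

/-! ## Elements and relations of the copy -/

/-- Codes of elements: `(0, _, (p, 0), 0)` in the sort `D`, `(1, c, _, 0)` in the sorts `ST κ`,
`(2, c, z', e)` in the sort `W`. -/
abbrev Raw := ℕ × Tc × (ℕ × ℕ) × ℕ

end

/-- The valid codes. -/
noncomputable def okRaw (P : Par) (i : ℕ∞) (x : Raw) : Bool :=
  if x.1 = 0 then decide (x.2.1 = (0, [], (0, 0), 0)) && decide (x.2.2.2 = 0) &&
    decide (x.2.2.1.2 = 0) && okP i x.2.2.1.1
  else if x.1 = 1 then decide (x.2.2 = ((0, 0), 0)) && okT P.msk P.F P.K i x.2.1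
  else decide (x.1 = 2) && okW P.msk P.F P.K i x.2.1 x.2.2.1 x.2.2.2

/-- The relation number `n` on codes; `g` gives the values of the coding relations on independent
tuples. -/
def relC (P : Par) (g : ℕ → ℕ → Bool) (n : ℕ) (l : List Raw) : Bool :=
  let a := (Nat.unpair n).1
  let b := (Nat.unpair n).2
  let x := l.getD 0 (0, (0, [], (0, 0), 0), (0, 0), 0)
  let y := l.getD 1 (0, (0, [], (0, 0), 0), (0, 0), 0)
  if a = 0 then
    (if b = 0 then decide (x.1 = 0)
     else if b = 1 then decide (x.1 = 2)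
     else decide (x.1 = 1) && decide (x.2.1.1 + 2 = b))
  else if a = 1 then
    decide (x.1 = 0) && decide (x.2.2.1.1 = 2 * b)
  else if a = 2 then
    decide (x.1 = 1) && decide (y.1 = 0) && decide (b < P.K + 1) &&
      decide (y.2.2.1.1 = x.2.1.2.1.getD b 0)
  else if a = 3 then
    (if b = 0 then decide (x.1 = 2) && decide (y.1 = 1) && decide (x.2.1 = y.2.1)
     else if b = 1 then decide (x.1 = 2) && decide (y.1 = 0) && decide (x.2.2.1.1 = y.2.2.1.1)
     else decide (x.1 = 2) && decide (y.1 = 0) && decide (x.2.2.1.2 = y.2.2.1.1))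
  else if a = 4 then
    decide (x.1 = 1) && decide (y.1 = 1) && qrel P.msk P.K b x.2.1 y.2.1
  else
    l.all (fun x => decide (x.1 = 0)) &&
      (if indep (l.map (fun x => x.2.2.1.1)) then g (Nat.unpair b).1 (Nat.unpair b).2
       else P.kb (Nat.unpair b).1 (Nat.unpair b).2 (lvn (l.map (fun x => x.2.2.1.1))))

/-- The point coded by `p`. -/
noncomputable def ptC (i : ℕ∞) (p : ℕ) : Pt (Jt i) := by
  classical exact if h : p % 2 = 1 ∧ ((p / 2 : ℕ) : ℕ∞) < i then Sum.inr ⟨p / 2, h.2⟩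
    else Sum.inl (p / 2)

/-- The tuple of points coded by `v`. -/
noncomputable def xC (K : ℕ) (i : ℕ∞) (v : List ℕ) : Fin (K + 1) → Pt (Jt i) :=
  fun j => ptC i (v.getD j 0)

/-- The pair of points coded by `z`. -/
noncomputable def zC (i : ℕ∞) (z : ℕ × ℕ) : Pt (Jt i) × Pt (Jt i) := (ptC i z.1, ptC i z.2)

open Classical in
/-- The element coded by `x`. -/
noncomputable def dU (P : Par) (i : ℕ∞) (x : Raw) : U P (Jt i) :=
  if x.1 = 0 then .d (ptC i x.2.2.1.1)
  else if h : x.2.1.1 ∈ P.F ∧ okZ x.2.1.1 (zC i (lab P.msk P.K x.2.1)) then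
    (if x.1 = 1 then
      .t x.2.1.1 h.1 (xC P.K i x.2.1.2.1) (zC i (lab P.msk P.K x.2.1)) h.2
    else if h' : okZ x.2.1.1 (zC i x.2.2.1) ∧ zC i x.2.2.1 ≠ zC i (lab P.msk P.K x.2.1) then
      .w x.2.1.1 h.1 (xC P.K i x.2.1.2.1) (zC i (lab P.msk P.K x.2.1)) (zC i x.2.2.1) h.2 h'.1 h'.2
    else .d (Sum.inl 0))
  else .d (Sum.inl 0)

end Pool.Agent.Work.MP_ed0a9a_lc.V
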