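import Pool.Agent.Work.MP_ed0a9a_lc.V.CopyDefs
import Pool.Agent.Work.MP_ed0a9a_lc.V.Lvl
import Pool.Agent.Work.MP_ed0a9a_lc.CopyLc

/-!
# Module `CopyLab`: the hidden coordinate is a bijection over each visible tuple
-/

namespace Pool.Agent.Work.MP_ed0a9a_lc.V

theorem okP_iff (i : ℕ∞) (p : ℕ) :
    okP i p = true ↔ (p % 2 = 1 → ((p / 2 : ℕ) : ℕ∞) < i) := by
  unfold okP
  exact decide_eq_true_iff

theorem okP_even (i : ℕ∞) (p : ℕ) (h : p % 2 = 0) : okP i p = true := by
  rw [okP_iff]
  intro h'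
  omega

theorem okP_top (p : ℕ) : okP ⊤ p = true := by
  rw [okP_iff]
  intro _
  exact ENat.natCast_lt_top _

theorem indep_iff (l : List ℕ) : indep l = true ↔ l.Nodup ∧ ∀ p ∈ l, p % 2 = 1 := by
  unfold indep
  exact decide_eq_true_iff

theorem named_iff (k : ℕ) (v : List ℕ) (p : ℕ) :
    named k v p = true ↔ p % 2 = 0 ∨ p ∈ v.take k := by
  unfold named
  rw [Bool.or_eq_true, decide_eq_true_iff, List.contains_eq_mem, decide_eq_true_iff]

/-- If `v.take k` is independent with allowed elements, then `k ≤ i`. -/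
theorem le_of_indep (i : ℕ∞) (k : ℕ) (v : List ℕ) (h : k ≤ v.length)
    (hv : ∀ p ∈ v, okP i p = true) (hi : indep (v.take k) = true) : (k : ℕ∞) ≤ i := by
  rcases eq_or_ne i ⊤ with rfl | hne
  · exact le_top
  · obtain ⟨m, rfl⟩ := ENat.ne_top_iff_exists.1 hne
    rw [indep_iff] at hi
    have h0 : ((v.take k).map (fun p => p / 2)).Nodup := by
      rw [List.nodup_map_iff_inj_on hi.1]
      intro x hx y hy hxy
      have h1 := hi.2 x hx
      have h2 := hi.2 y hy
      omega
    have h1 : ((v.take k).map (fun p => p / 2)).toFinset ⊆ Finset.range m := by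
      intro r hr
      rw [List.mem_toFinset, List.mem_map] at hr
      obtain ⟨p, hp, rfl⟩ := hr
      have h2 := (okP_iff _ _).1 (hv p (List.mem_of_mem_take hp)) (hi.2 p hp)
      rw [Finset.mem_range]
      exact_mod_cast h2
    have h2 := Finset.card_le_card h1
    rw [List.toFinset_card_of_nodup h0, List.length_map, List.length_take, Finset.card_range,
      min_eq_left h] at h2
    exact_mod_cast h2

/-! ## Names -/

theorem nmn_named (k : ℕ) (v : List ℕ) (a : ℕ) (h : k ≤ v.length) :
    named k v (nmn k v a) = true := by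
  rw [named_iff]
  unfold nmn
  by_cases ha : a < k
  · rw [if_pos ha]
    right
    have hl : a < v.length := by omega
    rw [List.getD_eq_getElem _ _ hl]
    have hl2 : a < (v.take k).length := by rw [List.length_take]; omega
    have h3 : (v.take k)[a] = v[a] := List.getElem_take ..
    rw [← h3]
    exact List.getElem_mem hl2
  · rw [if_neg ha]
    left
    omega

theorem nmn_inj (k : ℕ) (v : List ℕ) (h : k ≤ v.length) (hi : indep (v.take k) = true)
    (a a' : ℕ) (he : nmn k v a = nmn k v a') : a = a' := by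
  rw [indep_iff] at hi
  have key : ∀ a, a < k → ∃ hl : a < (v.take k).length, nmn k v a = (v.take k)[a] := by
    intro a ha
    have hl : a < v.length := by omega
    have hl2 : a < (v.take k).length := by rw [List.length_take]; omega
    refine ⟨hl2, ?_⟩
    unfold nmn
    rw [if_pos ha, List.getD_eq_getElem _ _ hl]
    exact (List.getElem_take ..).symm
  have key2 : ∀ a, ¬ a < k → nmn k v a = 2 * (a - k) := by
    intro a ha
    unfold nmn
    rw [if_neg ha]
  by_cases ha : a < k
  · obtain ⟨hl, e⟩ := key a ha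
    by_cases ha' : a' < k
    · obtain ⟨hl', e'⟩ := key a' ha'
      rw [e, e'] at he
      exact (List.Nodup.getElem_inj_iff hi.1).1 he
    · rw [e, key2 a' ha'] at he
      have := hi.2 _ (List.getElem_mem hl)
      omega
  · by_cases ha' : a' < k
    · obtain ⟨hl', e'⟩ := key a' ha'
      rw [e', key2 a ha] at he
      have := hi.2 _ (List.getElem_mem hl')
      omega
    · rw [key2 a ha, key2 a' ha'] at he
      omega

theorem nmn_surj (k : ℕ) (v : List ℕ) (h : k ≤ v.length) (p : ℕ)
    (hp : named k v p = true) : ∃ a, nmn k v a = p := by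
  rw [named_iff] at hp
  rcases hp with hp | hp
  · refine ⟨k + p / 2, ?_⟩
    unfold nmn
    rw [if_neg (by omega)]
    omega
  · obtain ⟨a, ha, rfl⟩ := List.mem_iff_getElem.1 hp
    have ha2 : a < k := by rw [List.length_take] at ha; omega
    refine ⟨a, ?_⟩
    unfold nmn
    have hl : a < v.length := by omega
    rw [if_pos ha2, List.getD_eq_getElem _ _ hl]
    exact (List.getElem_take ..).symm

theorem posn_named (κ : ℕ) (v : List ℕ) (q : ℕ) (h : κ / 2 ≤ v.length) :
    named (κ / 2) v (posn κ v q).1 = true ∧ named (κ / 2) v (posn κ v q).2 = true := by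
  unfold posn
  by_cases ho : κ % 2 = 1
  · rw [if_pos ho]
    exact ⟨(named_iff _ _ _).2 (Or.inl rfl), nmn_named _ _ _ h⟩
  · rw [if_neg ho]
    exact ⟨nmn_named _ _ _ h, nmn_named _ _ _ h⟩

theorem posn_odd (κ : ℕ) (v : List ℕ) (q : ℕ) (ho : κ % 2 = 1) : (posn κ v q).1 = 0 := by
  unfold posn
  rw [if_pos ho]

theorem posn_inj (κ : ℕ) (v : List ℕ) (h : κ / 2 ≤ v.length)
    (hi : indep (v.take (κ / 2)) = true)
    (q q' : ℕ) (he : posn κ v q = posn κ v q') : q = q' := by
  unfold posn at he
  by_cases ho : κ % 2 = 1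
  · rw [if_pos ho, if_pos ho] at he
    exact nmn_inj _ _ h hi _ _ (congrArg Prod.snd he)
  · rw [if_neg ho, if_neg ho] at he
    have h1 := nmn_inj _ _ h hi _ _ (congrArg Prod.fst he)
    have h2 := nmn_inj _ _ h hi _ _ (congrArg Prod.snd he)
    rw [← Nat.pair_unpair q, ← Nat.pair_unpair q', h1, h2]

theorem posn_surj (κ : ℕ) (v : List ℕ) (h : κ / 2 ≤ v.length) (z : ℕ × ℕ)
    (h1 : named (κ / 2) v z.1 = true) (h2 : named (κ / 2) v z.2 = true)
    (h3 : κ % 2 = 1 → z.1 = 0) : ∃ q, posn κ v q = z := by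
  obtain ⟨b, hb⟩ := nmn_surj _ _ h _ h2
  by_cases ho : κ % 2 = 1
  · refine ⟨b, ?_⟩
    unfold posn
    rw [if_pos ho, hb]
    exact Prod.ext (h3 ho).symm rfl
  · obtain ⟨a, ha⟩ := nmn_surj _ _ h _ h1
    refine ⟨Nat.pair a b, ?_⟩
    unfold posn
    rw [if_neg ho, Nat.unpair_pair]
    exact Prod.ext ha hb

/-! ## Garbage labels -/

theorem gn_odd (b m j : ℕ) : gn b m j % 2 = 1 := by
  unfold gn
  split_ifs <;> omega

theorem gn_inj (b m j j' : ℕ) (h : gn b m j = gn b m j') : j = j' := by
  unfold gn at h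
  split_ifs at h
  · have h1 : Nat.pair m j = Nat.pair m j' := by omega
    exact (Nat.pair_eq_pair.1 h1).2
  · omega

theorem fr_spec (b m : ℕ) (l : List ℕ) : fr b m l ≤ l.length ∧ gn b m (fr b m l) ∉ l := by
  have hex : ∃ j ≤ l.length, gn b m j ∉ l := by
    by_contra hno
    push Not at hno
    have h1 : (Finset.range (l.length + 1)).image (gn b m) ⊆ l.toFinset := by
      intro r hr
      rw [Finset.mem_image] at hr
      obtain ⟨j, hj, rfl⟩ := hr
      rw [List.mem_toFinset]
      exact hno j (by have := Finset.mem_range.1 hj; omega)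
    have h2 := Finset.card_le_card h1
    have h3 := List.toFinset_card_le l
    rw [Finset.card_image_of_injective _ (fun j j' h => gn_inj b m j j' h),
      Finset.card_range] at h2
    omega
  obtain ⟨j, hj, hj'⟩ := hex
  unfold fr
  rcases h : (List.range (l.length + 1)).find? (fun j => !l.contains (gn b m j)) with _ | r'
  · exfalso
    rw [List.find?_eq_none] at h
    have := h j (List.mem_range.2 (by omega))
    simp only [Bool.not_eq_true', List.contains_eq_mem, decide_eq_false_iff_not,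
      not_not] at this
    exact hj' this
  · have h1 := List.find?_some h
    have h2 := List.mem_of_find?_eq_some h
    simp only [Bool.not_eq_true', List.contains_eq_mem, decide_eq_false_iff_not] at h1
    rw [Option.getD_some]
    exact ⟨by have := List.mem_range.1 h2; omega, h1⟩

theorem garb_not_named (κ : ℕ) (v : List ℕ) (m : ℕ) :
    named (κ / 2) v (garb κ v m).2 = false := by
  by_contra hc
  rw [Bool.not_eq_false, named_iff] at hc
  unfold garb at hc
  rcases hc with h | h
  · have := gn_odd (κ % 2) m (fr (κ % 2) m (v.take (κ / 2)))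
    simp only at h
    omega
  · exact (fr_spec _ _ _).2 h

theorem garb_odd (κ : ℕ) (v : List ℕ) (m : ℕ) (ho : κ % 2 = 1) : (garb κ v m).1 = 0 := by
  unfold garb
  rw [if_pos ho]

theorem le_garb (κ : ℕ) (v : List ℕ) (m : ℕ) : m < (garb κ v m).1 + (garb κ v m).2 + 1 := by
  unfold garb gn
  by_cases ho : κ % 2 = 1
  · simp only [if_pos ho]
    have := Nat.left_le_pair m (fr (κ % 2) m (v.take (κ / 2)))
    omega
  · simp only [if_neg ho]
    omega

theorem garb_inj (κ : ℕ) (v : List ℕ) (m m' : ℕ) (h : garb κ v m = garb κ v m') : m = m' := by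
  have h1 := congrArg Prod.fst h
  have h2 := congrArg Prod.snd h
  unfold garb gn at h1 h2
  by_cases ho : κ % 2 = 1
  · simp only [if_pos ho] at h2
    have h3 : Nat.pair m (fr (κ % 2) m (v.take (κ / 2))) =
      Nat.pair m' (fr (κ % 2) m' (v.take (κ / 2))) := by omega
    exact (Nat.pair_eq_pair.1 h3).1
  · simp only [if_neg ho] at h1
    omega

theorem cd_inj (q s π t q' s' π' t' : ℕ) (h : cd q s π t = cd q' s' π' t') :
    q = q' ∧ s = s' ∧ π = π' ∧ t = t' := by
  unfold cd at h
  simp only [Nat.pair_eq_pair] at h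
  tauto

theorem le_cd (q s π t : ℕ) : t ≤ cd q s π t := by
  unfold cd
  exact (Nat.right_le_pair _ _).trans (Nat.right_le_pair _ _)

theorem isGarb_iff (msk : ℕ → ℕ → ℕ) (K κ : ℕ) (v : List ℕ) (q s : ℕ) (z : ℕ × ℕ) :
    isGarb msk K κ v q s z = true ↔ ∃ t, disc msk q s t = true ∧
      z = garb κ v (cd q s (pif msk q s (dl K v)) t) := by
  unfold isGarb
  rw [decide_eq_true_iff]
  constructor
  · rintro ⟨t, _, h1, h2⟩
    exact ⟨t, h1, h2⟩
  · rintro ⟨t, h1, h2⟩
    refine ⟨t, ?_, h1, h2⟩
    have h3 := le_garb κ v (cd q s (pif msk q s (dl K v)) t)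
    rw [← h2] at h3
    have h4 := le_cd q s (pif msk q s (dl K v)) t
    omega

theorem old_iff (msk : ℕ → ℕ → ℕ) (K κ : ℕ) (v : List ℕ) (z : ℕ × ℕ) :
    old msk K κ v z = true ↔ ∃ q s t, disc msk q s t = true ∧ dl K v < t ∧
      z = garb κ v (cd q s (pif msk q s (dl K v)) t) := by
  unfold old
  rw [decide_eq_true_iff]
  constructor
  · rintro ⟨m, _, h1, h2, h3, h4⟩
    refine ⟨_, _, _, h1, h3, ?_⟩
    rw [h4, ← h2]
    unfold cd
    rw [Nat.pair_unpair, Nat.pair_unpair, Nat.pair_unpair]
  · rintro ⟨q, s, t, h1, h2, h3⟩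
    refine ⟨cd q s (pif msk q s (dl K v)) t, ?_, ?_, ?_, ?_, h3⟩
    · have h4 := le_garb κ v (cd q s (pif msk q s (dl K v)) t)
      rw [← h3] at h4
      exact h4
    · unfold cd
      simp only [Nat.unpair_pair]
      exact h1
    · unfold cd
      simp only [Nat.unpair_pair]
    · unfold cd
      simp only [Nat.unpair_pair]
      exact h2

/-- The label of a discarded version. -/
theorem lab_disc (msk : ℕ → ℕ → ℕ) (K κ : ℕ) (v : List ℕ) (q s t : ℕ)
    (h : disc msk q s t = true) : lab msk K (κ, v, (q, s), 1) =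
      garb κ v (cd q s (pif msk q s (dl K v)) t) := by
  classical
  have hex : ∃ t, disc msk q s t = true := ⟨t, h⟩
  unfold lab
  rw [if_neg (by simp), dif_pos hex]
  have : Nat.find hex = t := disc_unique msk q s _ _ (Nat.find_spec hex) h
  simp only
  congr 2

/-- The label of a version that is never discarded. -/
theorem lab_pos (msk : ℕ → ℕ → ℕ) (K κ : ℕ) (v : List ℕ) (q s : ℕ)
    (h : ∀ t, disc msk q s t = false) : lab msk K (κ, v, (q, s), 1) = posn κ v q := by
  have hex : ¬ ∃ t, disc msk q s t = true := by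
    rintro ⟨t, ht⟩
    rw [h t] at ht
    exact absurd ht (by simp)
  unfold lab
  rw [if_neg (by simp), dif_neg hex]

theorem lab_plain (msk : ℕ → ℕ → ℕ) (K κ : ℕ) (v : List ℕ) (z : ℕ × ℕ) :
    lab msk K (κ, v, z, 0) = z := by
  unfold lab
  rw [if_pos rfl]

/-- Allowed pairs. -/
def Zok (i : ℕ∞) (κ : ℕ) (z : ℕ × ℕ) : Prop :=
  okP i z.1 = true ∧ okP i z.2 = true ∧ (κ % 2 = 1 → z.1 = 0)

theorem okZn_iff (i : ℕ∞) (κ : ℕ) (z : ℕ × ℕ) : okZn i κ z = true ↔ Zok i κ z := by
  unfold okZn Zok
  rw [Bool.and_eq_true, Bool.and_eq_true, decide_eq_true_iff]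
  tauto

/-- The cases of a valid code. -/
theorem okT_cases (msk : ℕ → ℕ → ℕ) (F : Finset ℕ) (K : ℕ) (i : ℕ∞) (κ : ℕ) (v : List ℕ)
    (z : ℕ × ℕ) (b : ℕ) :
    okT msk F K i (κ, v, z, b) = true ↔
      (κ ∈ F ∧ v.length = K + 1 ∧ (∀ p ∈ v, okP i p = true)) ∧
      ((indep (v.take (κ / 2)) = true ∧ b = 0 ∧ Zok i κ z ∧
          ¬ (named (κ / 2) v z.1 = true ∧ named (κ / 2) v z.2 = true) ∧
          old msk K κ v z = false) ∨
        (indep (v.take (κ / 2)) = true ∧ b = 1 ∧ lc msk z.1 z.2 = z.2 ∧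
          lc msk z.1 (max z.2 (dl K v)) = z.2) ∨
        (indep (v.take (κ / 2)) = false ∧ b = 0 ∧ Zok i κ z)) := by
  unfold okT
  by_cases hi : indep (v.take (κ / 2)) = true
  · simp only [hi, if_true, Bool.and_eq_true, Bool.or_eq_true, decide_eq_true_eq,
      List.all_eq_true, okZn_iff, Bool.not_eq_true', Bool.and_eq_false_iff,
      true_and, reduceCtorEq, false_and, or_false]
    have e1 : (named (κ / 2) v z.1 = false ∨ named (κ / 2) v z.2 = false) ↔
        ¬ (named (κ / 2) v z.1 = true ∧ named (κ / 2) v z.2 = true) := by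
      rw [not_and_or, Bool.not_eq_true, Bool.not_eq_true]
    rw [e1]
    tauto
  · have hi' : indep (v.take (κ / 2)) = false := by simpa using hi
    simp only [hi', Bool.and_eq_true, decide_eq_true_eq, Bool.false_eq_true,
      List.all_eq_true, okZn_iff, false_and, true_and, false_or, if_false]
    tauto

theorem not_contra {b : Bool} (h : b = true) (h' : b = false) : False := by
  rw [h] at h'; exact absurd h' (by simp)

/-- The condition on `κ` under which the sort `ST κ` does not kill the model `i`. -/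
def Fok (i : ℕ∞) (κ : ℕ) : Prop :=
  (κ % 2 = 0 → ((κ / 2 : ℕ) : ℕ∞) ≠ i) ∧ (κ % 2 = 1 → i < ((κ / 2 : ℕ) : ℕ∞) ∨ i = ⊤)

theorem garb_Zok (i : ℕ∞) (κ : ℕ) (v : List ℕ) (m : ℕ) (h : κ / 2 ≤ v.length)
    (hv : ∀ p ∈ v, okP i p = true) (hi : indep (v.take (κ / 2)) = true) (hk : Fok i κ) :
    Zok i κ (garb κ v m) := by
  have hle := le_of_indep i (κ / 2) v h hv hi
  refine ⟨?_, ?_, fun ho => garb_odd κ v m ho⟩
  · apply okP_even
    unfold garb
    simp only
    split_ifs <;> omega
  · by_cases ho : κ % 2 = 1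
    · rcases hk.2 ho with h1 | rfl
      · exact absurd hle (not_le.2 h1)
      · exact okP_top _
    · have hlt : ((κ / 2 : ℕ) : ℕ∞) < i := lt_of_le_of_ne hle (hk.1 (by omega))
      rw [okP_iff]
      intro _
      refine lt_of_le_of_lt ?_ hlt
      unfold garb gn
      simp only [if_neg ho]
      have h1 := (fr_spec (κ % 2) m (v.take (κ / 2))).1
      rw [List.length_take, min_eq_left h] at h1
      have h2 : (2 * fr (κ % 2) m (v.take (κ / 2)) + 1) / 2 =
        fr (κ % 2) m (v.take (κ / 2)) := by omega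
      rw [h2]
      exact_mod_cast h1

theorem nmn_okP (i : ℕ∞) (k : ℕ) (v : List ℕ) (a : ℕ) (h : k ≤ v.length)
    (hv : ∀ p ∈ v, okP i p = true) : okP i (nmn k v a) = true := by
  have h1 := nmn_named k v a h
  rw [named_iff] at h1
  rcases h1 with h1 | h1
  · exact okP_even _ _ h1
  · exact hv _ (List.mem_of_mem_take h1)

theorem posn_Zok (i : ℕ∞) (κ : ℕ) (v : List ℕ) (q : ℕ) (h : κ / 2 ≤ v.length)
    (hv : ∀ p ∈ v, okP i p = true) : Zok i κ (posn κ v q) := by
  refine ⟨?_, ?_, fun ho => posn_odd κ v q ho⟩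
  · unfold posn
    by_cases ho : κ % 2 = 1
    · rw [if_pos ho]
      exact okP_even _ _ rfl
    · rw [if_neg ho]
      exact nmn_okP i _ v _ h hv
  · unfold posn
    by_cases ho : κ % 2 = 1
    · rw [if_pos ho]
      exact nmn_okP i _ v _ h hv
    · rw [if_neg ho]
      exact nmn_okP i _ v _ h hv

theorem lab_le (P : Par) (i : ℕ∞) (c : Tc) (h : okT P.msk P.F P.K i c = true)
    (hk : Fok i c.1) : Zok i c.1 (lab P.msk P.K c) := by
  obtain ⟨κ, v, z, b⟩ := c
  rw [okT_cases] at h
  obtain ⟨⟨hkF, hvl, hv⟩, h⟩ := h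
  have hkK := P.hF κ hkF
  have hkv : κ / 2 ≤ v.length := by omega
  rcases h with ⟨hi, rfl, hz, -, -⟩ | ⟨hi, rfl, hs, hs'⟩ | ⟨hi, rfl, hz⟩
  · rw [lab_plain]; exact hz
  · obtain ⟨q, s⟩ := z
    by_cases hd : ∃ t, disc P.msk q s t = true
    · obtain ⟨t, ht⟩ := hd
      rw [lab_disc P.msk P.K κ v q s t ht]
      exact garb_Zok i κ v _ hkv hv hi hk
    · have hd' : ∀ t, disc P.msk q s t = false := by
        intro t
        by_contra hc
        exact hd ⟨t, by simpa using hc⟩
      rw [lab_pos P.msk P.K κ v q s hd']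
      exact posn_Zok i κ v q hkv hv
  · rw [lab_plain]; exact hz

/-- Two change times, none of which is ever discarded, are equal. -/
theorem never_disc (msk : ℕ → ℕ → ℕ) (q s s' : ℕ) (hs : lc msk q s = s) (hs' : lc msk q s' = s')
    (h : ∀ t, disc msk q s t = false) (h' : ∀ t, disc msk q s' t = false) : s = s' := by
  rcases lt_trichotomy s s' with hlt | heq | hlt
  · exfalso
    have : ¬ lc msk q s' = s := by rw [hs']; omega
    rw [lc_eq_iff msk q s s' hs hlt.le, not_not] at this
    obtain ⟨t, -, ht⟩ := this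
    exact not_contra ht (h t)
  · exact heq
  · exfalso
    have : ¬ lc msk q s = s' := by rw [hs]; omega
    rw [lc_eq_iff msk q s' s hs' hlt.le, not_not] at this
    obtain ⟨t, -, ht⟩ := this
    exact not_contra ht (h' t)

/-- The label of a valid discarded version is `old`. -/
theorem old_of_version (msk : ℕ → ℕ → ℕ) (K κ : ℕ) (v : List ℕ) (q s t : ℕ)
    (hs : lc msk q s = s) (hs' : lc msk q (max s (dl K v)) = s) (ht : disc msk q s t = true) :
    old msk K κ v (garb κ v (cd q s (pif msk q s (dl K v)) t)) = true := by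
  have hlt := (lc_max_iff msk q s (dl K v) hs).1 hs' t ht
  rw [old_iff]
  exact ⟨q, s, t, ht, hlt, rfl⟩

theorem lab_inj (P : Par) (i : ℕ∞) (c c' : Tc) (h : okT P.msk P.F P.K i c = true)
    (h' : okT P.msk P.F P.K i c' = true) (h1 : c.1 = c'.1) (h2 : c.2.1 = c'.2.1)
    (hl : lab P.msk P.K c = lab P.msk P.K c') : c = c' := by
  obtain ⟨κ, v, z, b⟩ := c
  obtain ⟨κ', v', z', b'⟩ := c'
  simp only at h1 h2
  subst h1 h2
  rw [okT_cases] at h h'
  obtain ⟨⟨hkF, hvl, hv⟩, h⟩ := h
  obtain ⟨-, h'⟩ := h'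
  have hkK := P.hF κ hkF
  have hkv : κ / 2 ≤ v.length := by omega
  have key : ∀ (z z' : ℕ × ℕ), indep (v.take (κ / 2)) = true →
      ¬ (named (κ / 2) v z.1 = true ∧ named (κ / 2) v z.2 = true) →
      old P.msk P.K κ v z = false → lc P.msk z'.1 z'.2 = z'.2 →
      lc P.msk z'.1 (max z'.2 (dl P.K v)) = z'.2 →
      lab P.msk P.K (κ, v, z', 1) = z → False := by
    rintro z ⟨q, s⟩ hi hz hold hs hs' he
    by_cases hd : ∃ t, disc P.msk q s t = true
    · obtain ⟨t, ht⟩ := hd
      rw [lab_disc P.msk P.K κ v q s t ht] at he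
      rw [← he] at hold
      exact not_contra (old_of_version P.msk P.K κ v q s t hs hs' ht) hold
    · have hd' : ∀ t, disc P.msk q s t = false := by
        intro t
        by_contra hc
        exact hd ⟨t, by simpa using hc⟩
      rw [lab_pos P.msk P.K κ v q s hd'] at he
      exact hz (he ▸ posn_named κ v q hkv)
  rcases h with ⟨hi, rfl, hz, hz2, hz3⟩ | ⟨hi, rfl, hs, hs'⟩ | ⟨hi, rfl, hz⟩
  · rcases h' with ⟨-, rfl, -, -, -⟩ | ⟨-, rfl, ht, ht'⟩ | ⟨hi', -, -⟩
    · rw [lab_plain, lab_plain] at hl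
      rw [hl]
    · rw [lab_plain] at hl
      exact (key z z' hi hz2 hz3 ht ht' hl.symm).elim
    · exact (not_contra hi hi').elim
  · rcases h' with ⟨-, rfl, -, hz2, hz3⟩ | ⟨-, rfl, ht, ht'⟩ | ⟨hi', -, -⟩
    · rw [lab_plain] at hl
      exact (key z' z hi hz2 hz3 hs hs' hl).elim
    · obtain ⟨q, s⟩ := z
      obtain ⟨q', s'⟩ := z'
      simp only at hs hs' ht ht'
      by_cases hd : ∃ t, disc P.msk q s t = true
      · obtain ⟨t, hdt⟩ := hd
        rw [lab_disc P.msk P.K κ v q s t hdt] at hl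
        by_cases hd2 : ∃ t, disc P.msk q' s' t = true
        · obtain ⟨t', hdt'⟩ := hd2
          rw [lab_disc P.msk P.K κ v q' s' t' hdt'] at hl
          obtain ⟨rfl, rfl, -, -⟩ := cd_inj _ _ _ _ _ _ _ _ (garb_inj _ _ _ _ hl)
          rfl
        · have hd' : ∀ t, disc P.msk q' s' t = false := by
            intro t
            by_contra hc
            exact hd2 ⟨t, by simpa using hc⟩
          rw [lab_pos P.msk P.K κ v q' s' hd'] at hl
          exfalso
          have h3 := (posn_named κ v q' hkv).2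
          rw [← hl] at h3
          exact not_contra h3 (garb_not_named _ _ _)
      · have hd' : ∀ t, disc P.msk q s t = false := by
          intro t
          by_contra hc
          exact hd ⟨t, by simpa using hc⟩
        rw [lab_pos P.msk P.K κ v q s hd'] at hl
        by_cases hd2 : ∃ t, disc P.msk q' s' t = true
        · obtain ⟨t', hdt'⟩ := hd2
          rw [lab_disc P.msk P.K κ v q' s' t' hdt'] at hl
          exfalso
          have h3 := (posn_named κ v q hkv).2
          rw [hl] at h3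
          exact not_contra h3 (garb_not_named _ _ _)
        · have hd2' : ∀ t, disc P.msk q' s' t = false := by
            intro t
            by_contra hc
            exact hd2 ⟨t, by simpa using hc⟩
          rw [lab_pos P.msk P.K κ v q' s' hd2'] at hl
          have hqq := posn_inj κ v hkv hi q q' hl
          subst hqq
          rw [never_disc P.msk q s s' hs ht hd' hd2']
    · exact (not_contra hi hi').elim
  · rcases h' with ⟨hi', -, -, -, -⟩ | ⟨hi', -, -, -⟩ | ⟨-, rfl, -⟩
    · exact (not_contra hi' hi).elim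
    · exact (not_contra hi' hi).elim
    · rw [lab_plain, lab_plain] at hl
      rw [hl]

theorem lab_surj (P : Par) (i : ℕ∞) (κ : ℕ) (hk : κ ∈ P.F) (v : List ℕ)
    (hv : v.length = P.K + 1) (hv' : ∀ p ∈ v, okP i p = true) (z : ℕ × ℕ)
    (hz : Zok i κ z) :
    ∃ z' b, okT P.msk P.F P.K i (κ, v, z', b) = true ∧ lab P.msk P.K (κ, v, z', b) = z := by
  have hkK := P.hF κ hk
  have hkv : κ / 2 ≤ v.length := by omega
  by_cases hi : indep (v.take (κ / 2)) = true
  · by_cases hmem : named (κ / 2) v z.1 = true ∧ named (κ / 2) v z.2 = true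
    · obtain ⟨q, hq⟩ := posn_surj κ v hkv z hmem.1 hmem.2 hz.2.2
      obtain ⟨t₀, ht₀⟩ := P.msk_lim q
      have hs := lc_lc P.msk q t₀
      -- after `t₀` no change
      have hlc : ∀ t, t₀ ≤ t → lc P.msk q t = lc P.msk q t₀ := by
        intro t ht
        induction t, ht using Nat.le_induction with
        | base => rfl
        | succ n hn ih =>
          simp only [lc]
          rw [if_pos (by rw [ht₀ (n + 1) (by omega), ht₀ n hn]), ih]
      have hall : ∀ u, lc P.msk q t₀ ≤ u → lc P.msk q u = lc P.msk q t₀ := by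
        intro u hu
        rcases le_total u t₀ with h | h
        · exact lc_eq_of P.msk q rfl hu h
        · exact hlc u h
      have hnd : ∀ t, disc P.msk q (lc P.msk q t₀) t = false := by
        intro t
        by_contra hc
        have hc' : disc P.msk q (lc P.msk q t₀) t = true := by simpa using hc
        exact ((lc_eq_iff P.msk q _ (max t (lc P.msk q t₀)) hs (le_max_right _ _)).1
          (hall _ (le_max_right _ _))) ⟨t, le_max_left _ _, hc'⟩
      refine ⟨(q, lc P.msk q t₀), 1, ?_, ?_⟩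
      · rw [okT_cases]
        exact ⟨⟨hk, hv, hv'⟩, Or.inr (Or.inl ⟨hi, rfl, hs, hall _ (le_max_left _ _)⟩)⟩
      · rw [lab_pos P.msk P.K κ v q _ hnd, hq]
    · by_cases hold : old P.msk P.K κ v z = true
      · rw [old_iff] at hold
        obtain ⟨q, s, t, ht, hlt, hzt⟩ := hold
        have hs : lc P.msk q s = s := by
          have := ht
          unfold disc at this
          simp only [Bool.and_eq_true, decide_eq_true_eq] at this
          exact this.1.1.1
        refine ⟨(q, s), 1, ?_, ?_⟩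
        · rw [okT_cases]
          refine ⟨⟨hk, hv, hv'⟩, Or.inr (Or.inl ⟨hi, rfl, hs, ?_⟩)⟩
          simp only
          rw [lc_max_iff P.msk q s _ hs]
          intro t' ht'
          rw [disc_unique P.msk q s t' t ht' ht]
          exact hlt
        · rw [lab_disc P.msk P.K κ v q s t ht]
          exact hzt.symm
      · refine ⟨z, 0, ?_, lab_plain _ _ _ _ _⟩
        rw [okT_cases]
        exact ⟨⟨hk, hv, hv'⟩, Or.inl ⟨hi, rfl, hz, hmem, by simpa using hold⟩⟩
  · refine ⟨z, 0, ?_, lab_plain _ _ _ _ _⟩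
    rw [okT_cases]
    exact ⟨⟨hk, hv, hv'⟩, Or.inr (Or.inr ⟨by simpa using hi, rfl, hz⟩)⟩

end Pool.Agent.Work.MP_ed0a9a_lc.V
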