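import Pool.Agent.Work.MP_ed0a9a_lc.V.CopyLab

/-!
# Module `CopyQ`: the links in the copy
-/

namespace Pool.Agent.Work.MP_ed0a9a_lc.V

theorem disc_or (msk : ℕ → ℕ → ℕ) (q s : ℕ) :
    (∃ t, disc msk q s t = true) ∨ ∀ t, disc msk q s t = false := by
  by_cases h : ∃ t, disc msk q s t = true
  · exact Or.inl h
  · right
    intro t
    by_contra hc
    exact h ⟨t, by simpa using hc⟩

/-- The final version. -/
theorem lim_of_never (P : Par) (q s : ℕ) (hs : lc P.msk q s = s)
    (h : ∀ t, disc P.msk q s t = false) : P.lim q = P.msk q s := by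
  obtain ⟨t₀, ht₀⟩ := P.lim_spec q
  have h1 : lc P.msk q (max s t₀) = s := by
    rw [lc_eq_iff P.msk q s _ hs (le_max_left _ _)]
    rintro ⟨t, -, ht⟩
    exact not_contra ht (h t)
  rw [← ht₀ (max s t₀) (le_max_right _ _), ← msk_lc P.msk q (max s t₀), h1]

theorem pif_zero (msk : ℕ → ℕ → ℕ) (q s : ℕ) : pif msk q s 0 = 0 := by
  unfold pif
  rw [if_neg]
  rintro ⟨-, h, -⟩
  exact h rfl

theorem pif_leaf (msk : ℕ → ℕ → ℕ) (q s n : ℕ) :
    pif msk q s (2 * (n + 1)) = 0 ↔ (msk q s).testBit n = false := by
  unfold pif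
  have h1 : 2 * (n + 1) / 2 - 1 = n := by omega
  rw [h1]
  by_cases hb : (msk q s).testBit n = true
  · rw [if_pos ⟨by omega, by omega, hb⟩, hb]
    simp
  · rw [if_neg (fun h => hb h.2.2)]
    simpa using hb

theorem qrel_iff (P : Par) (i : ℕ∞) (n : ℕ) (c c' : Tc) (h : okT P.msk P.F P.K i c = true)
    (h' : okT P.msk P.F P.K i c' = true) :
    qrel P.msk P.K n c c' = true ↔ c.1 = c'.1 ∧ c'.2.1.take P.K = c.2.1.take P.K ∧
      dl P.K c.2.1 = 0 ∧ dl P.K c'.2.1 = 2 * (n + 1) ∧ lab P.msk P.K c = lab P.msk P.K c' ∧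
      ¬ (lab P.msk P.K c = posn c.1 c.2.1 (Nat.unpair n).2 ∧
        (if indep (c.2.1.take (c.1 / 2)) then P.lim (Nat.unpair n).2
          else P.msk (Nat.unpair n).2 (lvn (c.2.1.take (c.1 / 2)))).testBit n = true) := by
  obtain ⟨k, v, z, b⟩ := c
  obtain ⟨k', v', z', b'⟩ := c'
  rw [okT_cases] at h h'
  obtain ⟨⟨hkF, hvl, -⟩, h⟩ := h
  obtain ⟨⟨hkF', hvl', -⟩, h'⟩ := h'
  have hkK := P.hF k hkF
  have hkv : k / 2 ≤ v.length := by omega
  unfold qrel
  simp only [Bool.and_eq_true, decide_eq_true_eq]
  rw [and_assoc, and_assoc, and_assoc]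
  refine and_congr_right (fun hk => and_congr_right (fun htake => and_congr_right
    (fun hd0 => and_congr_right (fun hdl => ?_))))
  subst hk
  -- the same `take`, `posn`
  have hyl : v'.take (k / 2) = v.take (k / 2) := by
    have h1 : ∀ w : List ℕ, w.take (k / 2) = (w.take P.K).take (k / 2) := by
      intro w
      rw [List.take_take, min_eq_left hkK]
    rw [h1 v', h1 v, htake]
  have hnm : ∀ a, nmn (k / 2) v' a = nmn (k / 2) v a := by
    intro a
    unfold nmn
    by_cases ha : a < k / 2
    · rw [if_pos ha, if_pos ha]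
      have h1 : ∀ w : List ℕ, w.length = P.K + 1 → w.getD a 0 = (w.take (k / 2)).getD a 0 := by
        intro w hw
        have e1 : a < (w.take (k / 2)).length := by rw [List.length_take]; omega
        have e2 : a < w.length := by omega
        rw [List.getD_eq_getElem _ _ e1, List.getD_eq_getElem _ _ e2]
        exact (List.getElem_take ..).symm
      rw [h1 v' hvl', h1 v hvl, hyl]
    · rw [if_neg ha, if_neg ha]
  have hposn : ∀ q, posn k v' q = posn k v q := by
    intro q
    unfold posn
    by_cases ho : k % 2 = 1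
    · rw [if_pos ho, if_pos ho, hnm]
    · rw [if_neg ho, if_neg ho, hnm, hnm]
  have hgarb : ∀ m, garb k v' m = garb k v m := by
    intro m
    unfold garb
    rw [hyl]
  rw [hyl] at h'
  rcases h with ⟨hi, rfl, -, hz, -⟩ | ⟨hi, rfl, hs, -⟩ | ⟨hi, rfl, -⟩
  · -- `c` plain, independent
    have hnp : ∀ q, z ≠ posn k v q := by
      rintro q rfl
      exact hz (posn_named k v q hkv)
    rcases h' with ⟨-, rfl, -, -, -⟩ | ⟨-, rfl, hs', -⟩ | ⟨hi', -, -⟩
    · rw [lab_plain, lab_plain]
      simp only [hi, if_true, decide_eq_true_eq]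
      constructor
      · intro h1
        exact ⟨h1, fun h2 => hnp _ h2.1⟩
      · intro h1
        exact h1.1
    · obtain ⟨q', s'⟩ := z'
      rw [lab_plain]
      simp only [hi, if_true, one_ne_zero, if_false]
      rw [isGarb_iff]
      constructor
      · rintro ⟨t, ht, hzt⟩
        refine ⟨?_, fun h2 => hnp _ h2.1⟩
        rw [lab_disc P.msk P.K k v' q' s' t ht]
        exact hzt
      · rintro ⟨h1, -⟩
        rcases disc_or P.msk q' s' with ⟨t, ht⟩ | hnd
        · rw [lab_disc P.msk P.K k v' q' s' t ht] at h1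
          exact ⟨t, ht, h1⟩
        · rw [lab_pos P.msk P.K k v' q' s' hnd, hposn] at h1
          exact absurd h1 (hnp _)
    · exact (not_contra hi hi').elim
  · obtain ⟨q, s⟩ := z
    simp only at hs
    rcases h' with ⟨-, rfl, -, hz', -⟩ | ⟨-, rfl, hs', -⟩ | ⟨hi', -, -⟩
    · -- `c'` plain
      rw [lab_plain]
      simp only [hi, if_true, one_ne_zero, if_false]
      rw [isGarb_iff]
      constructor
      · rintro ⟨t, ht, hzt⟩
        have h1 := lab_disc P.msk P.K k v q s t ht
        refine ⟨by rw [h1]; exact hzt.symm, ?_⟩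
        rintro ⟨h2, -⟩
        rw [h1] at h2
        have h3 := (posn_named k v (Nat.unpair n).2 hkv).2
        rw [← h2] at h3
        exact not_contra h3 (garb_not_named _ _ _)
      · rintro ⟨h1, -⟩
        rcases disc_or P.msk q s with ⟨t, ht⟩ | hnd
        · rw [lab_disc P.msk P.K k v q s t ht] at h1
          exact ⟨t, ht, h1.symm⟩
        · rw [lab_pos P.msk P.K k v q s hnd] at h1
          have h2 := posn_named k v q hkv
          rw [h1] at h2
          have h3 : ∀ p, named (k / 2) v' p = named (k / 2) v p := by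
            intro p
            unfold named
            rw [hyl]
          rw [h3, h3] at hz'
          exact absurd h2 hz'
    · -- both versions
      obtain ⟨q', s'⟩ := z'
      simp only at hs'
      simp only [hi, if_true, one_ne_zero, if_false, Bool.and_eq_true, decide_eq_true_eq,
        Bool.not_eq_true', Prod.mk.injEq]
      rcases disc_or P.msk q s with ⟨t, ht⟩ | hnd
      · rw [lab_disc P.msk P.K k v q s t ht]
        have hnp : ∀ q0 x, garb k v x ≠ posn k v q0 := by
          intro q0 x h2
          have h3 := (posn_named k v q0 hkv).2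
          rw [← h2] at h3
          exact not_contra h3 (garb_not_named _ _ _)
        constructor
        · rintro ⟨⟨rfl, rfl⟩, hbit⟩
          refine ⟨?_, fun h2 => hnp _ _ h2.1⟩
          rw [lab_disc P.msk P.K k v' q s t ht, hgarb, hd0, hdl, pif_zero,
            (pif_leaf _ _ _ _).2 hbit]
        · rintro ⟨h1, -⟩
          rcases disc_or P.msk q' s' with ⟨t', ht'⟩ | hnd'
          · rw [lab_disc P.msk P.K k v' q' s' t' ht', hgarb, hd0, hdl, pif_zero] at h1
            obtain ⟨rfl, rfl, h3, -⟩ := cd_inj _ _ _ _ _ _ _ _ (garb_inj _ _ _ _ h1)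
            exact ⟨⟨rfl, rfl⟩, (pif_leaf _ _ _ _).1 h3.symm⟩
          · rw [lab_pos P.msk P.K k v' q' s' hnd', hposn] at h1
            exact absurd h1 (hnp _ _)
      · rw [lab_pos P.msk P.K k v q s hnd]
        have hlim := lim_of_never P q s hs hnd
        constructor
        · rintro ⟨⟨rfl, rfl⟩, hbit⟩
          rw [lab_pos P.msk P.K k v' q s hnd, hposn]
          refine ⟨rfl, ?_⟩
          rintro ⟨h2, h3⟩
          have h4 := posn_inj k v hkv hi _ _ h2
          rw [← h4, hlim] at h3
          exact not_contra h3 hbit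
        · rintro ⟨h1, h2⟩
          rcases disc_or P.msk q' s' with ⟨t', ht'⟩ | hnd'
          · rw [lab_disc P.msk P.K k v' q' s' t' ht', hgarb] at h1
            have h3 := (posn_named k v q hkv).2
            rw [h1] at h3
            exact (not_contra h3 (garb_not_named _ _ _)).elim
          · rw [lab_pos P.msk P.K k v' q' s' hnd', hposn] at h1
            have h4 := posn_inj k v hkv hi _ _ h1
            subst h4
            have h5 := never_disc P.msk q s s' hs hs' hnd hnd'
            refine ⟨⟨rfl, h5⟩, ?_⟩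
            by_contra hbit
            have hbit' : (P.msk q s).testBit n = true := by simpa using hbit
            have h6 := P.msk_bit q s n hbit'
            apply h2
            rw [h6, hlim]
            exact ⟨rfl, hbit'⟩
    · exact (not_contra hi hi').elim
  · -- dependent
    rcases h' with ⟨hi', -, -, -, -⟩ | ⟨hi', -, -, -⟩ | ⟨-, rfl, -⟩
    · exact (not_contra hi' hi).elim
    · exact (not_contra hi' hi).elim
    · rw [lab_plain, lab_plain]
      simp only [hi, Bool.false_eq_true, if_false, Bool.and_eq_true, decide_eq_true_eq,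
        Bool.not_eq_true', missD]
      refine and_congr_right (fun _ => ?_)
      rw [← Bool.not_eq_true, Bool.and_eq_true, decide_eq_true_eq]

end Pool.Agent.Work.MP_ed0a9a_lc.V
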