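import Pool.Agent.Work.MP_ed0a9a_lc.V.CopyQ

/-!
# Module `CopyW`: the sort `W` in the copy
-/

namespace Pool.Agent.Work.MP_ed0a9a_lc.V

theorem okW_unique (P : Par) (i : ℕ∞) (c : Tc) (z' : ℕ × ℕ) (e e' : ℕ)
    (h : okW P.msk P.F P.K i c z' e = true) (h' : okW P.msk P.F P.K i c z' e' = true) :
    e = e' := by
  unfold okW at h h'
  simp only [Bool.and_eq_true] at h h'
  obtain ⟨-, h⟩ := h
  obtain ⟨-, h'⟩ := h'
  split_ifs at h h' with h1 h2
  · simp only [Bool.and_eq_true, decide_eq_true_eq] at h h'
    omega
  · exact disc_unique P.msk _ _ _ _ h h'
  · simp only [Bool.and_eq_true, decide_eq_true_eq] at h h'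
    omega

/-- A code that is not plain is a version. -/
private theorem okT_version (msk : ℕ → ℕ → ℕ) (F : Finset ℕ) (K : ℕ) (i : ℕ∞) (k : ℕ) (v : List ℕ)
    (z : ℕ × ℕ) (b : ℕ) (h : okT msk F K i (k, v, z, b) = true) (hb : b ≠ 0) :
      k ∈ F ∧ v.length = K + 1 ∧ indep (v.take (k / 2)) = true ∧ b = 1 := by
  rw [okT_cases] at h
  tauto

theorem okW_iff (P : Par) (i : ℕ∞) (c : Tc) (z' : ℕ × ℕ) :
    (∃ e, okW P.msk P.F P.K i c z' e = true) ↔
      okT P.msk P.F P.K i c = true ∧ Zok i c.1 z' ∧ z' ≠ lab P.msk P.K c := by
  obtain ⟨k, v, z, b⟩ := c
  unfold okW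
  simp only [Bool.and_eq_true, okZn_iff]
  by_cases hok : okT P.msk P.F P.K i (k, v, z, b) = true
  · by_cases hle : Zok i k z'
    · simp only [hok, hle, true_and]
      by_cases hb : b = 0
      · subst hb
        simp only [if_true, Bool.and_eq_true, decide_eq_true_eq, Bool.not_eq_true',
          decide_eq_false_iff_not]
        rw [lab_plain]
        constructor
        · rintro ⟨e, -, h2⟩
          exact h2
        · intro h2
          exact ⟨0, rfl, h2⟩
      · obtain ⟨hkF, hvl, hi, rfl⟩ := okT_version _ _ _ _ _ _ _ _ hok hb
        obtain ⟨q, s⟩ := z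
        have hkv : k / 2 ≤ v.length := by have := P.hF k hkF; omega
        simp only [one_ne_zero, if_false]
        by_cases hz : z' = posn k v q
        · simp only [hz, if_true]
          rcases disc_or P.msk q s with ⟨t, ht⟩ | hnd
          · rw [lab_disc P.msk P.K k v q s t ht]
            constructor
            · rintro - h2
              have h3 := (posn_named k v q hkv).2
              rw [h2] at h3
              exact not_contra h3 (garb_not_named _ _ _)
            · intro _
              exact ⟨t, ht⟩
          · rw [lab_pos P.msk P.K k v q s hnd]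
            constructor
            · rintro ⟨e, he⟩
              exact (not_contra he (hnd e)).elim
            · intro h2
              exact absurd rfl h2
        · simp only [hz, if_false, Bool.and_eq_true, decide_eq_true_eq, Bool.not_eq_true']
          have h1 : (∃ e : ℕ, e = 0 ∧ isGarb P.msk P.K k v q s z' = false) ↔
              ¬ isGarb P.msk P.K k v q s z' = true := by
            constructor
            · rintro ⟨_, -, h2⟩
              rw [h2]
              simp
            · intro h2
              exact ⟨0, rfl, by simpa using h2⟩
          rw [h1, isGarb_iff]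
          rcases disc_or P.msk q s with ⟨t, ht⟩ | hnd
          · rw [lab_disc P.msk P.K k v q s t ht]
            constructor
            · intro h2 h3
              exact h2 ⟨t, ht, h3⟩
            · rintro h2 ⟨t', ht', h3⟩
              rw [disc_unique P.msk q s t' t ht' ht] at h3
              exact h2 h3
          · rw [lab_pos P.msk P.K k v q s hnd]
            constructor
            · intro _
              exact hz
            · rintro - ⟨t', ht', -⟩
              exact not_contra ht' (hnd t')
    · simp only [hle, false_and, and_false, exists_false]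
  · simp only [hok, false_and, exists_false]
    simp

end Pool.Agent.Work.MP_ed0a9a_lc.V
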