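import Pool.Agent.Work.MP_ed0a9a_lc.Defs
import Pool.Agent.Work.MP_ed0a9a_lc.CopyDefs
import Pool.Agent.Work.MP_ed0a9a_lc.MskDefs

/-!
# Spectra of constructive models, second construction (MP_ed0a9a_lc)

The strongly minimal set `D` consists of named constants `c 0, c 1, …` and of unnamed elements;
the number of unnamed elements is the dimension.  Definitions of the structures `U P J`
(`J` = set of unnamed elements) and of the axioms.
-/

namespace Pool.Agent.Work.MP_ed0a9a_lc.V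

open FirstOrder

/-! ## The symbols -/

/-- The symbols of our signature.
`SD`, `ST κ`, `SW`: the sorts; `C m`: the `m`-th constant (a predicate with one element);
`P j`: the `j`-th visible coordinate of an element of a sort `ST κ`; `Wt`, `Wz false`, `Wz true`:
the coordinates of an element of the sort `W`; `Q n`: the links; `R e j`: the coding relations. -/
inductive Sym : Type
  | SD | SW
  | ST (κ : ℕ)
  | C (m : ℕ)
  | P (j : ℕ)
  | Wt
  | Wz (b : Bool)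
  | Q (n : ℕ)
  | R (e j : ℕ)

/-- The `i`-th symbol. -/
def Sym.dec (i : ℕ) : Sym :=
  match (Nat.unpair i).1 with
  | 0 => match (Nat.unpair i).2 with
    | 0 => .SD
    | 1 => .SW
    | κ + 2 => .ST κ
  | 1 => .C (Nat.unpair i).2
  | 2 => .P (Nat.unpair i).2
  | 3 => match (Nat.unpair i).2 with
    | 0 => .Wt
    | 1 => .Wz false
    | _ => .Wz true
  | 4 => .Q (Nat.unpair i).2
  | _ => .R (Nat.unpair (Nat.unpair i).2).1 (Nat.unpair (Nat.unpair i).2).2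

/-- A number of a symbol. -/
def Sym.code : Sym → ℕ
  | .SD => Nat.pair 0 0
  | .SW => Nat.pair 0 1
  | .ST κ => Nat.pair 0 (κ + 2)
  | .C m => Nat.pair 1 m
  | .P j => Nat.pair 2 j
  | .Wt => Nat.pair 3 0
  | .Wz false => Nat.pair 3 1
  | .Wz true => Nat.pair 3 2
  | .Q n => Nat.pair 4 n
  | .R e j => Nat.pair 5 (Nat.pair e j)

theorem Sym.dec_code (s : Sym) : Sym.dec s.code = s := by
  cases s with
  | Wz b => cases b <;> simp [Sym.dec, Sym.code]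
  | _ => simp [Sym.dec, Sym.code]

/-- Arity of a symbol; `ar e` is the arity of the relations `R e j`. -/
def arity (ar : ℕ → ℕ) : Sym → ℕ
  | .SD => 1
  | .SW => 1
  | .ST _ => 1
  | .C _ => 1
  | .P _ => 2
  | .Wt => 2
  | .Wz _ => 2
  | .Q _ => 2
  | .R e _ => ar e

/-- Arity of the `i`-th symbol. -/
def ari (ar : ℕ → ℕ) (i : ℕ) : ℕ := arity ar (Sym.dec i)

theorem ari_code (ar : ℕ → ℕ) (s : Sym) : ari ar s.code = arity ar s := by
  simp [ari, Sym.dec_code]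

/-- The relations of a structure, indexed by symbols. -/
def HN {ar : ℕ → ℕ} {N : Type} (S : (sig (ari ar)).Structure N) (s : Sym) (l : List N) : Prop :=
  hd (ari ar) S s.code l

/-- The structure given by relations indexed by symbols. -/
@[reducible] def mkStr (ar : ℕ → ℕ) {N : Type} (H : Sym → List N → Prop) : (sig (ari ar)).Structure N where
  funMap := fun f => Empty.elim f
  RelMap := fun r v => H (Sym.dec r.1) (List.ofFn v)

/-! ## The parameters -/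

/-- Parameters of the construction. -/
structure Par where
  /-- `2 * k`: kills exactly the dimension `k`; `2 * k + 1`: kills all finite dimensions `≥ k` -/
  F : Finset ℕ
  /-- there are `K + 1` visible coordinates -/
  K : ℕ
  hF : ∀ κ ∈ F, κ / 2 ≤ K
  /-- bit `n` of `msk q t`: direction `n` is missing at position `q`, at level `t` -/
  msk : ℕ → ℕ → ℕ
  msk_bit : ∀ q t n, (msk q t).testBit n = true → (Nat.unpair n).2 = q
  msk_lim : ∀ q, ∃ t₀, ∀ t, t₀ ≤ t → msk q t = msk q t₀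
  /-- arity of `R e j` -/
  ar : ℕ → ℕ
  kb : ℕ → ℕ → ℕ → Bool
  kb_mono : ∀ e j s t, s ≤ t → kb e j s = true → kb e j t = true

/-- The limit of `msk q`. -/
noncomputable def Par.lim (P : Par) (q : ℕ) : ℕ := P.msk q (Classical.choose (P.msk_lim q))

open Classical in
/-- `msk q` extended to `ℕ∞`. -/
noncomputable def Par.mskI (P : Par) (q : ℕ) (N : ℕ∞) : ℕ :=
  if N = ⊤ then P.lim q else P.msk q N.toNat

/-! ## The sort `D` -/

/-- Points of the sort `D`: `inl m` is the constant `c m`, `inr j` is an unnamed element. -/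
abbrev Pt (J : Type) := ℕ ⊕ J

/-- The list `l` of points has level `≥ c`. -/
def LG {J : Type} (l : List (Pt J)) (c : ℕ) : Prop :=
  (0 < c → l.Nodup) ∧ ∀ p ∈ l, ∀ m, p = Sum.inl m → c ≤ m

/-- The level of a list of points: `0` if it has repetitions, otherwise the least `m` such that
the constant `c m` occurs, `⊤` for different unnamed elements. -/
noncomputable def lvl {J : Type} (l : List (Pt J)) : ℕ∞ := lv (LG l)

/-- The `a`-th name relative to `x`: `x 0, …, x (k - 1), c 0, c 1, …`. -/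
def nm {J : Type} {K : ℕ} (k : ℕ) (x : Fin (K + 1) → Pt J) (a : ℕ) : Pt J :=
  if h : a < k ∧ a < K + 1 then x ⟨a, h.2⟩ else Sum.inl (a - k)

/-- The `q`-th position relative to `x`, for the sort `ST κ`. -/
def pos {J : Type} {K : ℕ} (κ : ℕ) (x : Fin (K + 1) → Pt J) (q : ℕ) : Pt J × Pt J :=
  if κ % 2 = 1 then (Sum.inl 0, nm (κ / 2) x q)
  else (nm (κ / 2) x (Nat.unpair q).1, nm (κ / 2) x (Nat.unpair q).2)

/-- Hidden coordinates of the sort `ST κ`. -/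
def okZ {J : Type} (κ : ℕ) (z : Pt J × Pt J) : Prop := κ % 2 = 1 → z.1 = Sum.inl 0

/-- Direction `n` is missing at its position for level `N`. -/
def missP (P : Par) (n : ℕ) (N : ℕ∞) : Prop :=
  (P.mskI (Nat.unpair n).2 N).testBit n = true

/-- Direction `n` is missing over `(x, z)`, for the sort `ST κ`. -/
def miss {J : Type} (P : Par) (κ : ℕ) (x : Fin (P.K + 1) → Pt J) (z : Pt J × Pt J) (n : ℕ) : Prop :=
  z = pos κ x (Nat.unpair n).2 ∧ missP P n (lvl ((List.ofFn x).take (κ / 2)))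

/-! ## The structures `U P J` -/

/-- Universe of the model with set `J` of unnamed elements. -/
inductive U (P : Par) (J : Type) : Type
  | d (p : Pt J)
  | t (κ : ℕ) (hκ : κ ∈ P.F) (x : Fin (P.K + 1) → Pt J) (z : Pt J × Pt J) (hz : okZ κ z)
  | w (κ : ℕ) (hκ : κ ∈ P.F) (x : Fin (P.K + 1) → Pt J) (z z' : Pt J × Pt J) (hz : okZ κ z)
      (hz' : okZ κ z') (h : z' ≠ z)

/-- The relations of `U P J`. -/
def relM (P : Par) (J : Type) : Sym → List (U P J) → Prop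
  | .SD, [.d _] => True
  | .SW, [.w _ _ _ _ _ _ _ _] => True
  | .ST κ, [.t κ' _ _ _ _] => κ = κ'
  | .C m, [.d p] => p = Sum.inl m
  | .P j, [.t _ _ x _ _, .d p] => ∃ h : j < P.K + 1, x ⟨j, h⟩ = p
  | .Wt, [.w κ _ x z _ _ _ _, .t κ' _ x' z' _] => κ = κ' ∧ x = x' ∧ z = z'
  | .Wz b, [.w _ _ _ _ z' _ _ _, .d p] => (if b then z'.2 else z'.1) = p
  | .Q n, [.t κ _ x z _, .t κ' _ x' z' _] =>
      κ = κ' ∧ z = z' ∧ (∀ j : Fin (P.K + 1), j.1 < P.K → x' j = x j) ∧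
        x (Fin.last P.K) = Sum.inl 0 ∧ x' (Fin.last P.K) = Sum.inl (n + 1) ∧ ¬ miss P κ x z n
  | .R e j, l => l.length = P.ar e ∧ ∃ l' : List (Pt J), l = l'.map U.d ∧
      ∃ t, P.kb e j t = true ∧ (t : ℕ∞) ≤ lvl l'
  | _, _ => False

/-- The structure on `U P J`. -/
noncomputable instance strU (P : Par) (J : Type) : (sig (ari P.ar)).Structure (U P J) :=
  mkStr P.ar (relM P J)

/-! ## Axioms, in semantic form -/

section

variable {N : Type} (H : Sym → List N → Prop)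

/-- `(z₁, z₂)` is the hidden coordinate of `τ`, an element of the sort `ST κ`. -/
def hz (κ : ℕ) (τ z₁ z₂ : N) : Prop :=
  H .SD [z₁] ∧ H .SD [z₂] ∧ (κ % 2 = 1 → H (.C 0) [z₁]) ∧
    ¬ ∃ w, H .Wt [w, τ] ∧ H (.Wz false) [w, z₁] ∧ H (.Wz true) [w, z₂]

/-- level `≥ c`, in terms of the relations -/
def LGH (l : List N) (c : ℕ) : Prop := (0 < c → l.Nodup) ∧ ∀ x ∈ l, ∀ m < c, ¬ H (.C m) [x]

/-- the level, in terms of the relations -/
noncomputable def lvH (l : List N) : ℕ∞ := lv (LGH H l)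

/-- `z` is the `a`-th name relative to `x`. -/
def nmH {K : ℕ} (k : ℕ) (x : Fin (K + 1) → N) (a : ℕ) (z : N) : Prop :=
  if h : a < k ∧ a < K + 1 then x ⟨a, h.2⟩ = z else H (.C (a - k)) [z]

/-- Direction `n` is missing over `(x, (z₁, z₂))`. -/
def missH (P : Par) (κ n : ℕ) (x : Fin (P.K + 1) → N) (z₁ z₂ : N) : Prop :=
  (if κ % 2 = 1 then H (.C 0) [z₁] ∧ nmH H (κ / 2) x (Nat.unpair n).2 z₂
    else nmH H (κ / 2) x (Nat.unpair (Nat.unpair n).2).1 z₁ ∧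
      nmH H (κ / 2) x (Nat.unpair (Nat.unpair n).2).2 z₂) ∧
  missP P n (lvH H ((List.ofFn x).take (κ / 2)))

/-- Axioms on the sorts. -/
structure GSort (P : Par) : Prop where
  len : ∀ s l, H s l → l.length = arity P.ar s
  cover : ∀ x, H .SD [x] ∨ (∃ κ ∈ P.F, H (.ST κ) [x]) ∨ H .SW [x]
  d_not_t : ∀ κ x, H .SD [x] → ¬ H (.ST κ) [x]
  d_not_w : ∀ x, H .SD [x] → ¬ H .SW [x]
  t_not_w : ∀ κ x, H (.ST κ) [x] → ¬ H .SW [x]
  t_uniq : ∀ κ κ', κ ≠ κ' → ∀ x, H (.ST κ) [x] → ¬ H (.ST κ') [x]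
  t_F : ∀ κ, κ ∉ P.F → ∀ x, ¬ H (.ST κ) [x]

/-- Axioms on the sort `D`. -/
structure GC : Prop where
  c_dom : ∀ m x, H (.C m) [x] → H .SD [x]
  c_ex : ∀ m, ∃ x, H (.C m) [x]
  c_uniq : ∀ m x y, H (.C m) [x] → H (.C m) [y] → x = y
  c_ne : ∀ m m', m ≠ m' → ∀ x, H (.C m) [x] → ¬ H (.C m') [x]

/-- Axioms on the coordinates. -/
structure GPW (P : Par) : Prop where
  p_dom : ∀ j τ x, H (.P j) [τ, x] → (∃ κ ∈ P.F, H (.ST κ) [τ]) ∧ H .SD [x]
  p_big : ∀ j, P.K < j → ∀ τ x, ¬ H (.P j) [τ, x]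
  p_ex : ∀ j, j ≤ P.K → ∀ τ, (∃ κ ∈ P.F, H (.ST κ) [τ]) → ∃ x, H (.P j) [τ, x]
  p_uniq : ∀ j τ x x', H (.P j) [τ, x] → H (.P j) [τ, x'] → x = x'
  wt_dom : ∀ w τ, H .Wt [w, τ] → H .SW [w] ∧ ∃ κ ∈ P.F, H (.ST κ) [τ]
  wt_ex : ∀ w, H .SW [w] → ∃ τ, H .Wt [w, τ]
  wt_uniq : ∀ w τ τ', H .Wt [w, τ] → H .Wt [w, τ'] → τ = τ'
  wz_dom : ∀ b w z, H (.Wz b) [w, z] → H .SW [w] ∧ H .SD [z]
  wz_ex : ∀ b w, H .SW [w] → ∃ z, H (.Wz b) [w, z]
  wz_uniq : ∀ b w z z', H (.Wz b) [w, z] → H (.Wz b) [w, z'] → z = z'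
  wz_ok : ∀ κ ∈ P.F, κ % 2 = 1 → ∀ w τ z, H (.ST κ) [τ] → H .Wt [w, τ] → H (.Wz false) [w, z] →
    H (.C 0) [z]
  w_inj : ∀ w w' τ z₁ z₂, H .Wt [w, τ] → H (.Wz false) [w, z₁] → H (.Wz true) [w, z₂] →
    H .Wt [w', τ] → H (.Wz false) [w', z₁] → H (.Wz true) [w', z₂] → w = w'

/-- Axioms on the hidden coordinates. -/
structure GT (P : Par) : Prop where
  hz_ex : ∀ κ ∈ P.F, ∀ τ, H (.ST κ) [τ] → ∃ z₁ z₂, hz H κ τ z₁ z₂
  hz_uniq : ∀ κ ∈ P.F, ∀ τ z₁ z₂ z₁' z₂', H (.ST κ) [τ] → hz H κ τ z₁ z₂ → hz H κ τ z₁' z₂' →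
    z₁ = z₁' ∧ z₂ = z₂'
  t_ex : ∀ κ ∈ P.F, ∀ (x : Fin (P.K + 1) → N) (z₁ z₂ : N), (∀ j, H .SD [x j]) → H .SD [z₁] →
    H .SD [z₂] → (κ % 2 = 1 → H (.C 0) [z₁]) →
    ∃ τ, H (.ST κ) [τ] ∧ (∀ j : Fin (P.K + 1), H (.P j) [τ, x j]) ∧ hz H κ τ z₁ z₂
  t_inj : ∀ κ ∈ P.F, ∀ (x : Fin (P.K + 1) → N) (z₁ z₂ τ τ' : N), H (.ST κ) [τ] → H (.ST κ) [τ'] →
    (∀ j : Fin (P.K + 1), H (.P j) [τ, x j]) → (∀ j : Fin (P.K + 1), H (.P j) [τ', x j]) →
    hz H κ τ z₁ z₂ → hz H κ τ' z₁ z₂ → τ = τ'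

/-- Axioms on the links. -/
def GQ (P : Par) : Prop :=
  ∀ n τ τ', H (.Q n) [τ, τ'] ↔ ∃ κ ∈ P.F, ∃ (x : Fin (P.K + 1) → N) (d' z₁ z₂ : N),
    H (.ST κ) [τ] ∧ H (.ST κ) [τ'] ∧ (∀ j : Fin (P.K + 1), H (.P j) [τ, x j]) ∧
    (∀ j : Fin (P.K + 1), j.1 < P.K → H (.P j) [τ', x j]) ∧ H (.P P.K) [τ', d'] ∧
    H (.C 0) [x (Fin.last P.K)] ∧ H (.C (n + 1)) [d'] ∧ hz H κ τ z₁ z₂ ∧ hz H κ τ' z₁ z₂ ∧
    ¬ missH H P κ n x z₁ z₂

/-- Axioms on the coding relations. -/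
def GR (P : Par) : Prop :=
  ∀ e j (l : List N), l.length = P.ar e → (H (.R e j) l ↔ (∀ x ∈ l, H .SD [x]) ∧
    ∃ t, P.kb e j t = true ∧ (t : ℕ∞) ≤ lvH H l)

/-- The axioms, in semantic form. -/
structure Good (P : Par) : Prop where
  sort : GSort H P
  c : GC H
  pw : GPW H P
  t : GT H P
  q : GQ H P
  r : GR H P

end

/-- Duplicates: the `i`-th relation only depends on the `i`-th symbol. -/
def Dup {ar : ℕ → ℕ} {N : Type} (S : (sig (ari ar)).Structure N) : Prop :=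
  ∀ i l, hd (ari ar) S i l ↔ hd (ari ar) S (Sym.dec i).code l

end Pool.Agent.Work.MP_ed0a9a_lc.V
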