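import Pool.Agent.Work.MP_ed0a9a_lc.V.Lvl
import Pool.Agent.Work.MP_ed0a9a_lc.V.StrU

/-!
# Module `GoodU`: the structures `U P J` satisfy `GSort`, `GC`, `GPW`, `GT`
-/

namespace Pool.Agent.Work.MP_ed0a9a_lc.V

theorem inv_SD {P : Par} {J : Type} {y : U P J} (h : relM P J .SD [y]) :
    ∃ p, y = .d p := by
  cases y with
  | d p => exact ⟨p, rfl⟩
  | t k hk x z hz => exact h.elim
  | w k hk x z z' hz hz' h' => exact h.elim

theorem inv_SW {P : Par} {J : Type} {y : U P J} (h : relM P J .SW [y]) :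
    ∃ k hk x z z' hz hz' h', y = .w k hk x z z' hz hz' h' := by
  cases y with
  | d p => exact h.elim
  | t k hk x z hz => exact h.elim
  | w k hk x z z' hz hz' h' => exact ⟨k, hk, x, z, z', hz, hz', h', rfl⟩

theorem inv_ST {P : Par} {J : Type} {k : ℕ} {y : U P J} (h : relM P J (.ST k) [y]) :
    ∃ hk x z hz, y = .t k hk x z hz := by
  cases y with
  | d p => exact h.elim
  | t k' hk x z hz =>
    have h' : k = k' := h
    subst h'
    exact ⟨hk, x, z, hz, rfl⟩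
  | w k hk x z z' hz hz' h' => exact h.elim

theorem inv_C {P : Par} {J : Type} {m : ℕ} {x : U P J}
    (h : relM P J (.C m) [x]) : x = .d (Sum.inl m) := by
  cases x <;> first | exact h.elim | skip
  rename_i p
  have h' : p = Sum.inl m := h
  rw [h']

theorem inv_P {P : Par} {J : Type} {j : ℕ} {x y : U P J}
    (h : relM P J (.P j) [x, y]) : ∃ k hk x' z hz, x = .t k hk x' z hz ∧
      ∃ hj : j < P.K + 1, y = .d (x' ⟨j, hj⟩) := by
  cases x <;> cases y <;> first | exact h.elim | skip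
  rename_i k hk x' z hz p
  have h' : ∃ hj : j < P.K + 1, x' ⟨j, hj⟩ = p := h
  obtain ⟨hj, e⟩ := h'
  exact ⟨k, hk, x', z, hz, rfl, hj, by rw [e]⟩

theorem inv_Wt {P : Par} {J : Type} {x y : U P J}
    (h : relM P J .Wt [x, y]) : ∃ k hk x' z z' hz hz' h', x = .w k hk x' z z' hz hz' h' ∧
      y = .t k hk x' z hz := by
  cases x <;> cases y <;> first | exact h.elim | skip
  rename_i k hk x' z z' hz hz' hne k2 hk2 x2 z2 hz2
  have h' : k = k2 ∧ x' = x2 ∧ z = z2 := h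
  obtain ⟨rfl, rfl, rfl⟩ := h'
  exact ⟨k, hk, x', z, z', hz, hz', hne, rfl, rfl⟩

theorem inv_Wz {P : Par} {J : Type} {b : Bool} {x y : U P J}
    (h : relM P J (.Wz b) [x, y]) : ∃ k hk x' z z' hz hz' h', x = .w k hk x' z z' hz hz' h' ∧
      y = .d (if b then z'.2 else z'.1) := by
  cases x <;> cases y <;> first | exact h.elim | skip
  rename_i k hk x' z z' hz hz' hne p
  have h' : (if b then z'.2 else z'.1) = p := h
  subst h'
  exact ⟨k, hk, x', z, z', hz, hz', hne, rfl, rfl⟩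

theorem inv_T {P : Par} {J : Type} {y : U P J} (h : ∃ k ∈ P.F, relM P J (.ST k) [y]) :
    ∃ k hk x z hz, y = .t k hk x z hz := by
  obtain ⟨k, _, h⟩ := h
  obtain ⟨hk, x, z, hz, e⟩ := inv_ST h
  exact ⟨k, hk, x, z, hz, e⟩

theorem hz_iff (P : Par) (J : Type) (k : ℕ) (hk : k ∈ P.F) (x : Fin (P.K + 1) → Pt J)
    (z : Pt J × Pt J) (hz0 : okZ k z) (y₁ y₂ : U P J) :
    hz (relM P J) k (.t k hk x z hz0) y₁ y₂ ↔ y₁ = .d z.1 ∧ y₂ = .d z.2 := by
  unfold hz
  constructor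
  · rintro ⟨h1, h2, h3, h4⟩
    obtain ⟨p, rfl⟩ := inv_SD h1
    obtain ⟨p', rfl⟩ := inv_SD h2
    by_cases h : (p, p') = z
    · rw [← h]
      exact ⟨rfl, rfl⟩
    · have hok : okZ k (p, p') := fun hk => h3 hk
      exact absurd ⟨.w k hk x z (p, p') hz0 hok h, ⟨rfl, rfl, rfl⟩, rfl, rfl⟩ h4
  · rintro ⟨rfl, rfl⟩
    refine ⟨trivial, trivial, fun hk => hz0 hk, ?_⟩
    rintro ⟨w, h1, h2, h3⟩
    obtain ⟨k1, hk1, x1, z1, z1', hz1, hz1', hne1, rfl, e⟩ := inv_Wt h1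
    obtain ⟨k2, hk2, x2, z2, z2', hz2, hz2', hne2, e2, e3⟩ := inv_Wz h2
    obtain ⟨k4, hk4, x4, z4, z4', hz4, hz4', hne4, e4, e5⟩ := inv_Wz h3
    cases e
    cases e2
    cases e4
    have a1 : z.1 = z1'.1 := by
      have := e3
      injection this
    have a2 : z.2 = z1'.2 := by
      have := e5
      injection this
    exact hne1 (Prod.ext a1.symm a2.symm)

theorem goodU_sort (P : Par) (J : Type) : GSort (relM P J) P where
  len := fun s l h => relM_len P J s l h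
  cover := by
    intro x
    cases x with
    | d p => exact Or.inl trivial
    | t k hk x z hz => exact Or.inr (Or.inl ⟨k, hk, rfl⟩)
    | w k hk x z z' hz hz' h => exact Or.inr (Or.inr trivial)
  d_not_t := by
    intro k x h h'
    obtain ⟨p, rfl⟩ := inv_SD h
    exact h'.elim
  d_not_w := by
    intro x h h'
    obtain ⟨p, rfl⟩ := inv_SD h
    exact h'.elim
  t_not_w := by
    intro k x h h'
    obtain ⟨hk, x, z, hz, rfl⟩ := inv_ST h
    exact h'.elim
  t_uniq := by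
    intro k k' hne x h h'
    obtain ⟨hk, x, z, hz, rfl⟩ := inv_ST h
    have : k' = k := h'
    exact hne this.symm
  t_F := by
    intro k hk x h
    obtain ⟨hk', x, z, hz, rfl⟩ := inv_ST h
    exact hk hk'

theorem goodU_c (P : Par) (J : Type) : GC (relM P J) where
  c_dom := by
    intro m x h
    rw [inv_C h]
    trivial
  c_ex := fun m => ⟨.d (Sum.inl m), rfl⟩
  c_uniq := by
    intro m x y h h'
    rw [inv_C h, inv_C h']
  c_ne := by
    intro m m' hne x h h'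
    have h1 := inv_C h
    have h2 := inv_C h'
    rw [h1] at h2
    injection h2 with h2
    injection h2 with h2
    exact hne h2

theorem goodU_pw (P : Par) (J : Type) : GPW (relM P J) P where
  p_dom := by
    intro j τ x h
    obtain ⟨k, hk, x', z, hz, rfl, hj, rfl⟩ := inv_P h
    exact ⟨⟨k, hk, rfl⟩, trivial⟩
  p_big := by
    intro j hj τ x h
    obtain ⟨k, hk, x', z, hz, rfl, hj', rfl⟩ := inv_P h
    omega
  p_ex := by
    intro j hj τ h
    obtain ⟨k, hk, x', z, hz, rfl⟩ := inv_T h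
    exact ⟨.d (x' ⟨j, by omega⟩), ⟨by omega, rfl⟩⟩
  p_uniq := by
    intro j τ x x' h h'
    obtain ⟨k, hk, x1, z, hz, rfl, hj1, rfl⟩ := inv_P h
    obtain ⟨k2, hk2, x2, z2, hz2, e, hj2, rfl⟩ := inv_P h'
    cases e
    rfl
  wt_dom := by
    intro w τ h
    obtain ⟨k, hk, x', z, z', hz, hz', hne, rfl, rfl⟩ := inv_Wt h
    exact ⟨trivial, k, hk, rfl⟩
  wt_ex := by
    intro w h
    obtain ⟨k, hk, x', z, z', hz, hz', hne, rfl⟩ := inv_SW h
    exact ⟨.t k hk x' z hz, rfl, rfl, rfl⟩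
  wt_uniq := by
    intro w τ τ' h h'
    obtain ⟨k, hk, x', z, z', hz, hz', hne, rfl, rfl⟩ := inv_Wt h
    obtain ⟨k2, hk2, x2, z2, z2', hz2, hz2', hne2, e, rfl⟩ := inv_Wt h'
    cases e
    rfl
  wz_dom := by
    intro b w z h
    obtain ⟨k, hk, x', z, z', hz, hz', hne, rfl, rfl⟩ := inv_Wz h
    exact ⟨trivial, trivial⟩
  wz_ex := by
    intro b w h
    obtain ⟨k, hk, x', z, z', hz, hz', hne, rfl⟩ := inv_SW h
    exact ⟨.d (if b then z'.2 else z'.1), rfl⟩
  wz_uniq := by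
    intro b w z z' h h'
    obtain ⟨k, hk, x', z1, z1', hz, hz', hne, rfl, rfl⟩ := inv_Wz h
    obtain ⟨k2, hk2, x2, z2, z2', hz2, hz2', hne2, e, rfl⟩ := inv_Wz h'
    cases e
    rfl
  wz_ok := by
    intro κ _ hodd w τ z h1 h2 h3
    obtain ⟨k, hk, x', z1, z1', hz, hz', hne, rfl, rfl⟩ := inv_Wt h2
    obtain ⟨k2, hk2, x2, z2, z2', hz2, hz2', hne2, e, rfl⟩ := inv_Wz h3
    cases e
    have hkk : κ = k := h1
    subst hkk
    exact hz' hodd
  w_inj := by
    intro w w' τ z₁ z₂ h1 h2 h2' h3 h4 h4'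
    obtain ⟨k, hk, x', z1, z1', hz, hz', hne, rfl, rfl⟩ := inv_Wt h1
    obtain ⟨k2, hk2, x2, z2, z2', hz2, hz2', hne2, rfl, e2⟩ := inv_Wt h3
    cases e2
    obtain ⟨k3, hk3, x3, z3, z3', hz3, hz3', hne3, e3, rfl⟩ := inv_Wz h2
    cases e3
    obtain ⟨k5, hk5, x5, z5, z5', hz5, hz5', hne5, e5, rfl⟩ := inv_Wz h2'
    cases e5
    obtain ⟨k4, hk4, x4, z4, z4', hz4, hz4', hne4, e4, e4'⟩ := inv_Wz h4
    cases e4
    obtain ⟨k6, hk6, x6, z6, z6', hz6, hz6', hne6, e6, e6'⟩ := inv_Wz h4'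
    cases e6
    have a1 : z1'.1 = z2'.1 := by
      have := e4'
      injection this
    have a2 : z1'.2 = z2'.2 := by
      have := e6'
      injection this
    have a3 : z1' = z2' := Prod.ext a1 a2
    subst a3
    rfl

theorem goodU_t (P : Par) (J : Type) : GT (relM P J) P where
  hz_ex := by
    intro κ hκ τ h
    obtain ⟨hk, x', z, hz, rfl⟩ := inv_ST h
    exact ⟨.d z.1, .d z.2, (hz_iff P J κ hk x' z hz _ _).2 ⟨rfl, rfl⟩⟩
  hz_uniq := by
    intro κ hκ τ z₁ z₂ z₁' z₂' h h1 h2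
    obtain ⟨hk, x', z, hz, rfl⟩ := inv_ST h
    rw [hz_iff] at h1 h2
    rw [h1.1, h1.2, h2.1, h2.2]
    exact ⟨rfl, rfl⟩
  t_ex := by
    intro k hk x z₁ z₂ hx hz₁ hz₂ hz0
    have hx' : ∀ j, ∃ p, x j = .d p := fun j => inv_SD (hx j)
    choose x' hx' using hx'
    obtain ⟨p, rfl⟩ := inv_SD hz₁
    obtain ⟨p', rfl⟩ := inv_SD hz₂
    have hok : okZ k (p, p') := fun h => hz0 h
    refine ⟨.t k hk x' (p, p') hok, rfl, ?_, (hz_iff P J k hk x' (p, p') hok _ _).2 ⟨rfl, rfl⟩⟩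
    intro j
    rw [hx' j]
    exact ⟨j.2, rfl⟩
  t_inj := by
    intro k hk x z₁ z₂ τ τ' h1 h2 h3 h4 h5 h6
    obtain ⟨hk1, x1, z1, hz1, rfl⟩ := inv_ST h1
    obtain ⟨hk2, x2, z2, hz2, rfl⟩ := inv_ST h2
    rw [hz_iff] at h5 h6
    have a1 : z1.1 = z2.1 := by
      have := h5.1.symm.trans h6.1
      injection this
    have a2 : z1.2 = z2.2 := by
      have := h5.2.symm.trans h6.2
      injection this
    have hz12 : z1 = z2 := Prod.ext a1 a2
    subst hz12
    have hx12 : x1 = x2 := by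
      funext j
      obtain ⟨k3, hk3, x3, z3, hz3, e3, hj3, e3'⟩ := inv_P (h3 j)
      obtain ⟨k4, hk4, x4, z4, hz4, e4, hj4, e4'⟩ := inv_P (h4 j)
      cases e3
      cases e4
      rw [e3'] at e4'
      have := e4'
      injection this
    subst hx12
    rfl

end Pool.Agent.Work.MP_ed0a9a_lc.V
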