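import Pool.Agent.Work.MP_ed0a9a_lc.V.CopyLab

/-!
# Module `IsoPt`: codes of points
-/

namespace Pool.Agent.Work.MP_ed0a9a_lc.V

theorem ptC_even (i : ℕ∞) (p : ℕ) (h : p % 2 = 0) : ptC i p = Sum.inl (p / 2) := by
  unfold ptC
  rw [dif_neg]
  rintro ⟨h1, -⟩
  omega

theorem ptC_odd (i : ℕ∞) (p : ℕ) (h : p % 2 = 1) (h' : ((p / 2 : ℕ) : ℕ∞) < i) :
    ptC i p = Sum.inr ⟨p / 2, h'⟩ := by
  unfold ptC
  rw [dif_pos ⟨h, h'⟩]

theorem ptC_inj (i : ℕ∞) (p p' : ℕ) (h : okP i p = true) (h' : okP i p' = true)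
    (he : ptC i p = ptC i p') : p = p' := by
  rw [okP_iff] at h h'
  rcases Nat.mod_two_eq_zero_or_one p with a | a <;>
    rcases Nat.mod_two_eq_zero_or_one p' with b | b
  · rw [ptC_even i p a, ptC_even i p' b] at he
    injection he with he
    omega
  · rw [ptC_even i p a, ptC_odd i p' b (h' b)] at he
    cases he
  · rw [ptC_odd i p a (h a), ptC_even i p' b] at he
    cases he
  · rw [ptC_odd i p a (h a), ptC_odd i p' b (h' b)] at he
    injection he with he
    have h2 := congrArg Subtype.val he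
    simp only at h2
    omega

theorem ptC_surj (i : ℕ∞) (x : Pt (Jt i)) : ∃ p : ℕ, okP i p = true ∧ ptC i p = x := by
  rcases x with m | ⟨r, hr⟩
  · refine ⟨2 * m, okP_even i _ (by omega), ?_⟩
    rw [ptC_even i _ (by omega)]
    congr 1
    omega
  · have e : (2 * r + 1) / 2 = r := by omega
    have hr' : (((2 * r + 1) / 2 : ℕ) : ℕ∞) < i := by rw [e]; exact hr
    refine ⟨2 * r + 1, ?_, ?_⟩
    · rw [okP_iff]
      intro _
      exact hr'
    · rw [ptC_odd i _ (by omega) hr']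
      congr 1
      exact Subtype.ext e

theorem ptC_eq_inl (i : ℕ∞) (p m : ℕ) (h : okP i p = true) :
    ptC i p = Sum.inl m ↔ p = 2 * m := by
  rw [okP_iff] at h
  rcases Nat.mod_two_eq_zero_or_one p with a | a
  · rw [ptC_even i p a]
    constructor
    · intro h1
      injection h1 with h1
      omega
    · intro h1
      congr 1
      omega
  · rw [ptC_odd i p a (h a)]
    constructor
    · intro h1
      cases h1
    · intro h1
      omega

theorem ptC_zero (i : ℕ∞) : ptC i 0 = Sum.inl 0 := ptC_even i 0 rfl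

theorem ptC_two (i : ℕ∞) (m : ℕ) : ptC i (2 * m) = Sum.inl m := by
  rw [ptC_even i _ (by omega)]
  congr 1
  omega

theorem LG_map_ptC (i : ℕ∞) (l : List ℕ) (hl : ∀ p ∈ l, okP i p = true) (c : ℕ) :
    LG (l.map (ptC i)) c ↔ LGn l c := by
  unfold LG LGn
  have h1 : (l.map (ptC i)).Nodup ↔ l.Nodup := by
    constructor
    · exact List.Nodup.of_map _
    · intro h
      rw [List.nodup_map_iff_inj_on h]
      intro x hx y hy hxy
      exact ptC_inj i x y (hl x hx) (hl y hy) hxy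
  rw [h1, List.forall_mem_map]
  refine and_congr Iff.rfl ?_
  constructor
  · intro h p hp h2
    exact h p hp (p / 2) (ptC_even i p h2)
  · intro h p hp m hm
    rw [ptC_eq_inl i p m (hl p hp)] at hm
    have := h p hp (by omega)
    omega

theorem LGn_iff (l : List ℕ) (h : indep l = false) (c : ℕ) : LGn l c ↔ c ≤ lvn l := by
  have hbound : ∀ c, LGn l c → c ≤ l.sum := by
    intro c hc
    by_cases hn : l.Nodup
    · have h1 : ∃ p ∈ l, p % 2 = 0 := by
        by_contra hno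
        push Not at hno
        have h2 : indep l = true := by
          rw [indep_iff]
          refine ⟨hn, fun p hp => ?_⟩
          have := hno p hp
          omega
        exact not_contra h2 h
      obtain ⟨p, hp, hp'⟩ := h1
      have h2 := hc.2 p hp hp'
      have h3 : p ≤ l.sum := List.single_le_sum (fun _ _ => Nat.zero_le _) p hp
      omega
    · rcases Nat.eq_zero_or_pos c with rfl | hpos
      · exact Nat.zero_le _
      · exact absurd (hc.1 hpos) hn
  have hmono : ∀ c d, c ≤ d → LGn l d → LGn l c := by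
    intro c d hcd hd
    exact ⟨fun h => hd.1 (lt_of_lt_of_le h hcd), fun p hp h2 => hcd.trans (hd.2 p hp h2)⟩
  have h0 : LGn l 0 := ⟨fun h => absurd h (lt_irrefl 0), fun _ _ _ => Nat.zero_le _⟩
  constructor
  · intro hc
    exact Nat.le_findGreatest (hbound c hc) hc
  · intro hc
    have h1 : LGn l (lvn l) := Nat.findGreatest_spec (P := LGn l) (Nat.zero_le _) h0
    exact hmono c _ hc h1

theorem lvl_map_ptC (i : ℕ∞) (l : List ℕ) (hl : ∀ p ∈ l, okP i p = true) :
    lvl (l.map (ptC i)) = if indep l then ⊤ else (lvn l : ℕ∞) := by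
  by_cases hi : indep l = true
  · rw [if_pos hi, ENat.eq_top_iff_forall_ge]
    intro c
    rw [le_lvl_iff, LG_map_ptC i l hl]
    rw [indep_iff] at hi
    refine ⟨fun _ => hi.1, fun p hp h2 => ?_⟩
    have := hi.2 p hp
    omega
  · rw [if_neg hi]
    have hi' : indep l = false := by simpa using hi
    have key : ∀ c : ℕ, (c : ℕ∞) ≤ lvl (l.map (ptC i)) ↔ c ≤ lvn l := by
      intro c
      rw [le_lvl_iff, LG_map_ptC i l hl, LGn_iff l hi']
    apply le_antisymm
    · by_contra hlt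
      have h1 : (lvn l : ℕ∞) < lvl (l.map (ptC i)) := not_le.1 hlt
      have h2 : ((lvn l + 1 : ℕ) : ℕ∞) ≤ lvl (l.map (ptC i)) := by
        rw [Nat.cast_add, Nat.cast_one]
        exact Order.add_one_le_of_lt h1
      rw [key] at h2
      omega
    · rw [key]

/-- The list `ofFn (xC v)` is the image of `v`. -/
theorem ofFn_xC (K : ℕ) (i : ℕ∞) (v : List ℕ) (hv : v.length = K + 1) :
    List.ofFn (xC K i v) = v.map (ptC i) := by
  apply List.ext_getElem
  · simp [hv]
  · intro j h1 h2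
    rw [List.getElem_ofFn, List.getElem_map]
    unfold xC
    rw [List.getD_eq_getElem _ _ (by simpa using h2)]

theorem nm_xC (K : ℕ) (i : ℕ∞) (k : ℕ) (v : List ℕ) (hk : k ≤ K) (a : ℕ) :
    nm k (xC K i v) a = ptC i (nmn k v a) := by
  unfold nm nmn
  by_cases ha : a < k
  · rw [dif_pos ⟨ha, by omega⟩, if_pos ha]
    rfl
  · rw [dif_neg (fun h => ha h.1), if_neg ha, ptC_two]

theorem pos_xC (K : ℕ) (i : ℕ∞) (κ : ℕ) (v : List ℕ) (hk : κ / 2 ≤ K) (q : ℕ) :
    pos κ (xC K i v) q = zC i (posn κ v q) := by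
  unfold pos posn zC
  by_cases ho : κ % 2 = 1
  · rw [if_pos ho, if_pos ho, nm_xC K i _ v hk, ptC_zero]
  · rw [if_neg ho, if_neg ho, nm_xC K i _ v hk, nm_xC K i _ v hk]

theorem lvl_take_xC (K : ℕ) (i : ℕ∞) (k : ℕ) (v : List ℕ) (hv : v.length = K + 1)
    (hl : ∀ p ∈ v, okP i p = true) :
    lvl ((List.ofFn (xC K i v)).take k) =
      if indep (v.take k) then ⊤ else (lvn (v.take k) : ℕ∞) := by
  rw [ofFn_xC K i v hv, ← List.map_take]
  exact lvl_map_ptC i (v.take k) (fun p hp => hl p (List.mem_of_mem_take hp))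

theorem zC_inj (i : ℕ∞) (κ : ℕ) (z z' : ℕ × ℕ) (h : Zok i κ z) (h' : Zok i κ z')
    (he : zC i z = zC i z') : z = z' := by
  have h1 := congrArg Prod.fst he
  have h2 := congrArg Prod.snd he
  exact Prod.ext (ptC_inj i _ _ h.1 h'.1 h1) (ptC_inj i _ _ h.2.1 h'.2.1 h2)

theorem okZ_zC (i : ℕ∞) (κ : ℕ) (z : ℕ × ℕ) (h : Zok i κ z) : okZ κ (zC i z) := by
  intro ho
  show ptC i z.1 = Sum.inl 0
  rw [h.2.2 ho, ptC_zero]

theorem zC_surj (i : ℕ∞) (κ : ℕ) (z : Pt (Jt i) × Pt (Jt i)) (h : okZ κ z) :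
    ∃ z', Zok i κ z' ∧ zC i z' = z := by
  obtain ⟨a, ha, ha'⟩ := ptC_surj i z.1
  obtain ⟨b, hb, hb'⟩ := ptC_surj i z.2
  refine ⟨(a, b), ⟨ha, hb, fun ho => ?_⟩, Prod.ext ha' hb'⟩
  have h1 := h ho
  rw [← ha', ptC_eq_inl i a 0 ha] at h1
  exact h1

end Pool.Agent.Work.MP_ed0a9a_lc.V
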