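import Pool.Agent.Work.MP_ed0a9a_lc.V.IsoU
import Pool.Agent.Work.MP_ed0a9a_lc.V.CopyQ

/-!
# Module `IsoQ`: `dU` preserves the links
-/

namespace Pool.Agent.Work.MP_ed0a9a_lc.V

theorem take_iff (K : ℕ) (i : ℕ∞) (v v' : List ℕ) (hv : v.length = K + 1)
    (hv' : v'.length = K + 1) (hl : ∀ p ∈ v, okP i p = true)
    (hl' : ∀ p ∈ v', okP i p = true) :
    v'.take K = v.take K ↔ ∀ j : Fin (K + 1), j.1 < K → xC K i v' j = xC K i v j := by
  constructor
  · intro h j hj
    unfold xC
    rw [List.getD_eq_getElem _ _ (by omega), List.getD_eq_getElem _ _ (by omega)]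
    have h1 : (v'.take K)[j.1]'(by rw [List.length_take]; omega) =
        (v.take K)[j.1]'(by rw [List.length_take]; omega) := by
      simp only [h]
    rw [List.getElem_take, List.getElem_take] at h1
    rw [h1]
  · intro h
    apply List.ext_getElem
    · rw [List.length_take, List.length_take]; omega
    · intro j h1 h2
      rw [List.length_take] at h1
      have h3 := h ⟨j, by omega⟩ (by simp only; omega)
      unfold xC at h3
      rw [List.getD_eq_getElem _ _ (by simp only; omega),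
        List.getD_eq_getElem _ _ (by simp only; omega)] at h3
      rw [List.getElem_take, List.getElem_take]
      exact ptC_inj i _ _ (hl' _ (List.getElem_mem _)) (hl _ (List.getElem_mem _)) h3

theorem miss_xC (P : Par) (i : ℕ∞) (κ : ℕ) (hκ : κ / 2 ≤ P.K) (v : List ℕ)
    (hv : v.length = P.K + 1)
    (hl : ∀ p ∈ v, okP i p = true) (z : ℕ × ℕ) (hz : Zok i κ z) (n : ℕ) :
    miss P κ (xC P.K i v) (zC i z) n ↔ (z = posn κ v (Nat.unpair n).2 ∧
        (if indep (v.take (κ / 2)) then P.lim (Nat.unpair n).2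
          else P.msk (Nat.unpair n).2 (lvn (v.take (κ / 2)))).testBit n = true) := by
  unfold miss missP
  rw [pos_xC P.K i κ v hκ, lvl_take_xC P.K i (κ / 2) v hv hl]
  have h1 : zC i z = zC i (posn κ v (Nat.unpair n).2) ↔ z = posn κ v (Nat.unpair n).2 :=
    ⟨zC_inj i κ _ _ hz (posn_Zok i κ v _ (by omega) hl), fun h => by rw [h]⟩
  rw [h1]
  by_cases hi : indep (v.take (κ / 2)) = true
  · rw [if_pos hi, if_pos hi, Par.mskI_top]
  · rw [if_neg hi, if_neg hi, Par.mskI_coe]

theorem isoQ (P : Par) (i : ℕ∞) (hF : ∀ κ ∈ P.F, Fok i κ) (n : ℕ) (x y : Raw)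
    (hx : okRaw P i x = true) (hy : okRaw P i y = true) :
    (decide (x.1 = 1) && decide (y.1 = 1) && qrel P.msk P.K n x.2.1 y.2.1) = true ↔
      relM P (Jt i) (.Q n) [dU P i x, dU P i y] := by
  rcases okRaw_tag P i x hx with h | h | h
  · rw [dU_d P i x h]
    simp [h, relM]
  · rcases okRaw_tag P i y hy with h2 | h2 | h2
    · rw [dU_d P i y h2]
      obtain ⟨hk, hz, e⟩ := dU_t P i hF x hx h
      rw [e]
      simp [h2, relM]
    · obtain ⟨hk, hz, e⟩ := dU_t P i hF x hx h
      obtain ⟨hk2, hz2, e2⟩ := dU_t P i hF y hy h2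
      have hokx := (ok_t P i x hx h).1
      have hoky := (ok_t P i y hy h2).1
      obtain ⟨-, hvl, hv⟩ := okT_spec P i x.2.1 hokx
      obtain ⟨-, hvl2, hv2⟩ := okT_spec P i y.2.1 hoky
      have hlx := lab_le P i _ hokx (hF _ hk)
      have hly := lab_le P i _ hoky (hF _ hk2)
      rw [e, e2]
      simp only [relM, h, h2, decide_true, Bool.true_and]
      rw [qrel_iff P i n x.2.1 y.2.1 hokx hoky, miss_xC P i _ (P.hF _ hk) _ hvl hv _ hlx n,
        ← take_iff P.K i _ _ hvl hvl2 hv hv2]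
      have hle : ∀ v : List ℕ, v.length = P.K + 1 → (∀ p ∈ v, okP i p = true) →
          okP i (dl P.K v) = true := by
        intro v hv hv'
        unfold dl
        rw [List.getD_eq_getElem _ _ (by omega)]
        exact hv' _ (List.getElem_mem _)
      have e3 : ∀ v : List ℕ, xC P.K i v (Fin.last P.K) = ptC i (dl P.K v) := fun v => rfl
      have h4 : xC P.K i x.2.1.2.1 (Fin.last P.K) = Sum.inl 0 ↔ dl P.K x.2.1.2.1 = 0 := by
        rw [e3, ptC_eq_inl i _ _ (hle _ hvl hv)]
      have h5 : xC P.K i y.2.1.2.1 (Fin.last P.K) = Sum.inl (n + 1) ↔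
          dl P.K y.2.1.2.1 = 2 * (n + 1) := by
        rw [e3, ptC_eq_inl i _ _ (hle _ hvl2 hv2)]
      rw [h4, h5]
      constructor
      · rintro ⟨b1, b2, b3, b4, b5, b6⟩
        exact ⟨b1, by rw [b5], b2, b3, b4, b6⟩
      · rintro ⟨b1, b5, b2, b3, b4, b6⟩
        refine ⟨b1, b2, b3, b4, ?_, b6⟩
        rw [← b1] at hly
        exact zC_inj i _ _ _ hlx hly b5
    · obtain ⟨hk, hz, e⟩ := dU_t P i hF x hx h
      obtain ⟨hk2, hz2, hz2', hne2, e2⟩ := dU_w P i hF y hy h2
      rw [e, e2]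
      simp [h2, relM]
  · obtain ⟨hk, hz, hz', hne, e⟩ := dU_w P i hF x hx h
    rw [e]
    simp [h, relM]

end Pool.Agent.Work.MP_ed0a9a_lc.V
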