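import Pool.Agent.Work.MP_ed0a9a_lc.V.IsoQ
import Pool.Agent.Work.MP_ed0a9a_lc.V.IsoR

/-!
# Module `IsoRel`: `dU` preserves the relations
-/

namespace Pool.Agent.Work.MP_ed0a9a_lc.V

theorem relC_iff (P : Par) (i : ℕ∞) (hF : ∀ κ ∈ P.F, Fok i κ) (g : ℕ → ℕ → Bool)
    (hg : ∀ e j, (P.ar e : ℕ∞) ≤ i → (g e j = true ↔ ∃ t, P.kb e j t = true))
    (n : ℕ) (l : List Raw) (hlen : l.length = ari P.ar n)
    (hl : ∀ x ∈ l, okRaw P i x = true) :
    relC P g n l = true ↔ relM P (Jt i) (Sym.dec n) (l.map (dU P i)) := by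
  have key : ∀ x, okRaw P i x = true →
      (x.1 = 0 ∧ dU P i x = .d (ptC i x.2.2.1.1) ∧ okP i x.2.2.1.1 = true) ∨
      (x.1 = 1 ∧ okT P.msk P.F P.K i x.2.1 = true ∧ ∃ (hk : x.2.1.1 ∈ P.F)
        (hz : okZ x.2.1.1 (zC i (lab P.msk P.K x.2.1))), dU P i x =
        .t x.2.1.1 hk (xC P.K i x.2.1.2.1) (zC i (lab P.msk P.K x.2.1)) hz) ∨
      (x.1 = 2 ∧ okT P.msk P.F P.K i x.2.1 = true ∧ Zok i x.2.1.1 x.2.2.1 ∧
        ∃ (hk : x.2.1.1 ∈ P.F) (hz : okZ x.2.1.1 (zC i (lab P.msk P.K x.2.1)))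
          (hz' : okZ x.2.1.1 (zC i x.2.2.1))
          (hne : zC i x.2.2.1 ≠ zC i (lab P.msk P.K x.2.1)), dU P i x =
        .w x.2.1.1 hk (xC P.K i x.2.1.2.1) (zC i (lab P.msk P.K x.2.1)) (zC i x.2.2.1)
          hz hz' hne) := by
    intro x hx
    rcases okRaw_tag P i x hx with h | h | h
    · exact Or.inl ⟨h, dU_d P i x h, (ok_d P i x hx h).2.2.2⟩
    · exact Or.inr (Or.inl ⟨h, (ok_t P i x hx h).1, dU_t P i hF x hx h⟩)
    · exact Or.inr (Or.inr ⟨h, (ok_w P i x hx h).2.1, (ok_w P i x hx h).2.2.1,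
        dU_w P i hF x hx h⟩)
  obtain ⟨a, b, hn⟩ : ∃ a b, Nat.unpair n = (a, b) := ⟨_, _, rfl⟩
  have hn1 : (Nat.unpair n).1 = a := by rw [hn]
  have hn2 : (Nat.unpair n).2 = b := by rw [hn]
  unfold ari at hlen
  unfold relC
  simp only [hn1, hn2]
  rcases a with _ | _ | _ | _ | _ | a
  · -- sorts
    rcases b with _ | _ | b
    · have hd : Sym.dec n = .SD := by simp [Sym.dec, hn1, hn2]
      rw [hd] at hlen ⊢
      obtain ⟨x, rfl⟩ := List.length_eq_one_iff.1 hlen
      have hx := hl x (by simp)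
      rcases key x hx with ⟨h, e, -⟩ | ⟨h, -, hk, hz, e⟩ | ⟨h, -, -, hk, hz, hz', hne, e⟩ <;>
        simp [e, h, relM]
    · have hd : Sym.dec n = .SW := by simp [Sym.dec, hn1, hn2]
      rw [hd] at hlen ⊢
      obtain ⟨x, rfl⟩ := List.length_eq_one_iff.1 hlen
      have hx := hl x (by simp)
      rcases key x hx with ⟨h, e, -⟩ | ⟨h, -, hk, hz, e⟩ | ⟨h, -, -, hk, hz, hz', hne, e⟩ <;>
        simp [e, h, relM]
    · have hd : Sym.dec n = .ST b := by simp [Sym.dec, hn1, hn2]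
      rw [hd] at hlen ⊢
      obtain ⟨x, rfl⟩ := List.length_eq_one_iff.1 hlen
      have hx := hl x (by simp)
      rcases key x hx with ⟨h, e, -⟩ | ⟨h, -, hk, hz, e⟩ | ⟨h, -, -, hk, hz, hz', hne, e⟩
      · simp [e, h, relM]
      · simp [e, h, relM, eq_comm]
      · simp [e, h, relM]
  · -- constants
    have hd : Sym.dec n = .C b := by simp [Sym.dec, hn1, hn2]
    rw [hd] at hlen ⊢
    obtain ⟨x, rfl⟩ := List.length_eq_one_iff.1 hlen
    have hx := hl x (by simp)
    rcases key x hx with ⟨h, e, h'⟩ | ⟨h, -, hk, hz, e⟩ | ⟨h, -, -, hk, hz, hz', hne, e⟩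
    · simp only [List.map_singleton, e, relM, List.getD_cons_zero, h]
      rw [ptC_eq_inl i _ _ h']
      simp
    · simp [e, h, relM]
    · simp [e, h, relM]
  · -- visible coordinates
    have hd : Sym.dec n = .P b := by simp [Sym.dec, hn1, hn2]
    rw [hd] at hlen ⊢
    obtain ⟨x, y, rfl⟩ := List.length_eq_two.1 hlen
    have hx := hl x (by simp)
    have hy := hl y (by simp)
    rcases key x hx with ⟨h, e, h'⟩ | ⟨h, hok, hk, hz, e⟩ | ⟨h, -, -, hk, hz, hz', hne, e⟩
    · rcases key y hy with ⟨h2, e2, h2'⟩ | ⟨h2, -, hk2, hz2, e2⟩ |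
        ⟨h2, -, -, hk2, hz2, hz2', hne2, e2⟩ <;>
        simp [e, e2, h, relM]
    · rcases key y hy with ⟨h2, e2, h2'⟩ | ⟨h2, -, hk2, hz2, e2⟩ |
        ⟨h2, -, -, hk2, hz2, hz2', hne2, e2⟩
      · simp only [List.map_cons, List.map_nil, e, e2, relM, xC]
        obtain ⟨-, hvl, hv⟩ := okT_spec P i x.2.1 hok
        by_cases hb : b < P.K + 1
        · have hle : okP i (x.2.1.2.1.getD b 0) = true := by
            rw [List.getD_eq_getElem _ _ (by omega)]
            exact hv _ (List.getElem_mem _)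
          have h3 : ptC i (x.2.1.2.1.getD b 0) = ptC i y.2.2.1.1 ↔
              y.2.2.1.1 = x.2.1.2.1.getD b 0 :=
            ⟨fun h4 => (ptC_inj i _ _ hle h2' h4).symm, fun h4 => by rw [h4]⟩
          rw [exists_prop_of_true hb, h3]
          simp only [List.getD_cons_zero, List.getD_cons_succ, h, h2, hb, decide_true,
            Bool.true_and, decide_eq_true_eq, if_true]
          simp
        · simp only [List.getD_cons_zero, List.getD_cons_succ, h, h2, hb, decide_false,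
            Bool.and_false, Bool.false_and]
          simp
      · simp [e, e2, h2, relM]
      · simp [e, e2, h2, relM]
    · rcases key y hy with ⟨h2, e2, h2'⟩ | ⟨h2, -, hk2, hz2, e2⟩ |
        ⟨h2, -, -, hk2, hz2, hz2', hne2, e2⟩ <;>
        simp [e, e2, h, relM]
  · -- the sort `W`
    rcases b with _ | b
    · have hd : Sym.dec n = .Wt := by simp [Sym.dec, hn1, hn2]
      rw [hd] at hlen ⊢
      obtain ⟨x, y, rfl⟩ := List.length_eq_two.1 hlen
      have hx := hl x (by simp)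
      have hy := hl y (by simp)
      rcases key x hx with ⟨h, e, h'⟩ | ⟨h, -, hk, hz, e⟩ | ⟨h, hok, hle, hk, hz, hz', hne, e⟩
      · rcases key y hy with ⟨h2, e2, h2'⟩ | ⟨h2, -, hk2, hz2, e2⟩ |
          ⟨h2, -, -, hk2, hz2, hz2', hne2, e2⟩ <;>
          simp [e, e2, h, relM]
      · rcases key y hy with ⟨h2, e2, h2'⟩ | ⟨h2, -, hk2, hz2, e2⟩ |
          ⟨h2, -, -, hk2, hz2, hz2', hne2, e2⟩ <;>
          simp [e, e2, h, relM]
      · rcases key y hy with ⟨h2, e2, h2'⟩ | ⟨h2, hok2, hk2, hz2, e2⟩ |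
          ⟨h2, -, -, hk2, hz2, hz2', hne2, e2⟩
        · simp [e, e2, h2, relM]
        · simp only [List.map_cons, List.map_nil, e, e2, relM]
          obtain ⟨-, hvl, hv⟩ := okT_spec P i x.2.1 hok
          obtain ⟨-, hvl2, hv2⟩ := okT_spec P i y.2.1 hok2
          have h3 : (x.2.1.1 = y.2.1.1 ∧ xC P.K i x.2.1.2.1 = xC P.K i y.2.1.2.1 ∧
              zC i (lab P.msk P.K x.2.1) = zC i (lab P.msk P.K y.2.1)) ↔ x.2.1 = y.2.1 := by
            constructor
            · rintro ⟨a1, a2, a3⟩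
              have hlx := lab_le P i _ hok (hF _ hk)
              have hly := lab_le P i _ hok2 (hF _ hk2)
              rw [← a1] at hly
              exact lab_inj P i _ _ hok hok2 a1 (xC_inj P.K i _ _ hvl hvl2 hv hv2 a2)
                (zC_inj i _ _ _ hlx hly a3)
            · intro h4
              rw [h4]
              exact ⟨rfl, rfl, rfl⟩
          rw [h3]
          simp only [List.getD_cons_zero, List.getD_cons_succ, h, h2, decide_true,
            Bool.true_and, decide_eq_true_eq]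
          simp
        · simp [e, e2, h2, relM]
    · -- the hidden coordinates of elements of the sort `W`
      have hd : Sym.dec n = .Wz (if b = 0 then false else true) := by
        rcases b with _ | b <;> simp [Sym.dec, hn1, hn2]
      rw [hd] at hlen ⊢
      obtain ⟨x, y, rfl⟩ := List.length_eq_two.1 hlen
      have hx := hl x (by simp)
      have hy := hl y (by simp)
      rcases key x hx with ⟨h, e, h'⟩ | ⟨h, -, hk, hz, e⟩ | ⟨h, hok, hle, hk, hz, hz', hne, e⟩
      · rcases key y hy with ⟨h2, e2, h2'⟩ | ⟨h2, -, hk2, hz2, e2⟩ |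
          ⟨h2, -, -, hk2, hz2, hz2', hne2, e2⟩ <;>
          simp [e, e2, h, relM]
      · rcases key y hy with ⟨h2, e2, h2'⟩ | ⟨h2, -, hk2, hz2, e2⟩ |
          ⟨h2, -, -, hk2, hz2, hz2', hne2, e2⟩ <;>
          simp [e, e2, h, relM]
      · rcases key y hy with ⟨h2, e2, h2'⟩ | ⟨h2, hok2, hk2, hz2, e2⟩ |
          ⟨h2, -, -, hk2, hz2, hz2', hne2, e2⟩
        · simp only [List.map_cons, List.map_nil, e, e2, relM, zC]
          rcases b with _ | b
          · have h3 : ptC i x.2.2.1.1 = ptC i y.2.2.1.1 ↔ x.2.2.1.1 = y.2.2.1.1 :=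
              ⟨ptC_inj i _ _ hle.1 h2', fun h => by rw [h]⟩
            simp [h, h2, h3]
          · have h3 : ptC i x.2.2.1.2 = ptC i y.2.2.1.1 ↔ x.2.2.1.2 = y.2.2.1.1 :=
              ⟨ptC_inj i _ _ hle.2.1 h2', fun h => by rw [h]⟩
            simp [h, h2, h3]
        · simp [e, e2, h2, relM]
        · simp [e, e2, h2, relM]
  · -- links
    have hd : Sym.dec n = .Q b := by simp [Sym.dec, hn1, hn2]
    rw [hd] at hlen ⊢
    obtain ⟨x, y, rfl⟩ := List.length_eq_two.1 hlen
    have hx := hl x (by simp)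
    have hy := hl y (by simp)
    have := isoQ P i hF b x y hx hy
    simp only [List.map_cons, List.map_nil]
    rw [← this]
    simp
  · -- coding relations
    have hd : Sym.dec n = .R (Nat.unpair b).1 (Nat.unpair b).2 := by
      simp [Sym.dec, hn1, hn2]
    rw [hd] at hlen ⊢
    have := isoR P i hF g hg (Nat.unpair b).1 (Nat.unpair b).2 l hlen hl
    rw [← this]
    simp

end Pool.Agent.Work.MP_ed0a9a_lc.V
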