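import Pool.Agent.Work.MP_ed0a9a_lc.V.IsoPt
import Pool.Agent.Work.MP_ed0a9a_lc.V.CopyW

/-!
# Module `IsoU`: `dU` is a bijection from the valid codes onto `U P (Jt i)`
-/

namespace Pool.Agent.Work.MP_ed0a9a_lc.V

theorem okT_spec (P : Par) (i : ℕ∞) (c : Tc) (h : okT P.msk P.F P.K i c = true) :
    c.1 ∈ P.F ∧ c.2.1.length = P.K + 1 ∧ ∀ p ∈ c.2.1, okP i p = true := by
  obtain ⟨κ, v, z, b⟩ := c
  rw [okT_cases] at h
  exact h.1

theorem dU_d (P : Par) (i : ℕ∞) (x : Raw) (h : x.1 = 0) : dU P i x = .d (ptC i x.2.2.1.1) := by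
  unfold dU
  rw [if_pos h]

theorem ok_d (P : Par) (i : ℕ∞) (x : Raw) (h : okRaw P i x = true) (h0 : x.1 = 0) :
    x.2.1 = (0, [], (0, 0), 0) ∧ x.2.2.2 = 0 ∧ x.2.2.1.2 = 0 ∧ okP i x.2.2.1.1 = true := by
  unfold okRaw at h
  rw [if_pos h0] at h
  simp only [Bool.and_eq_true, decide_eq_true_eq] at h
  exact ⟨h.1.1.1, h.1.1.2, h.1.2, h.2⟩

theorem ok_t (P : Par) (i : ℕ∞) (x : Raw) (h : okRaw P i x = true) (h1 : x.1 = 1) :
    okT P.msk P.F P.K i x.2.1 = true ∧ x.2.2 = ((0, 0), 0) := by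
  unfold okRaw at h
  rw [if_neg (by omega), if_pos h1] at h
  simp only [Bool.and_eq_true, decide_eq_true_eq] at h
  exact ⟨h.2, h.1⟩

theorem ok_w (P : Par) (i : ℕ∞) (x : Raw) (h : okRaw P i x = true) (h2 : x.1 = 2) :
    okW P.msk P.F P.K i x.2.1 x.2.2.1 x.2.2.2 = true ∧
    okT P.msk P.F P.K i x.2.1 = true ∧ Zok i x.2.1.1 x.2.2.1 ∧
      x.2.2.1 ≠ lab P.msk P.K x.2.1 := by
  unfold okRaw at h
  rw [if_neg (by omega), if_neg (by omega)] at h
  simp only [Bool.and_eq_true] at h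
  exact ⟨h.2, (okW_iff P i x.2.1 x.2.2.1).1 ⟨_, h.2⟩⟩

theorem dU_t (P : Par) (i : ℕ∞) (hF : ∀ κ ∈ P.F, Fok i κ) (x : Raw)
    (h : okRaw P i x = true) (h1 : x.1 = 1) :
    ∃ (hk : x.2.1.1 ∈ P.F) (hz : okZ x.2.1.1 (zC i (lab P.msk P.K x.2.1))), dU P i x =
      .t x.2.1.1 hk (xC P.K i x.2.1.2.1) (zC i (lab P.msk P.K x.2.1)) hz := by
  have hok := (ok_t P i x h h1).1
  have hk := (okT_spec P i x.2.1 hok).1
  have hz := okZ_zC i _ _ (lab_le P i _ hok (hF _ hk))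
  refine ⟨hk, hz, ?_⟩
  unfold dU
  rw [if_neg (by omega), dif_pos ⟨hk, hz⟩, if_pos h1]

theorem dU_w (P : Par) (i : ℕ∞) (hF : ∀ κ ∈ P.F, Fok i κ) (x : Raw)
    (h : okRaw P i x = true) (h2 : x.1 = 2) :
    ∃ (hk : x.2.1.1 ∈ P.F) (hz : okZ x.2.1.1 (zC i (lab P.msk P.K x.2.1)))
      (hz' : okZ x.2.1.1 (zC i x.2.2.1)) (hne : zC i x.2.2.1 ≠ zC i (lab P.msk P.K x.2.1)),
      dU P i x = .w x.2.1.1 hk (xC P.K i x.2.1.2.1) (zC i (lab P.msk P.K x.2.1))
        (zC i x.2.2.1) hz hz' hne := by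
  obtain ⟨-, hok, hle, hne⟩ := ok_w P i x h h2
  have hk := (okT_spec P i x.2.1 hok).1
  have hl := lab_le P i _ hok (hF _ hk)
  have hz := okZ_zC i _ _ hl
  have hz' := okZ_zC i _ _ hle
  have hne' : zC i x.2.2.1 ≠ zC i (lab P.msk P.K x.2.1) := fun he =>
    hne (zC_inj i _ _ _ hle hl he)
  refine ⟨hk, hz, hz', hne', ?_⟩
  unfold dU
  rw [if_neg (by omega), dif_pos ⟨hk, hz⟩, if_neg (by omega), dif_pos ⟨hz', hne'⟩]

theorem okRaw_tag (P : Par) (i : ℕ∞) (x : Raw) (h : okRaw P i x = true) :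
    x.1 = 0 ∨ x.1 = 1 ∨ x.1 = 2 := by
  unfold okRaw at h
  split_ifs at h with h1 h2
  · exact Or.inl h1
  · exact Or.inr (Or.inl h2)
  · simp only [Bool.and_eq_true, decide_eq_true_eq] at h
    exact Or.inr (Or.inr h.1)

theorem xC_inj (K : ℕ) (i : ℕ∞) (v v' : List ℕ) (hv : v.length = K + 1)
    (hv' : v'.length = K + 1) (hl : ∀ p ∈ v, okP i p = true)
    (hl' : ∀ p ∈ v', okP i p = true) (h : xC K i v = xC K i v') : v = v' := by
  apply List.ext_getElem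
  · rw [hv, hv']
  · intro j h1 h2
    have h3 := congrFun h ⟨j, by omega⟩
    unfold xC at h3
    simp only at h3
    rw [List.getD_eq_getElem _ _ h1, List.getD_eq_getElem _ _ h2] at h3
    exact ptC_inj i _ _ (hl _ (List.getElem_mem _)) (hl' _ (List.getElem_mem _)) h3

theorem dU_inj (P : Par) (i : ℕ∞) (hF : ∀ κ ∈ P.F, Fok i κ) (x y : Raw)
    (hx : okRaw P i x = true) (hy : okRaw P i y = true) (h : dU P i x = dU P i y) : x = y := by
  rcases okRaw_tag P i x hx with h1 | h1 | h1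
  · rcases okRaw_tag P i y hy with h2 | h2 | h2
    · rw [dU_d P i x h1, dU_d P i y h2] at h
      injection h with h
      obtain ⟨x1, x2, x3, x4⟩ := ok_d P i x hx h1
      obtain ⟨y1, y2, y3, y4⟩ := ok_d P i y hy h2
      have h3 := ptC_inj i _ _ x4 y4 h
      obtain ⟨a, b, ⟨c, c2⟩, d⟩ := x
      obtain ⟨a', b', ⟨c', c2'⟩, d'⟩ := y
      simp only at h1 h2 h3 x1 x2 x3 y1 y2 y3
      rw [h1, h2, h3, x1, y1, x2, y2, x3, y3]
    · obtain ⟨hk, hz, e⟩ := dU_t P i hF y hy h2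
      rw [dU_d P i x h1, e] at h
      exact absurd h (by simp)
    · obtain ⟨hk, hz, hz', hne, e⟩ := dU_w P i hF y hy h2
      rw [dU_d P i x h1, e] at h
      exact absurd h (by simp)
  · obtain ⟨hk1, hz1, e1⟩ := dU_t P i hF x hx h1
    rcases okRaw_tag P i y hy with h2 | h2 | h2
    · rw [dU_d P i y h2, e1] at h
      exact absurd h (by simp)
    · obtain ⟨hk, hz, e⟩ := dU_t P i hF y hy h2
      rw [e, e1] at h
      injection h with a1 a2 a3
      obtain ⟨hox, hx2⟩ := ok_t P i x hx h1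
      obtain ⟨hoy, hy2⟩ := ok_t P i y hy h2
      obtain ⟨-, hvl, hv⟩ := okT_spec P i _ hox
      obtain ⟨-, hvl2, hv2⟩ := okT_spec P i _ hoy
      have hlx := lab_le P i _ hox (hF _ hk1)
      have hly := lab_le P i _ hoy (hF _ hk)
      rw [← a1] at hly
      have h3 := lab_inj P i _ _ hox hoy a1 (xC_inj P.K i _ _ hvl hvl2 hv hv2 a2)
        (zC_inj i _ _ _ hlx hly a3)
      obtain ⟨a, b, c⟩ := x
      obtain ⟨a', b', c'⟩ := y
      simp only at h1 h2 h3 hx2 hy2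
      rw [h1, h2, h3, hx2, hy2]
    · obtain ⟨hk, hz, hz', hne, e⟩ := dU_w P i hF y hy h2
      rw [e1, e] at h
      exact absurd h (by simp)
  · obtain ⟨hk1, hz1, hz1', hne1, e1⟩ := dU_w P i hF x hx h1
    rcases okRaw_tag P i y hy with h2 | h2 | h2
    · rw [dU_d P i y h2, e1] at h
      exact absurd h (by simp)
    · obtain ⟨hk, hz, e⟩ := dU_t P i hF y hy h2
      rw [e1, e] at h
      exact absurd h (by simp)
    · obtain ⟨hk, hz, hz', hne, e⟩ := dU_w P i hF y hy h2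
      rw [e1, e] at h
      injection h with a1 a2 a3 a4
      obtain ⟨hwx, hox, hlx', -⟩ := ok_w P i x hx h1
      obtain ⟨hwy, hoy, hly', -⟩ := ok_w P i y hy h2
      obtain ⟨-, hvl, hv⟩ := okT_spec P i _ hox
      obtain ⟨-, hvl2, hv2⟩ := okT_spec P i _ hoy
      have hlx := lab_le P i _ hox (hF _ hk1)
      have hly := lab_le P i _ hoy (hF _ hk)
      rw [← a1] at hly hly'
      have h3 := lab_inj P i _ _ hox hoy a1 (xC_inj P.K i _ _ hvl hvl2 hv hv2 a2)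
        (zC_inj i _ _ _ hlx hly a3)
      have h4 := zC_inj i _ _ _ hlx' hly' a4
      obtain ⟨a, b, c, d⟩ := x
      obtain ⟨a', b', c', d'⟩ := y
      simp only at h1 h2 h3 h4 hwx hwy
      subst h3 h4
      have h5 := okW_unique P i b c d d' hwx hwy
      rw [h1, h2, h5]

theorem dU_surj (P : Par) (i : ℕ∞) (hF : ∀ κ ∈ P.F, Fok i κ) (y : U P (Jt i)) :
    ∃ x, okRaw P i x = true ∧ dU P i x = y := by
  -- codes of tuples
  have hvec : ∀ x : Fin (P.K + 1) → Pt (Jt i), ∃ v : List ℕ, v.length = P.K + 1 ∧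
      (∀ p ∈ v, okP i p = true) ∧ xC P.K i v = x := by
    intro x
    choose p hp hp' using fun j => ptC_surj i (x j)
    refine ⟨List.ofFn p, by simp, ?_, ?_⟩
    · intro q hq
      rw [List.mem_ofFn] at hq
      obtain ⟨j, rfl⟩ := hq
      exact hp j
    · funext j
      unfold xC
      rw [List.getD_eq_getElem _ _ (by rw [List.length_ofFn]; exact j.2), List.getElem_ofFn]
      exact hp' j
  rcases y with p | ⟨k, hk, x, z, hz⟩ | ⟨k, hk, x, z, z', hz, hz', hne⟩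
  · obtain ⟨c, hc, rfl⟩ := ptC_surj i p
    refine ⟨(0, (0, [], (0, 0), 0), (c, 0), 0), ?_, dU_d P i _ rfl⟩
    unfold okRaw
    simp [hc]
  · obtain ⟨v, hv, hv', rfl⟩ := hvec x
    obtain ⟨c, hc, rfl⟩ := zC_surj i k z hz
    obtain ⟨c', b, hok, hlab⟩ := lab_surj P i k hk v hv hv' c hc
    have hr : okRaw P i (1, (k, v, c', b), (0, 0), 0) = true := by
      unfold okRaw
      simp [hok]
    refine ⟨(1, (k, v, c', b), (0, 0), 0), hr, ?_⟩
    obtain ⟨hk', hz', e⟩ := dU_t P i hF _ hr rfl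
    rw [e]
    simp only [hlab]
  · obtain ⟨v, hv, hv', rfl⟩ := hvec x
    obtain ⟨c, hc, rfl⟩ := zC_surj i k z hz
    obtain ⟨d, hd, rfl⟩ := zC_surj i k z' hz'
    obtain ⟨c', b, hok, hlab⟩ := lab_surj P i k hk v hv hv' c hc
    have hdc : d ≠ lab P.msk P.K (k, v, c', b) := by
      rw [hlab]
      rintro rfl
      exact hne rfl
    obtain ⟨e, he⟩ := (okW_iff P i (k, v, c', b) d).2 ⟨hok, hd, hdc⟩
    have hr : okRaw P i (2, (k, v, c', b), d, e) = true := by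
      unfold okRaw
      simp [he]
    refine ⟨(2, (k, v, c', b), d, e), hr, ?_⟩
    obtain ⟨hk', hz1, hz1', hne', e⟩ := dU_w P i hF _ hr rfl
    rw [e]
    simp only [hlab]

end Pool.Agent.Work.MP_ed0a9a_lc.V
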