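import Pool.Agent.Work.MP_ed0a9a_lc.V.CopyDefs
import Pool.Agent.Work.MP_ed0a9a_lc.PrimA

/-!
# Module `PrimA`: primitive recursiveness of the basic functions of the copy
-/

namespace Pool.Agent.Work.MP_ed0a9a_lc.V

theorem primrec_nodup : PrimrecPred (fun l : List ℕ => l.Nodup) := by
  classical
  have h1 : PrimrecRel (fun (L : List ℕ) (x : ℕ) => ∀ a ∈ L, x ≠ a) := by
    have h : PrimrecRel (fun (a x : ℕ) => x ≠ a) :=
      ((Primrec.eq (α := ℕ)).comp Primrec.snd Primrec.fst).not
    exact h.forall_mem_list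
  have h2 : Primrec (fun x : List ℕ => List.rec (motive := fun _ => Bool) true
      (fun b l IH => decide (∀ a ∈ l, b ≠ a) && IH) x) := by
    refine Primrec.list_rec (f := fun x : List ℕ => x) (g := fun _ => true)
      (h := fun _ y => decide (∀ a ∈ y.2.1, y.1 ≠ a) && y.2.2) Primrec.id
      (Primrec.const true) ?_
    refine Primrec.and.comp ?_ (Primrec.snd.comp (Primrec.snd.comp Primrec.snd))
    have h3 := h1.comp (f := fun x : (List ℕ) × (ℕ × List ℕ × Bool) => x.2.2.1)
      (g := fun x : (List ℕ) × (ℕ × List ℕ × Bool) => x.2.1)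
      (Primrec.fst.comp (Primrec.snd.comp Primrec.snd))
      (Primrec.fst.comp Primrec.snd)
    exact primrecPred_iff_primrec_decide.1 h3
  refine primrecPred_iff_primrec_decide.2 (h2.of_eq ?_)
  intro l
  induction l with
  | nil => simp
  | cons b l ih =>
    simp only at ih ⊢
    rw [ih]
    rw [Bool.eq_iff_iff, Bool.and_eq_true, decide_eq_true_iff, decide_eq_true_iff,
      decide_eq_true_iff, List.nodup_cons]
    refine and_congr ?_ Iff.rfl
    constructor
    · intro h h'
      exact h b h' rfl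
    · intro h a ha hab
      exact h (hab ▸ ha)

theorem primrec_mod2 : Primrec (fun p : ℕ => p % 2) :=
  Primrec.nat_mod.comp Primrec.id (Primrec.const 2)

theorem primrec_half : Primrec (fun p : ℕ => p / 2) :=
  Primrec.nat_div.comp Primrec.id (Primrec.const 2)

theorem primrec_indep : Primrec indep := by
  have h1 : PrimrecPred (fun l : List ℕ => ∀ p ∈ l, p % 2 = 1) :=
    ((Primrec.eq (α := ℕ)).comp primrec_mod2 (Primrec.const 1)).forall_mem_list
  have h2 : PrimrecPred (fun l : List ℕ => l.Nodup ∧ ∀ p ∈ l, p % 2 = 1) :=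
    primrec_nodup.and h1
  exact primrecPred_iff_primrec_decide.1 h2

theorem primrec_lvn : Primrec lvn := by
  have h1 : PrimrecRel (fun (l : List ℕ) (c : ℕ) => LGn l c) := by
    have ha : PrimrecPred (fun x : List ℕ × ℕ => ¬ (0 < x.2) ∨ x.1.Nodup) :=
      (PrimrecPred.not (Primrec.nat_lt.comp (Primrec.const 0) Primrec.snd)).or
        (primrec_nodup.comp Primrec.fst)
    have hb : PrimrecRel (fun (p : ℕ) (c : ℕ) => ¬ (p % 2 = 0) ∨ c ≤ p / 2) := by
      refine PrimrecPred.or (PrimrecPred.not ?_) ?_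
      · exact (Primrec.eq (α := ℕ)).comp (primrec_mod2.comp Primrec.fst) (Primrec.const 0)
      · exact Primrec.nat_le.comp Primrec.snd (primrec_half.comp Primrec.fst)
    have hc : PrimrecPred (fun x : List ℕ × ℕ => ∀ p ∈ x.1, ¬ (p % 2 = 0) ∨ x.2 ≤ p / 2) :=
      hb.forall_mem_list
    show PrimrecPred (fun x : List ℕ × ℕ => LGn x.1 x.2)
    refine (ha.and hc).of_eq fun x => ?_
    show ((¬ (0 < x.2) ∨ x.1.Nodup) ∧ ∀ p ∈ x.1, ¬ (p % 2 = 0) ∨ x.2 ≤ p / 2) ↔ LGn x.1 x.2
    unfold LGn
    rw [← imp_iff_not_or]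
    refine and_congr Iff.rfl ?_
    constructor
    · intro h p hp h2
      rcases h p hp with h3 | h3
      · exact absurd h2 h3
      · exact h3
    · intro h p hp
      by_cases h2 : p % 2 = 0
      · exact Or.inr (h p hp h2)
      · exact Or.inl h2
  have h2 : Primrec (fun l : List ℕ => l.sum) := by
    have h := Primrec.list_foldr (f := fun l : List ℕ => l) (g := fun _ => (0 : ℕ))
      (h := fun _ y => y.1 + y.2) Primrec.id (Primrec.const 0)
      (Primrec.nat_add.comp (Primrec.fst.comp Primrec.snd)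
        (Primrec.snd.comp Primrec.snd))
    refine h.of_eq fun l => ?_
    induction l with
    | nil => rfl
    | cons a l ih => simp only [List.foldr_cons, List.sum_cons, ih]
  exact Primrec.nat_findGreatest h2 h1

section

variable {α : Type} [Primcodable α]

theorem pa_nmn {k a : α → ℕ} {v : α → List ℕ} (hk : Primrec k) (hv : Primrec v)
    (ha : Primrec a) : Primrec fun x => nmn (k x) (v x) (a x) := by
  unfold nmn
  exact Primrec.ite (Primrec.nat_lt.comp ha hk) ((Primrec.list_getD 0).comp hv ha)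
    (Primrec.nat_mul.comp (Primrec.const 2) (Primrec.nat_sub.comp ha hk))

theorem pa_posn {κ q : α → ℕ} {v : α → List ℕ} (hk : Primrec κ) (hv : Primrec v)
    (hq : Primrec q) : Primrec fun x => posn (κ x) (v x) (q x) := by
  unfold posn
  have hk2 : Primrec fun x => κ x / 2 := primrec_half.comp hk
  refine Primrec.ite ((Primrec.eq (α := ℕ)).comp (primrec_mod2.comp hk) (Primrec.const 1)) ?_ ?_
  · exact Primrec.pair (Primrec.const 0) (pa_nmn hk2 hv hq)
  · exact Primrec.pair (pa_nmn hk2 hv (Primrec.fst.comp (Primrec.unpair.comp hq)))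
      (pa_nmn hk2 hv (Primrec.snd.comp (Primrec.unpair.comp hq)))

theorem pa_gn {b m j : α → ℕ} (hb : Primrec b) (hm : Primrec m) (hj : Primrec j) :
    Primrec fun x => gn (b x) (m x) (j x) := by
  unfold gn
  refine Primrec.ite ((Primrec.eq (α := ℕ)).comp hb (Primrec.const 1)) ?_ ?_
  · exact Primrec.succ.comp (Primrec.nat_mul.comp (Primrec.const 2)
      (Primrec₂.natPair.comp hm hj))
  · exact Primrec.succ.comp (Primrec.nat_mul.comp (Primrec.const 2) hj)

theorem primrec_fr : Primrec (fun x : ℕ × ℕ × List ℕ => fr x.1 x.2.1 x.2.2) := by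
  classical
  have h1 : PrimrecRel (fun (p : ℕ) (y : ℕ × ℕ × ℕ) => p ≠ gn y.1 y.2.1 y.2.2) := by
    refine PrimrecPred.not ((Primrec.eq (α := ℕ)).comp Primrec.fst ?_)
    exact pa_gn (Primrec.fst.comp Primrec.snd) (Primrec.fst.comp (Primrec.snd.comp Primrec.snd))
      (Primrec.snd.comp (Primrec.snd.comp Primrec.snd))
  have h2 : PrimrecRel (fun (l : List ℕ) (y : ℕ × ℕ × ℕ) =>
      ∀ p ∈ l, p ≠ gn y.1 y.2.1 y.2.2) := h1.forall_mem_list
  have h3 : PrimrecRel (fun (j : ℕ) (x : ℕ × ℕ × List ℕ) =>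
      ∀ p ∈ x.2.2, p ≠ gn x.1 x.2.1 j) :=
    h2.comp (f := fun y : ℕ × (ℕ × ℕ × List ℕ) => y.2.2.2)
      (g := fun y : ℕ × (ℕ × ℕ × List ℕ) => (y.2.1, y.2.2.1, y.1))
      (Primrec.snd.comp (Primrec.snd.comp Primrec.snd))
      (Primrec.pair (Primrec.fst.comp Primrec.snd)
        (Primrec.pair (Primrec.fst.comp (Primrec.snd.comp Primrec.snd)) Primrec.fst))
  have h4 : Primrec (fun x : ℕ × ℕ × List ℕ => (((List.range (x.2.2.length + 1)).filter
      (fun j => decide (∀ p ∈ x.2.2, p ≠ gn x.1 x.2.1 j))).head?).getD 0) := by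
    have h5 := h3.listFilter
    exact Primrec.option_getD.comp (Primrec.list_head?.comp (h5.comp
      (Primrec.list_range.comp (Primrec.succ.comp
        (Primrec.list_length.comp (Primrec.snd.comp Primrec.snd)))) Primrec.id))
      (Primrec.const 0)
  refine h4.of_eq fun x => ?_
  unfold fr
  rw [List.head?_filter]
  congr 2
  funext j
  rw [Bool.eq_iff_iff, decide_eq_true_iff]
  simp only [Bool.not_eq_true', List.contains_eq_mem, decide_eq_false_iff_not]
  constructor
  · intro h h'
    exact h _ h' rfl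
  · intro h p hp hpp
    exact h (hpp ▸ hp)

theorem pa_garb {κ m : α → ℕ} {v : α → List ℕ} (hk : Primrec κ) (hv : Primrec v)
    (hm : Primrec m) : Primrec fun x => garb (κ x) (v x) (m x) := by
  unfold garb
  have hb : Primrec fun x => κ x % 2 := primrec_mod2.comp hk
  refine Primrec.pair ?_ ?_
  · exact Primrec.ite ((Primrec.eq (α := ℕ)).comp hb (Primrec.const 1)) (Primrec.const 0)
      (Primrec.nat_mul.comp (Primrec.const 2) hm)
  · refine pa_gn hb hm ?_
    exact primrec_fr.comp (Primrec.pair hb (Primrec.pair hm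
      (Primrec.list_take.comp (primrec_half.comp hk) hv)))

theorem pa_cd {q s p t : α → ℕ} (hq : Primrec q) (hs : Primrec s) (hp : Primrec p)
    (ht : Primrec t) : Primrec fun x => cd (q x) (s x) (p x) (t x) := by
  unfold cd
  exact Primrec₂.natPair.comp (Primrec₂.natPair.comp hq hs) (Primrec₂.natPair.comp hp ht)

theorem primrec_dl (K : ℕ) : Primrec (dl K) :=
  (Primrec.list_getD 0).comp Primrec.id (Primrec.const K)

theorem primrec_okP (i : ℕ∞) : Primrec (okP i) := by
  classical
  by_cases hi : i = ⊤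
  · subst hi
    refine (Primrec.const true).of_eq fun r => ?_
    unfold okP
    symm
    rw [decide_eq_true_iff]
    intro _
    exact ENat.natCast_lt_top _
  · lift i to ℕ using hi
    have h : PrimrecPred (fun p : ℕ => ¬ (p % 2 = 1) ∨ p / 2 < i) :=
      (PrimrecPred.not ((Primrec.eq (α := ℕ)).comp primrec_mod2 (Primrec.const 1))).or
        (Primrec.nat_lt.comp primrec_half (Primrec.const i))
    refine (primrecPred_iff_primrec_decide.1 h).of_eq fun r => ?_
    unfold okP
    rw [Bool.eq_iff_iff, decide_eq_true_iff, decide_eq_true_iff, ← imp_iff_not_or, Nat.cast_lt]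

theorem pa_pif (msk : ℕ → ℕ → ℕ) (hm : Primrec₂ msk) {q s d : α → ℕ} (hq : Primrec q)
    (hs : Primrec s) (hd : Primrec d) : Primrec fun x => pif msk (q x) (s x) (d x) := by
  unfold pif
  refine Primrec.ite (PrimrecPred.and ?_ (PrimrecPred.and ?_ ?_)) (Primrec.const 1)
    (Primrec.const 0)
  · exact (Primrec.eq (α := ℕ)).comp (primrec_mod2.comp hd) (Primrec.const 0)
  · exact PrimrecPred.not ((Primrec.eq (α := ℕ)).comp hd (Primrec.const 0))
  · exact (Primrec.eq (α := Bool)).comp (primrec_testBit.comp (hm.comp hq hs)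
      (Primrec.nat_sub.comp (primrec_half.comp hd) (Primrec.const 1))) (Primrec.const true)

end

end Pool.Agent.Work.MP_ed0a9a_lc.V
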