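import Pool.Agent.Work.MP_ed0a9a_lc.V.Lvl
import Pool.Agent.Work.MP_ed0a9a_lc.V.StrU

/-!
# Module `UMap`: maps between the structures `U P J` induced by maps of unnamed elements
-/

namespace Pool.Agent.Work.MP_ed0a9a_lc.V

open FirstOrder FirstOrder.Language

/-- The map of points induced by a map of unnamed elements. -/
def pm {I J : Type} (f : I → J) : Pt I → Pt J := Sum.map id f

theorem pm_inl {I J : Type} (f : I → J) (m : ℕ) : pm f (Sum.inl m) = Sum.inl m := rfl

theorem pm_inj {I J : Type} {f : I → J} (hf : Function.Injective f) :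
    Function.Injective (pm f) := Function.injective_id.sumMap hf

theorem pm_eq_inl {I J : Type} (f : I → J) (p : Pt I) (m : ℕ) :
    pm f p = Sum.inl m ↔ p = Sum.inl m := by
  cases p with
  | inl a =>
    show (Sum.inl a : Pt J) = Sum.inl m ↔ _
    rw [Sum.inl.injEq, Sum.inl.injEq]
  | inr j =>
    constructor
    · intro h
      cases h
    · intro h
      cases h

theorem pm_lvl {I J : Type} {f : I → J} (hf : Function.Injective f) (l : List (Pt I)) :
    lvl (l.map (pm f)) = lvl l := lvl_map (pm f) (pm_inj hf) (pm_eq_inl f) l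

theorem pm_nm {I J : Type} (f : I → J) {K : ℕ} (k : ℕ) (x : Fin (K + 1) → Pt I) (a : ℕ) :
    nm k (pm f ∘ x) a = pm f (nm k x a) := by
  unfold nm
  by_cases h : a < k ∧ a < K + 1
  · rw [dif_pos h, dif_pos h]
    rfl
  · rw [dif_neg h, dif_neg h]
    rfl

/-- The map of pairs of points. -/
def pm2 {I J : Type} (f : I → J) (z : Pt I × Pt I) : Pt J × Pt J := (pm f z.1, pm f z.2)

theorem pm2_inj {I J : Type} {f : I → J} (hf : Function.Injective f) :
    Function.Injective (pm2 f) := by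
  intro z z' h
  have h1 := congrArg Prod.fst h
  have h2 := congrArg Prod.snd h
  exact Prod.ext (pm_inj hf h1) (pm_inj hf h2)

theorem pm2_okZ {I J : Type} (f : I → J) {κ : ℕ} {z : Pt I × Pt I} (h : okZ κ z) :
    okZ κ (pm2 f z) := by
  intro hk
  show pm f z.1 = Sum.inl 0
  rw [h hk]
  rfl

theorem pm2_okZ_iff {I J : Type} (f : I → J) {κ : ℕ} {z : Pt I × Pt I} :
    okZ κ (pm2 f z) ↔ okZ κ z := by
  constructor
  · intro h hk
    exact (pm_eq_inl f _ _).1 (h hk)
  · exact pm2_okZ f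

theorem pm_pos {I J : Type} (f : I → J) {K : ℕ} (κ : ℕ)
    (x : Fin (K + 1) → Pt I) (q : ℕ) : pos κ (pm f ∘ x) q = pm2 f (pos κ x q) := by
  unfold pos
  by_cases h : κ % 2 = 1
  · rw [if_pos h, if_pos h, pm_nm]
    rfl
  · rw [if_neg h, if_neg h, pm_nm, pm_nm]
    rfl

theorem pm_miss {I J : Type} {f : I → J} (hf : Function.Injective f) (P : Par) (κ : ℕ)
    (x : Fin (P.K + 1) → Pt I) (z : Pt I × Pt I) (n : ℕ) :
    miss P κ (pm f ∘ x) (pm2 f z) n ↔ miss P κ x z n := by
  unfold miss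
  rw [pm_pos, ← List.map_ofFn, ← List.map_take, pm_lvl hf, (pm2_inj hf).eq_iff]

/-- The induced map. -/
def uMap (P : Par) {I J : Type} (f : I → J) (hf : Function.Injective f) :
    U P I → U P J
  | .d p => .d (pm f p)
  | .t k hk x z hz => .t k hk (pm f ∘ x) (pm2 f z) (pm2_okZ f hz)
  | .w k hk x z z' hz hz' h => .w k hk (pm f ∘ x) (pm2 f z) (pm2 f z') (pm2_okZ f hz)
      (pm2_okZ f hz') (fun e => h (pm2_inj hf e))

theorem relM_uMap (P : Par) {I J : Type} {f : I → J} (hf : Function.Injective f) (s : Sym)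
    (l : List (U P I)) : relM P J s (l.map (uMap P f hf)) ↔ relM P I s l := by
  have hinj := pm_inj hf
  have hinj2 := pm2_inj hf
  cases s with
  | SD =>
    rcases l with _ | ⟨a, _ | ⟨b, l⟩⟩ <;> (try cases a) <;> exact Iff.rfl
  | SW =>
    rcases l with _ | ⟨a, _ | ⟨b, l⟩⟩ <;> (try cases a) <;> exact Iff.rfl
  | C m =>
    rcases l with _ | ⟨a, _ | ⟨b, l⟩⟩ <;> (try cases a) <;> first | exact Iff.rfl | skip
    rename_i p
    exact pm_eq_inl f p m
  | ST k =>
    rcases l with _ | ⟨a, _ | ⟨b, l⟩⟩ <;> (try cases a) <;> exact Iff.rfl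
  | P j =>
    rcases l with _ | ⟨a, _ | ⟨b, _ | ⟨c, l⟩⟩⟩ <;> (try cases a) <;> (try cases b) <;>
      first | exact Iff.rfl | skip
    rename_i k hk x z hz p
    show (∃ hj : j < P.K + 1, pm f (x ⟨j, hj⟩) = pm f p) ↔ ∃ hj : j < P.K + 1, x ⟨j, hj⟩ = p
    simp only [hinj.eq_iff]
  | Wt =>
    rcases l with _ | ⟨a, _ | ⟨b, _ | ⟨c, l⟩⟩⟩ <;> (try cases a) <;> (try cases b) <;>
      first | exact Iff.rfl | skip
    rename_i k hk x z z' hz hz' hne k2 hk2 x2 z2 hz2
    show (k = k2 ∧ pm f ∘ x = pm f ∘ x2 ∧ pm2 f z = pm2 f z2) ↔ (k = k2 ∧ x = x2 ∧ z = z2)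
    rw [hinj2.eq_iff, (hinj.comp_left).eq_iff]
  | Wz b =>
    rcases l with _ | ⟨a, _ | ⟨b, _ | ⟨c, l⟩⟩⟩ <;> (try cases a) <;> (try cases b) <;>
      first | exact Iff.rfl | skip
    · rename_i k hk x z z' hz hz' hne p
      show (if b then (pm2 f z').2 else (pm2 f z').1) = pm f p ↔ (if b then z'.2 else z'.1) = p
      cases b
      · exact hinj.eq_iff
      · exact hinj.eq_iff
  | Q n =>
    rcases l with _ | ⟨a, _ | ⟨b, _ | ⟨c, l⟩⟩⟩ <;> (try cases a) <;> (try cases b) <;>
      first | exact Iff.rfl | skip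
    rename_i k hk x z hz k' hk' x' z' hz'
    show (k = k' ∧ pm2 f z = pm2 f z' ∧ (∀ j : Fin (P.K + 1), j.1 < P.K → pm f (x' j) = pm f (x j)) ∧
        pm f (x (Fin.last P.K)) = Sum.inl 0 ∧ pm f (x' (Fin.last P.K)) = Sum.inl (n + 1) ∧
          ¬ miss P k (pm f ∘ x) (pm2 f z) n) ↔
      (k = k' ∧ z = z' ∧ (∀ j : Fin (P.K + 1), j.1 < P.K → x' j = x j) ∧
        x (Fin.last P.K) = Sum.inl 0 ∧ x' (Fin.last P.K) = Sum.inl (n + 1) ∧
          ¬ miss P k x z n)
    rw [pm_miss hf, pm_eq_inl, pm_eq_inl]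
    simp only [hinj.eq_iff, hinj2.eq_iff]
  | R e j =>
    show ((l.map (uMap P f hf)).length = P.ar e ∧ ∃ l' : List (Pt J),
        l.map (uMap P f hf) = l'.map U.d ∧
          ∃ t, P.kb e j t = true ∧ (t : ℕ∞) ≤ lvl l') ↔
      (l.length = P.ar e ∧ ∃ l' : List (Pt I), l = l'.map U.d ∧
        ∃ t, P.kb e j t = true ∧ (t : ℕ∞) ≤ lvl l')
    have hback : ∀ (l : List (U P I)) (l' : List (Pt J)),
        l.map (uMap P f hf) = l'.map U.d → ∃ l'' : List (Pt I), l = l''.map U.d ∧
          l' = l''.map (pm f) := by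
      intro l
      induction l with
      | nil =>
        intro l' e
        cases l' with
        | nil => exact ⟨[], rfl, rfl⟩
        | cons a l' => simp at e
      | cons a l ih =>
        intro l' e
        cases l' with
        | nil => simp at e
        | cons p l' =>
          rw [List.map_cons, List.map_cons] at e
          injection e with e1 e2
          obtain ⟨l'', rfl, rfl⟩ := ih l' e2
          cases a with
          | d q =>
            have e1' : U.d (pm f q) = (U.d p : U P J) := e1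
            injection e1' with e1'
            exact ⟨q :: l'', rfl, by rw [List.map_cons, e1']⟩
          | t k hk x z hz => cases e1
          | w k hk x z z' hz hz' h => cases e1
    rw [List.length_map]
    constructor
    · rintro ⟨h1, l', e, t, ht, ht'⟩
      obtain ⟨l'', rfl, rfl⟩ := hback l l' e
      rw [pm_lvl hf] at ht'
      exact ⟨h1, l'', rfl, t, ht, ht'⟩
    · rintro ⟨h1, l', rfl, t, ht, ht'⟩
      refine ⟨h1, l'.map (pm f), ?_, t, ht, ?_⟩
      · rw [List.map_map, List.map_map]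
        rfl
      · rw [pm_lvl hf]
        exact ht'

theorem uMap_inj (P : Par) {I J : Type} {f : I → J} (hf : Function.Injective f) :
    Function.Injective (uMap P f hf) := by
  have h := pm_inj hf
  have h2 := pm2_inj hf
  intro x y e
  cases x <;> cases y <;> first | (cases e; done) | skip
  · rename_i p q
    have e' : (U.d (pm f p) : U P J) = U.d (pm f q) := e
    injection e' with e'
    rw [h e']
  · rename_i k hk x z hz k' hk' x' z' hz'
    have e' : (U.t k hk (pm f ∘ x) (pm2 f z) (pm2_okZ f hz) : U P J) =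
      U.t k' hk' (pm f ∘ x') (pm2 f z') (pm2_okZ f hz') := e
    injection e' with e1 e2 e3
    subst e1
    have e2' := h.comp_left e2
    have e3' := h2 e3
    subst e2' e3'
    rfl
  · rename_i k hk x z w hz hw hne k' hk' x' z' w' hz' hw' hne'
    have e' : (U.w k hk (pm f ∘ x) (pm2 f z) (pm2 f w) (pm2_okZ f hz) (pm2_okZ f hw)
        (fun e => hne (h2 e)) : U P J) =
      U.w k' hk' (pm f ∘ x') (pm2 f z') (pm2 f w') (pm2_okZ f hz') (pm2_okZ f hw')
        (fun e => hne' (h2 e)) := e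
    injection e' with e1 e2 e3 e4
    subst e1
    have e2' := h.comp_left e2
    have e3' := h2 e3
    have e4' := h2 e4
    subst e2' e3' e4'
    rfl

theorem uMap_comp (P : Par) {I J L : Type} (f : I → J) (g : J → L)
    (hf : Function.Injective f) (hg : Function.Injective g) (x : U P I) :
    uMap P (g ∘ f) (hg.comp hf) x = uMap P g hg (uMap P f hf x) := by
  have hpt : ∀ p : Pt I, pm (g ∘ f) p = pm g (pm f p) := by
    intro p
    cases p <;> rfl
  have hx : ∀ (x : Fin (P.K + 1) → Pt I), pm (g ∘ f) ∘ x = pm g ∘ (pm f ∘ x) := by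
    intro x
    funext j
    exact hpt _
  have hz : ∀ (z : Pt I × Pt I), pm2 (g ∘ f) z = pm2 g (pm2 f z) := by
    intro z
    unfold pm2
    rw [hpt, hpt]
  cases x with
  | d p =>
    show U.d (pm (g ∘ f) p) = U.d (pm g (pm f p))
    rw [hpt]
  | t k hk x z hz' =>
    show U.t k hk (pm (g ∘ f) ∘ x) (pm2 (g ∘ f) z) _ = U.t k hk (pm g ∘ (pm f ∘ x)) (pm2 g (pm2 f z)) _
    simp only [hx, hz]
  | w k hk x z z' h1 h2 h3 =>
    show U.w k hk (pm (g ∘ f) ∘ x) (pm2 (g ∘ f) z) (pm2 (g ∘ f) z') _ _ _ =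
      U.w k hk (pm g ∘ (pm f ∘ x)) (pm2 g (pm2 f z)) (pm2 g (pm2 f z')) _ _ _
    simp only [hx, hz]

theorem uMap_surj (P : Par) {I J : Type} {f : I → J} (hf : Function.Injective f)
    (hs : Function.Surjective f) : Function.Surjective (uMap P f hf) := by
  have hps : Function.Surjective (pm f) := by
    intro p
    cases p with
    | inl m => exact ⟨Sum.inl m, rfl⟩
    | inr j =>
      obtain ⟨i, rfl⟩ := hs j
      exact ⟨Sum.inr i, rfl⟩
  have hps2 : Function.Surjective (pm2 f) := by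
    rintro ⟨p, p'⟩
    obtain ⟨q, rfl⟩ := hps p
    obtain ⟨q', rfl⟩ := hps p'
    exact ⟨(q, q'), rfl⟩
  have hpx : ∀ x : Fin (P.K + 1) → Pt J, ∃ x' : Fin (P.K + 1) → Pt I, x = pm f ∘ x' := by
    intro x
    have hx : ∀ j, ∃ q, pm f q = x j := fun j => hps (x j)
    choose x' hx' using hx
    exact ⟨x', by funext j; exact (hx' j).symm⟩
  intro y
  cases y with
  | d p =>
    obtain ⟨q, rfl⟩ := hps p
    exact ⟨.d q, rfl⟩
  | t k hk x z hz =>
    obtain ⟨x', rfl⟩ := hpx x
    obtain ⟨z', rfl⟩ := hps2 z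
    exact ⟨.t k hk x' z' ((pm2_okZ_iff f).1 hz), rfl⟩
  | w k hk x z w hz hw hne =>
    obtain ⟨x', rfl⟩ := hpx x
    obtain ⟨z', rfl⟩ := hps2 z
    obtain ⟨w', rfl⟩ := hps2 w
    exact ⟨.w k hk x' z' w' ((pm2_okZ_iff f).1 hz) ((pm2_okZ_iff f).1 hw)
      (fun e => hne (by rw [e])), rfl⟩

theorem uEquiv (P : Par) {I J : Type} (f : I → J) (hf : Function.Injective f)
    (hs : Function.Surjective f) :
    ∃ F : U P I ≃[sig (ari P.ar)] U P J, ∀ x, F x = uMap P f hf x := by
  let e : U P I ≃ U P J := Equiv.ofBijective _ ⟨uMap_inj P hf, uMap_surj P hf hs⟩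
  obtain ⟨F, hF⟩ := equiv_of_rel (ar := P.ar) (dup_strU P I) (dup_strU P J) e (by
    intro s l
    rw [HN_strU, HN_strU]
    exact relM_uMap P hf s l)
  exact ⟨F, fun x => hF x⟩

theorem std_equiv (P : Par) {I J : Type} (f : I ≃ J) :
    Nonempty (U P I ≃[sig (ari P.ar)] U P J) := by
  obtain ⟨F, _⟩ := uEquiv P f f.injective f.surjective
  exact ⟨F⟩

end Pool.Agent.Work.MP_ed0a9a_lc.V
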